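import Mathlib

set_option autoImplicit false

namespace Pool.Agent.Lib.Pa5f8b0

open Equiv

theorem inv_self (g : Perm ℤ) (x : ℤ) : g⁻¹ (g x) = x := g.symm_apply_apply x

theorem self_inv (g : Perm ℤ) (x : ℤ) : g (g⁻¹ x) = x := g.apply_symm_apply x

/-- `g` maps every class `r (mod K)`, `0 ≤ r < K`, affinely and index-preservingly onto a class
`A (mod B)` with `0 ≤ A < B`. -/
def IsCW (g : Perm ℤ) (K : ℤ) : Prop :=
  0 < K ∧ ∀ r, 0 ≤ r → r < K → ∃ A B : ℤ, 0 ≤ A ∧ A < B ∧ ∀ j : ℤ, g (r + K * j) = A + B * j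

theorem IsCW.mul_right {g : Perm ℤ} {K : ℤ} (h : IsCW g K) {t : ℤ} (ht : 0 < t) :
    IsCW g (K * t) := by
  obtain ⟨hK, h⟩ := h
  refine ⟨mul_pos hK ht, ?_⟩
  intro r hr0 hr1
  obtain ⟨A, B, hA, hAB, hj⟩ := h (r % K) (Int.emod_nonneg _ hK.ne') (Int.emod_lt_of_pos _ hK)
  have hB : 0 < B := by omega
  have hv0 : 0 ≤ r / K := Int.ediv_nonneg hr0 hK.le
  have hv1 : r / K < t := Int.ediv_lt_of_lt_mul hK (by rwa [mul_comm])
  refine ⟨A + B * (r / K), B * t, by positivity, ?_, ?_⟩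
  · nlinarith
  · intro j
    have h1 : r + K * t * j = r % K + K * (r / K + t * j) := by
      have := Int.emod_add_mul_ediv r K
      linear_combination -this
    rw [h1, hj]
    ring

theorem IsCW.mul_left {g : Perm ℤ} {K : ℤ} (h : IsCW g K) {t : ℤ} (ht : 0 < t) :
    IsCW g (t * K) := by
  rw [mul_comm]
  exact h.mul_right ht

theorem IsCW.mul {g h : Perm ℤ} {K L : ℤ} (hg : IsCW g K) (hh : IsCW h L) :
    IsCW (g * h) (L * K) := by
  obtain ⟨hL, hh⟩ := hh
  have hK := hg.1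
  refine ⟨mul_pos hL hK, ?_⟩
  intro r hr0 hr1
  obtain ⟨A, B, hA, hAB, hj⟩ := hh (r % L) (Int.emod_nonneg _ hL.ne') (Int.emod_lt_of_pos _ hL)
  have hB : 0 < B := by omega
  have hv0 : 0 ≤ r / L := Int.ediv_nonneg hr0 hL.le
  have hv1 : r / L < K := Int.ediv_lt_of_lt_mul hL (by rwa [mul_comm])
  -- the class `A + B v (mod B K)`
  obtain ⟨A', B', hA', hAB', hj'⟩ := (hg.mul_left hB).2 (A + B * (r / L)) (by positivity)
    (by nlinarith)
  refine ⟨A', B', hA', hAB', ?_⟩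
  intro j
  have h1 : r + L * K * j = r % L + L * (r / L + K * j) := by
    have := Int.emod_add_mul_ediv r L
    linear_combination -this
  rw [Perm.mul_apply, h1, hj, ← hj']
  congr 1
  ring

theorem IsCW.inv {g : Perm ℤ} {K : ℤ} (hg : IsCW g K) : ∃ M, IsCW g⁻¹ M := by
  obtain ⟨hK, h⟩ := hg
  choose! A B hA hAB hj using h
  let S := Finset.Ico 0 K
  let M : ℤ := ∏ r ∈ S, B r
  have hBpos : ∀ r ∈ S, 0 < B r := by
    intro r hr
    rw [Finset.mem_Ico] at hr
    have h1 := hA r hr.1 hr.2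
    have h2 := hAB r hr.1 hr.2
    omega
  have hM : 0 < M := Finset.prod_pos hBpos
  refine ⟨M, hM, ?_⟩
  intro x hx0 hx1
  set r := (g⁻¹ x) % K with hr
  set v := (g⁻¹ x) / K with hv
  have hr0 : 0 ≤ r := Int.emod_nonneg _ hK.ne'
  have hr1 : r < K := Int.emod_lt_of_pos _ hK
  have hrS : r ∈ S := by simp [S, hr0, hr1]
  have hdec : g⁻¹ x = r + K * v := (Int.emod_add_mul_ediv _ _).symm
  have hx : x = A r + B r * v := by
    have h1 : g (g⁻¹ x) = x := by simp
    rw [hdec, hj r hr0 hr1] at h1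
    exact h1.symm
  have hB := hBpos r hrS
  obtain ⟨u, hu⟩ : B r ∣ M := Finset.dvd_prod_of_mem B hrS
  have hu0 : 0 < u := by
    by_contra hle
    push Not at hle
    nlinarith
  have hv0 : 0 ≤ v := by
    by_contra hlt
    push Not at hlt
    have h1 := hAB r hr0 hr1
    nlinarith
  have hv1 : v < u := by
    by_contra hle
    push Not at hle
    have h1 := hA r hr0 hr1
    nlinarith
  refine ⟨r + K * v, K * u, by positivity, ?_, ?_⟩
  · nlinarith
  · intro j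
    have h1 : x + M * j = A r + B r * (v + u * j) := by
      rw [hu]
      linear_combination hx
    rw [h1, ← hj r hr0 hr1, inv_self]
    ring

/-- The group of all class-wise affine permutations of `ℤ` that preserve the set of nonnegative
integers. -/
def HH : Subgroup (Perm ℤ) where
  carrier := {g | ∃ K, IsCW g K}
  one_mem' := ⟨1, one_pos, fun r hr0 hr1 => ⟨0, 1, le_rfl, one_pos, fun j => by
    have : r = 0 := by omega
    subst this
    simp⟩⟩
  mul_mem' := by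
    rintro g h ⟨K, hK⟩ ⟨L, hL⟩
    exact ⟨L * K, hK.mul hL⟩
  inv_mem' := by
    rintro g ⟨K, hK⟩
    exact hK.inv

theorem mem_HH {g : Perm ℤ} : g ∈ HH ↔ ∃ K, IsCW g K := Iff.rfl

/-- Elements of `HH` preserve the nonnegative integers. -/
theorem HH_nonneg {g : Perm ℤ} (hg : g ∈ HH) (x : ℤ) : 0 ≤ g x ↔ 0 ≤ x := by
  obtain ⟨K, hK, h⟩ := hg
  obtain ⟨A, B, hA, hAB, hj⟩ := h (x % K) (Int.emod_nonneg _ hK.ne') (Int.emod_lt_of_pos _ hK)
  have hdec : x = x % K + K * (x / K) := (Int.emod_add_mul_ediv _ _).symm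
  have hx0 : 0 ≤ x ↔ 0 ≤ x / K := (Int.ediv_nonneg_iff_of_pos hK).symm
  rw [hx0]
  have h1 : g x = A + B * (x / K) := by
    conv_lhs => rw [hdec]
    exact hj _
  rw [h1]
  constructor
  · intro h2
    by_contra hlt
    push Not at hlt
    nlinarith
  · intro h2
    have : 0 < B := by omega
    positivity

/-- Local affine behaviour: `g (x + M j) = g x + N j` for all `j`. -/
def Loc (g : Perm ℤ) (x M N : ℤ) : Prop :=
  0 < M ∧ 0 < N ∧ ∀ j : ℤ, g (x + M * j) = g x + N * j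

theorem Loc.scale {g : Perm ℤ} {x M N : ℤ} (h : Loc g x M N) {t : ℤ} (ht : 0 < t) :
    Loc g x (M * t) (N * t) := by
  obtain ⟨hM, hN, h⟩ := h
  refine ⟨mul_pos hM ht, mul_pos hN ht, fun j => ?_⟩
  rw [mul_assoc, h, mul_assoc]

theorem Loc.shift {g : Perm ℤ} {x M N : ℤ} (h : Loc g x M N) (i : ℤ) :
    Loc g (x + M * i) M N := by
  obtain ⟨hM, hN, h⟩ := h
  refine ⟨hM, hN, fun j => ?_⟩
  rw [h i, add_assoc, ← mul_add, h]
  ring

theorem Loc.mul {g h : Perm ℤ} {x M N M' N' : ℤ} (hg : Loc g (h x) M' N') (hh : Loc h x M N) :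
    Loc (g * h) x (M * M') (N * N') := by
  obtain ⟨hM, hN, hh⟩ := hh
  obtain ⟨hM', hN', hg⟩ := hg
  refine ⟨mul_pos hM hM', mul_pos hN hN', fun j => ?_⟩
  rw [Perm.mul_apply, Perm.mul_apply, mul_assoc, hh, mul_left_comm, hg]
  ring

theorem Loc.inv {g : Perm ℤ} {x M N : ℤ} (h : Loc g x M N) : Loc g⁻¹ (g x) N M := by
  obtain ⟨hM, hN, h⟩ := h
  refine ⟨hN, hM, fun j => ?_⟩
  rw [← h, inv_self, inv_self]

theorem Loc.unique {g : Perm ℤ} {x M N M' N' : ℤ} (h : Loc g x M N) (h' : Loc g x M' N') :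
    N * M' = N' * M := by
  have h1 := h.2.2 M'
  have h2 := h'.2.2 M
  rw [mul_comm M' M, h1] at h2
  linarith

theorem IsCW.loc {g : Perm ℤ} {K : ℤ} (h : IsCW g K) (x : ℤ) : ∃ N, Loc g x K N := by
  obtain ⟨hK, h⟩ := h
  obtain ⟨A, B, hA, hAB, hj⟩ := h (x % K) (Int.emod_nonneg _ hK.ne') (Int.emod_lt_of_pos _ hK)
  have hdec : x = x % K + K * (x / K) := (Int.emod_add_mul_ediv _ _).symm
  refine ⟨B, hK, by omega, fun j => ?_⟩
  have h1 : g x = A + B * (x / K) := by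
    conv_lhs => rw [hdec]
    exact hj _
  have h2 : x + K * j = x % K + K * (x / K + j) := by linear_combination hdec
  rw [h1, h2, hj]
  ring

end Pool.Agent.Lib.Pa5f8b0
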