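import Mathlib
import Pool.Agent.Lib.Pa5f8b0.Basic

set_option autoImplicit false

namespace Pool.Agent.Lib.Pa5f8b0

open Equiv

/-- The set of class transpositions. -/
def CTset : Set (Perm ℤ) :=
  {σ : Equiv.Perm ℤ | ∃ r₁ m₁ r₂ m₂ : ℤ,
          0 ≤ r₁ ∧ r₁ < m₁ ∧ 0 ≤ r₂ ∧ r₂ < m₂ ∧
          (¬ ∃ n : ℤ, n % m₁ = r₁ ∧ n % m₂ = r₂) ∧
          (∀ k : ℤ, σ (r₁ + k * m₁) = r₂ + k * m₂ ∧ σ (r₂ + k * m₂) = r₁ + k * m₁) ∧
          (∀ n : ℤ, n % m₁ ≠ r₁ → n % m₂ ≠ r₂ → σ n = n)}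

/-- The group generated by all class transpositions. -/
def CT : Subgroup (Perm ℤ) := Subgroup.closure CTset

theorem emod_add_mul {r m : ℤ} (k : ℤ) (h0 : 0 ≤ r) (h1 : r < m) : (r + m * k) % m = r := by
  rw [Int.add_mul_emod_self_left, Int.emod_eq_of_lt h0 h1]

theorem ediv_add_mul {r m : ℤ} (k : ℤ) (h0 : 0 ≤ r) (h1 : r < m) : (r + m * k) / m = k := by
  have hm : 0 < m := lt_of_le_of_lt h0 h1
  rw [Int.add_mul_ediv_left _ _ hm.ne', Int.ediv_eq_zero_of_lt h0 h1, zero_add]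

theorem dec (x m : ℤ) : x = x % m + m * (x / m) := (Int.emod_add_mul_ediv x m).symm

/-- Existence of class transpositions. -/
theorem exists_ct {r₁ m₁ r₂ m₂ : ℤ} (h1 : 0 ≤ r₁) (h1' : r₁ < m₁) (h2 : 0 ≤ r₂) (h2' : r₂ < m₂)
    (hd : ∀ j k : ℤ, r₁ + m₁ * j ≠ r₂ + m₂ * k) :
    ∃ σ ∈ CTset, (∀ j : ℤ, σ (r₁ + m₁ * j) = r₂ + m₂ * j ∧ σ (r₂ + m₂ * j) = r₁ + m₁ * j) ∧
      (∀ n : ℤ, (∀ j, n ≠ r₁ + m₁ * j) → (∀ j, n ≠ r₂ + m₂ * j) → σ n = n) := by
  let f : ℤ → ℤ := fun x => if x % m₁ = r₁ then r₂ + m₂ * (x / m₁) else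
    if x % m₂ = r₂ then r₁ + m₁ * (x / m₂) else x
  have hdis : ∀ x, x % m₁ = r₁ → x % m₂ = r₂ → False := by
    intro x hx1 hx2
    refine hd (x / m₁) (x / m₂) ?_
    have e1 := dec x m₁
    have e2 := dec x m₂
    rw [hx1] at e1
    rw [hx2] at e2
    rw [← e1, ← e2]
  have hf1 : ∀ j, f (r₁ + m₁ * j) = r₂ + m₂ * j := by
    intro j
    simp only [f, emod_add_mul j h1 h1', if_true, ediv_add_mul j h1 h1']
  have hf2 : ∀ j, f (r₂ + m₂ * j) = r₁ + m₁ * j := by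
    intro j
    have hne : (r₂ + m₂ * j) % m₁ ≠ r₁ := fun h => hdis _ h (emod_add_mul j h2 h2')
    simp only [f, hne, if_false, emod_add_mul j h2 h2', if_true, ediv_add_mul j h2 h2']
  have hinv : Function.Involutive f := by
    intro x
    by_cases hx1 : x % m₁ = r₁
    · have e1 := dec x m₁
      rw [hx1] at e1
      rw [e1, hf1, hf2]
    · by_cases hx2 : x % m₂ = r₂
      · have e2 := dec x m₂
        rw [hx2] at e2
        rw [e2, hf2, hf1]
      · have : f x = x := by simp only [f, hx1, hx2, if_false]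
        rw [this, this]
  let σ : Perm ℤ := hinv.toPerm
  have hσ : ∀ x, σ x = f x := fun x => rfl
  have hσ1 : ∀ j : ℤ, σ (r₁ + m₁ * j) = r₂ + m₂ * j ∧ σ (r₂ + m₂ * j) = r₁ + m₁ * j :=
    fun j => ⟨by rw [hσ, hf1], by rw [hσ, hf2]⟩
  refine ⟨σ, ⟨r₁, m₁, r₂, m₂, h1, h1', h2, h2', ?_, ?_, ?_⟩, hσ1, ?_⟩
  · rintro ⟨n, hn1, hn2⟩
    exact hdis n hn1 hn2
  · intro k
    rw [mul_comm k, mul_comm k]
    exact hσ1 k
  · intro n hn1 hn2
    rw [hσ]
    simp only [f, hn1, hn2, if_false]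
  · intro n hn1 hn2
    have e1 : n % m₁ ≠ r₁ := by
      intro h
      have e1 := dec n m₁
      rw [h] at e1
      exact hn1 _ e1
    have e2 : n % m₂ ≠ r₂ := by
      intro h
      have e2 := dec n m₂
      rw [h] at e2
      exact hn2 _ e2
    rw [hσ]
    simp only [f, e1, e2, if_false]

/-- Reformulation of membership in `CTset`. -/
theorem ctset_spec {σ : Perm ℤ} (hσ : σ ∈ CTset) : ∃ r₁ m₁ r₂ m₂ : ℤ,
    0 ≤ r₁ ∧ r₁ < m₁ ∧ 0 ≤ r₂ ∧ r₂ < m₂ ∧ (∀ j k : ℤ, r₁ + m₁ * j ≠ r₂ + m₂ * k) ∧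
    (∀ j : ℤ, σ (r₁ + m₁ * j) = r₂ + m₂ * j ∧ σ (r₂ + m₂ * j) = r₁ + m₁ * j) ∧
      (∀ n : ℤ, (∀ j, n ≠ r₁ + m₁ * j) → (∀ j, n ≠ r₂ + m₂ * j) → σ n = n) := by
  obtain ⟨r₁, m₁, r₂, m₂, h1, h1', h2, h2', hd, hs, hf⟩ := hσ
  refine ⟨r₁, m₁, r₂, m₂, h1, h1', h2, h2', ?_, ?_, ?_⟩
  · intro j k h
    exact hd ⟨r₁ + m₁ * j, emod_add_mul j h1 h1', by rw [h]; exact emod_add_mul k h2 h2'⟩
  · intro j
    have := hs j
    rwa [mul_comm j, mul_comm j] at this
  · intro n hn1 hn2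
    refine hf n ?_ ?_
    · intro h
      have e1 := dec n m₁
      rw [h] at e1
      exact hn1 _ e1
    · intro h
      have e2 := dec n m₂
      rw [h] at e2
      exact hn2 _ e2

theorem ctset_subset_HH {σ : Perm ℤ} (hσ : σ ∈ CTset) : σ ∈ HH := by
  obtain ⟨r₁, m₁, r₂, m₂, h1, h1', h2, h2', hd, hs, hf⟩ := ctset_spec hσ
  have hm1 : 0 < m₁ := by omega
  have hm2 : 0 < m₂ := by omega
  refine ⟨m₁ * m₂, mul_pos hm1 hm2, ?_⟩
  intro r hr0 hr1
  by_cases e1 : r % m₁ = r₁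
  · have hv0 : 0 ≤ r / m₁ := Int.ediv_nonneg hr0 hm1.le
    have hv1 : r / m₁ < m₂ := Int.ediv_lt_of_lt_mul hm1 (by rwa [mul_comm])
    refine ⟨r₂ + m₂ * (r / m₁), m₂ * m₂, by positivity, by nlinarith, fun j => ?_⟩
    have e := dec r m₁
    rw [e1] at e
    have : r + m₁ * m₂ * j = r₁ + m₁ * (r / m₁ + m₂ * j) := by linear_combination e
    rw [this, (hs _).1]
    ring
  · by_cases e2 : r % m₂ = r₂
    · have hv0 : 0 ≤ r / m₂ := Int.ediv_nonneg hr0 hm2.le
      have hv1 : r / m₂ < m₁ := Int.ediv_lt_of_lt_mul hm2 hr1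
      refine ⟨r₁ + m₁ * (r / m₂), m₁ * m₁, by positivity, by nlinarith, fun j => ?_⟩
      have e := dec r m₂
      rw [e2] at e
      have : r + m₁ * m₂ * j = r₂ + m₂ * (r / m₂ + m₁ * j) := by linear_combination e
      rw [this, (hs _).2]
      ring
    · refine ⟨r, m₁ * m₂, hr0, hr1, fun j => hf _ ?_ ?_⟩
      · intro i hi
        apply e1
        have : r = r₁ + m₁ * (i - m₂ * j) := by linear_combination hi
        rw [this]
        exact emod_add_mul _ h1 h1'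
      · intro i hi
        apply e2
        have : r = r₂ + m₂ * (i - m₁ * j) := by linear_combination hi
        rw [this]
        exact emod_add_mul _ h2 h2'

theorem CT_le_HH : CT ≤ HH := by
  rw [CT, Subgroup.closure_le]
  intro σ hσ
  exact ctset_subset_HH hσ

/-- A permutation swapping finitely many pairs of classes lies in `CT`. -/
theorem multi_swap (S : Finset ℤ) (A B C D : ℤ → ℤ)
    (hA : ∀ i ∈ S, 0 ≤ A i ∧ A i < B i) (hC : ∀ i ∈ S, 0 ≤ C i ∧ C i < D i)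
    (hAA : ∀ i ∈ S, ∀ k ∈ S, i ≠ k → ∀ t s : ℤ, A i + B i * t ≠ A k + B k * s)
    (hCC : ∀ i ∈ S, ∀ k ∈ S, i ≠ k → ∀ t s : ℤ, C i + D i * t ≠ C k + D k * s)
    (hAC : ∀ i ∈ S, ∀ k ∈ S, ∀ t s : ℤ, A i + B i * t ≠ C k + D k * s)
    (σ : Perm ℤ)
    (hσ : ∀ i ∈ S, ∀ t : ℤ, σ (A i + B i * t) = C i + D i * t ∧ σ (C i + D i * t) = A i + B i * t)
    (hfix : ∀ x : ℤ, (∀ i ∈ S, ∀ t : ℤ, x ≠ A i + B i * t ∧ x ≠ C i + D i * t) → σ x = x) :
    σ ∈ CT := by
  classical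
  induction S using Finset.induction_on generalizing σ with
  | empty =>
    have : σ = 1 := by
      ext x
      rw [hfix x (by simp)]
      rfl
    rw [this]
    exact one_mem _
  | insert i₀ S hi₀ ih =>
    have hmem : i₀ ∈ insert i₀ S := Finset.mem_insert_self _ _
    have hsub : ∀ i ∈ S, i ∈ insert i₀ S := fun i hi => Finset.mem_insert_of_mem hi
    have hne : ∀ i ∈ S, i ≠ i₀ := fun i hi h => hi₀ (h ▸ hi)
    obtain ⟨τ, hτ, hτs, hτf⟩ := exists_ct (hA i₀ hmem).1 (hA i₀ hmem).2 (hC i₀ hmem).1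
      (hC i₀ hmem).2 (hAC i₀ hmem i₀ hmem)
    have hτCT : τ ∈ CT := Subgroup.subset_closure hτ
    have hτA : ∀ i ∈ S, ∀ t, τ (A i + B i * t) = A i + B i * t := fun i hi t =>
      hτf _ (fun s => hAA i (hsub i hi) i₀ hmem (hne i hi) t s)
        (fun s => hAC i (hsub i hi) i₀ hmem t s)
    have hτC : ∀ i ∈ S, ∀ t, τ (C i + D i * t) = C i + D i * t := fun i hi t =>
      hτf _ (fun s => (hAC i₀ hmem i (hsub i hi) s t).symm)
        (fun s => hCC i (hsub i hi) i₀ hmem (hne i hi) t s)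
    have h1 : τ * σ ∈ CT := by
      refine ih (fun i hi => hA i (hsub i hi)) (fun i hi => hC i (hsub i hi))
        (fun i hi k hk => hAA i (hsub i hi) k (hsub k hk))
        (fun i hi k hk => hCC i (hsub i hi) k (hsub k hk))
        (fun i hi k hk => hAC i (hsub i hi) k (hsub k hk)) (τ * σ) ?_ ?_
      · intro i hi t
        refine ⟨?_, ?_⟩
        · rw [Perm.mul_apply, (hσ i (hsub i hi) t).1, hτC i hi]
        · rw [Perm.mul_apply, (hσ i (hsub i hi) t).2, hτA i hi]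
      · intro x hx
        rw [Perm.mul_apply]
        by_cases h2 : ∃ t, x = A i₀ + B i₀ * t
        · obtain ⟨t, rfl⟩ := h2
          rw [(hσ i₀ hmem t).1, (hτs t).2]
        · by_cases h3 : ∃ t, x = C i₀ + D i₀ * t
          · obtain ⟨t, rfl⟩ := h3
            rw [(hσ i₀ hmem t).2, (hτs t).1]
          · push Not at h2 h3
            have h4 : σ x = x := by
              apply hfix
              intro i hi t
              rcases Finset.mem_insert.1 hi with rfl | hi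
              · exact ⟨h2 t, h3 t⟩
              · exact hx i hi t
            rw [h4]
            exact hτf x h2 h3
    have h2 : σ = τ⁻¹ * (τ * σ) := by group
    rw [h2]
    exact mul_mem (inv_mem hτCT) h1

/-- `CT` is normalised by `HH`. -/
theorem conj_mem_CT {h : Perm ℤ} (hh : h ∈ HH) {σ : Perm ℤ} (hσ : σ ∈ CT) :
    h * σ * h⁻¹ ∈ CT := by
  induction hσ using Subgroup.closure_induction with
  | mem σ hσ =>
    obtain ⟨K, hK⟩ := hh
    have hK0 := hK.1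
    obtain ⟨r₁, m₁, r₂, m₂, h1, h1', h2, h2', hd, hs, hf⟩ := ctset_spec hσ
    have hm1 : 0 < m₁ := by omega
    have hm2 : 0 < m₂ := by omega
    obtain ⟨-, hK1⟩ := hK.mul_left hm1
    obtain ⟨-, hK2⟩ := hK.mul_left hm2
    have key1 : ∀ i, ∃ A B : ℤ, (0 ≤ i ∧ i < K → 0 ≤ A ∧ A < B ∧
        ∀ j : ℤ, h (r₁ + m₁ * (i + K * j)) = A + B * j) := by
      intro i
      by_cases hi : 0 ≤ i ∧ i < K
      · obtain ⟨A, B, hA, hAB, hj⟩ := hK1 (r₁ + m₁ * i) (by nlinarith [hi.1, hi.2])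
          (by nlinarith [hi.1, hi.2])
        refine ⟨A, B, fun _ => ⟨hA, hAB, fun j => ?_⟩⟩
        rw [← hj]
        congr 1
        ring
      · exact ⟨0, 0, fun h => absurd h hi⟩
    have key2 : ∀ i, ∃ A B : ℤ, (0 ≤ i ∧ i < K → 0 ≤ A ∧ A < B ∧
        ∀ j : ℤ, h (r₂ + m₂ * (i + K * j)) = A + B * j) := by
      intro i
      by_cases hi : 0 ≤ i ∧ i < K
      · obtain ⟨A, B, hA, hAB, hj⟩ := hK2 (r₂ + m₂ * i) (by nlinarith [hi.1, hi.2])
          (by nlinarith [hi.1, hi.2])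
        refine ⟨A, B, fun _ => ⟨hA, hAB, fun j => ?_⟩⟩
        rw [← hj]
        congr 1
        ring
      · exact ⟨0, 0, fun h => absurd h hi⟩
    choose A B hAB using key1
    choose C D hCD using key2
    have hmem : ∀ i, i ∈ Finset.Ico 0 K → 0 ≤ i ∧ i < K := fun i hi => Finset.mem_Ico.1 hi
    have hinj1 : ∀ i ∈ Finset.Ico 0 K, ∀ k ∈ Finset.Ico 0 K, ∀ t s : ℤ,
        i + K * t = k + K * s → i = k := by
      intro i hi k hk t s h
      have h3 := hmem i hi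
      have h4 := hmem k hk
      have h5 := congrArg (· % K) h
      simp only [emod_add_mul _ h3.1 h3.2, emod_add_mul _ h4.1 h4.2] at h5
      exact h5
    refine multi_swap (Finset.Ico 0 K) A B C D
      (fun i hi => ⟨(hAB i (hmem i hi)).1, (hAB i (hmem i hi)).2.1⟩)
      (fun i hi => ⟨(hCD i (hmem i hi)).1, (hCD i (hmem i hi)).2.1⟩) ?_ ?_ ?_ _ ?_ ?_
    · intro i hi k hk hne t s h3
      rw [← (hAB i (hmem i hi)).2.2, ← (hAB k (hmem k hk)).2.2] at h3
      have h4 := h.injective h3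
      have h5 : i + K * t = k + K * s := by
        have h6 : m₁ * (i + K * t) = m₁ * (k + K * s) := by linarith
        exact mul_left_cancel₀ hm1.ne' h6
      exact hne (hinj1 i hi k hk t s h5)
    · intro i hi k hk hne t s h3
      rw [← (hCD i (hmem i hi)).2.2, ← (hCD k (hmem k hk)).2.2] at h3
      have h4 := h.injective h3
      have h5 : i + K * t = k + K * s := by
        have h6 : m₂ * (i + K * t) = m₂ * (k + K * s) := by linarith
        exact mul_left_cancel₀ hm2.ne' h6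
      exact hne (hinj1 i hi k hk t s h5)
    · intro i hi k hk t s h3
      rw [← (hAB i (hmem i hi)).2.2, ← (hCD k (hmem k hk)).2.2] at h3
      exact hd _ _ (h.injective h3)
    · intro i hi t
      refine ⟨?_, ?_⟩
      · rw [Perm.mul_apply, Perm.mul_apply, ← (hAB i (hmem i hi)).2.2, inv_self, (hs _).1,
          (hCD i (hmem i hi)).2.2]
      · rw [Perm.mul_apply, Perm.mul_apply, ← (hCD i (hmem i hi)).2.2, inv_self, (hs _).2,
          (hAB i (hmem i hi)).2.2]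
    · intro x hx
      rw [Perm.mul_apply, Perm.mul_apply]
      have h3 : σ (h⁻¹ x) = h⁻¹ x := by
        apply hf
        · intro j hj
          have hi : j % K ∈ Finset.Ico 0 K :=
            Finset.mem_Ico.2 ⟨Int.emod_nonneg _ hK0.ne', Int.emod_lt_of_pos _ hK0⟩
          refine (hx (j % K) hi (j / K)).1 ?_
          rw [← (hAB _ (hmem _ hi)).2.2, ← dec j K, ← hj, self_inv]
        · intro j hj
          have hi : j % K ∈ Finset.Ico 0 K :=
            Finset.mem_Ico.2 ⟨Int.emod_nonneg _ hK0.ne', Int.emod_lt_of_pos _ hK0⟩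
          refine (hx (j % K) hi (j / K)).2 ?_
          rw [← (hCD _ (hmem _ hi)).2.2, ← dec j K, ← hj, self_inv]
      rw [h3, self_inv]
  | one =>
    have : h * 1 * h⁻¹ = 1 := by group
    rw [this]
    exact one_mem _
  | mul a b _ _ ha hb =>
    have : h * (a * b) * h⁻¹ = (h * a * h⁻¹) * (h * b * h⁻¹) := by group
    rw [this]
    exact mul_mem ha hb
  | inv a _ ha =>
    have : h * a⁻¹ * h⁻¹ = (h * a * h⁻¹)⁻¹ := by group
    rw [this]
    exact inv_mem ha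

end Pool.Agent.Lib.Pa5f8b0
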