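import Mathlib
import Pool.Agent.Lib.Pa5f8b0.Swap

set_option autoImplicit false

namespace Pool.Agent.Lib.Pa5f8b0

open Equiv

/-- `g` maps the standard classes mod `n` onto the classes in `P`. -/
def Rep (n : ℤ) (P : Set (ℤ × ℤ)) (g : Perm ℤ) : Prop :=
  0 < n ∧ (∀ i, 0 ≤ i → i < n → ∃ c ∈ P, ∀ j : ℤ, g (i + n * j) = c.1 + c.2 * j) ∧
  (∀ c ∈ P, ∃ i, 0 ≤ i ∧ i < n ∧ ∀ j : ℤ, g (i + n * j) = c.1 + c.2 * j)

theorem Rep.card_le {n n' : ℤ} {P : Set (ℤ × ℤ)} {g g' : Perm ℤ} (h : Rep n P g)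
    (h' : Rep n' P g') : n' ≤ n := by
  classical
  obtain ⟨hn, h1, h2⟩ := h
  obtain ⟨hn', h1', h2'⟩ := h'
  have key : ∀ i, ∃ i' : ℤ, (0 ≤ i ∧ i < n' → 0 ≤ i' ∧ i' < n ∧ g i' = g' i) := by
    intro i
    by_cases hi : 0 ≤ i ∧ i < n'
    · obtain ⟨c, hc, hcj⟩ := h1' i hi.1 hi.2
      obtain ⟨i', hi0, hi1, hij⟩ := h2 c hc
      refine ⟨i', fun _ => ⟨hi0, hi1, ?_⟩⟩
      have e1 := hcj 0
      have e2 := hij 0
      simp only [mul_zero, add_zero] at e1 e2
      rw [e1, e2]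
    · exact ⟨0, fun h => absurd h hi⟩
  choose f hf using key
  have hcard : (Finset.Ico (0:ℤ) n').card ≤ (Finset.Ico (0:ℤ) n).card := by
    refine Finset.card_le_card_of_injOn f ?_ ?_
    · intro i hi
      have hi' := Finset.mem_Ico.1 (Finset.mem_coe.1 hi)
      exact Finset.mem_coe.2 (Finset.mem_Ico.2 ⟨(hf i hi').1, (hf i hi').2.1⟩)
    · intro i hi k hk hik
      have hi' := Finset.mem_Ico.1 (Finset.mem_coe.1 hi)
      have hk' := Finset.mem_Ico.1 (Finset.mem_coe.1 hk)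
      have e1 := (hf i hi').2.2
      have e2 := (hf k hk').2.2
      apply g'.injective
      rw [← e1, ← e2, hik]
  simp only [Int.card_Ico, sub_zero] at hcard
  omega

theorem block_mem_CT {n : ℤ} (hn : 0 < n) (t : ℕ) : ∀ p : Perm ℤ,
    (∀ i, 0 ≤ i → i < n → ∃ i', 0 ≤ i' ∧ i' < n ∧ ∀ j : ℤ, p (i + n * j) = i' + n * j) →
    (∀ i, (t : ℤ) ≤ i → i < n → ∀ j : ℤ, p (i + n * j) = i + n * j) → p ∈ CT := by
  induction t with
  | zero =>
    intro p _ hp
    have : p = 1 := by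
      ext x
      rw [dec x n, hp (x % n) (by simpa using Int.emod_nonneg _ hn.ne')
        (Int.emod_lt_of_pos _ hn)]
      rfl
    rw [this]
    exact one_mem _
  | succ t ih =>
    intro p hp hfix
    by_cases htn : (t : ℤ) < n
    · obtain ⟨t', ht0, ht1, htj⟩ := hp t (by positivity) htn
      have hle : t' ≤ t := by
        by_contra hlt
        push Not at hlt
        have e1 := hfix t' (by push_cast; omega) ht1 0
        have e2 := htj 0
        have e3 := p.injective (e1.trans e2.symm)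
        simp only [mul_zero, add_zero] at e3
        omega
      rcases eq_or_lt_of_le hle with heq | hlt
      · subst heq
        refine ih p hp ?_
        intro i hi0 hi1 j
        rcases eq_or_lt_of_le hi0 with h | h
        · subst h
          exact htj j
        · exact hfix i (by push_cast; omega) hi1 j
      · obtain ⟨τ, hτ, hτs, hτf⟩ := exists_ct (r₁ := t) (m₁ := n) (r₂ := t') (m₂ := n)
          (by positivity) htn ht0 ht1 (by
            intro j k h
            have h5 := congrArg (· % n) h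
            simp only [emod_add_mul j (show (0:ℤ) ≤ t by positivity) htn,
              emod_add_mul k ht0 ht1] at h5
            omega)
        have hτCT : τ ∈ CT := Subgroup.subset_closure hτ
        have hfixτ : ∀ i, 0 ≤ i → i < n → i ≠ t → i ≠ t' → ∀ j, τ (i + n * j) = i + n * j := by
          intro i hi0 hi1 hit hit' j
          apply hτf
          · intro k h
            have h5 := congrArg (· % n) h
            simp only [emod_add_mul j hi0 hi1,
              emod_add_mul k (show (0:ℤ) ≤ t by positivity) htn] at h5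
            exact hit h5
          · intro k h
            have h5 := congrArg (· % n) h
            simp only [emod_add_mul j hi0 hi1, emod_add_mul k ht0 ht1] at h5
            exact hit' h5
        have h1 : τ * p ∈ CT := by
          apply ih
          · intro i hi0 hi1
            obtain ⟨i', hi0', hi1', hij⟩ := hp i hi0 hi1
            by_cases e1 : i' = t
            · refine ⟨t', ht0, ht1, fun j => ?_⟩
              rw [Perm.mul_apply, hij, e1, (hτs j).1]
            · by_cases e2 : i' = t'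
              · refine ⟨t, by positivity, htn, fun j => ?_⟩
                rw [Perm.mul_apply, hij, e2, (hτs j).2]
              · refine ⟨i', hi0', hi1', fun j => ?_⟩
                rw [Perm.mul_apply, hij, hfixτ i' hi0' hi1' e1 e2]
          · intro i hi0 hi1 j
            rcases eq_or_lt_of_le hi0 with h | h
            · subst h
              rw [Perm.mul_apply, htj, (hτs j).2]
            · rw [Perm.mul_apply, hfix i (by push_cast; omega) hi1 j,
                hfixτ i (by omega) hi1 (by omega) (by omega)]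
        have h2 : p = τ⁻¹ * (τ * p) := by group
        rw [h2]
        exact mul_mem (inv_mem hτCT) h1
    · exact ih p hp (fun i hi0 hi1 => by omega)

theorem Rep.compare {n n' : ℤ} {P : Set (ℤ × ℤ)} {g g' : Perm ℤ} (h : Rep n P g)
    (h' : Rep n' P g') : g⁻¹ * g' ∈ CT := by
  have hnn : n = n' := le_antisymm (h'.card_le h) (h.card_le h')
  subst hnn
  obtain ⟨hn, h1, h2⟩ := h
  obtain ⟨-, h1', h2'⟩ := h'
  refine block_mem_CT hn n.toNat _ ?_ ?_
  · intro i hi0 hi1
    obtain ⟨c, hc, hcj⟩ := h1' i hi0 hi1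
    obtain ⟨i', hi0', hi1', hij⟩ := h2 c hc
    refine ⟨i', hi0', hi1', fun j => ?_⟩
    rw [Perm.mul_apply, hcj, ← hij, inv_self]
  · intro i hi0 hi1
    omega

/-- The forward map of `aPerm`. -/
def aF (a b : ℕ) (x : ℤ) : ℤ := if x % (a + b + 1) < b + 1 then
      (a + 1) * (x % (a + b + 1) + (b + 1) * (x / (a + b + 1)))
    else (x % (a + b + 1) - b) + (a + 1) * (x / (a + b + 1))

/-- The backward map of `aPerm`. -/
def aG (a b : ℕ) (y : ℤ) : ℤ := if y % (a + 1) = 0 then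
      (y / (a + 1)) % (b + 1) + (a + b + 1) * ((y / (a + 1)) / (b + 1))
    else (y % (a + 1) + b) + (a + b + 1) * (y / (a + 1))

theorem aF_lt (a b : ℕ) {i : ℤ} (hi0 : 0 ≤ i) (hi1 : i < b + 1) (j : ℤ) :
    aF a b (i + (a + b + 1) * j) = (a + 1) * (i + (b + 1) * j) := by
  have h2 : i < (a:ℤ) + b + 1 := by
    have : (0:ℤ) ≤ a := by positivity
    omega
  rw [aF, emod_add_mul _ hi0 h2, if_pos hi1, ediv_add_mul _ hi0 h2]

theorem aF_ge (a b : ℕ) {i : ℤ} (hi0 : b + 1 ≤ i) (hi1 : i < a + b + 1) (j : ℤ) :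
    aF a b (i + (a + b + 1) * j) = (i - b) + (a + 1) * j := by
  have h2 : 0 ≤ i := by
    have : (0:ℤ) ≤ b := by positivity
    omega
  rw [aF, emod_add_mul _ h2 hi1, if_neg (by omega), ediv_add_mul _ h2 hi1]

theorem aG_zero (a b : ℕ) {i : ℤ} (hi0 : 0 ≤ i) (hi1 : i < b + 1) (j : ℤ) :
    aG a b ((a + 1) * (i + (b + 1) * j)) = i + (a + b + 1) * j := by
  have hn : (0:ℤ) < a + 1 := by positivity
  have e1 : ((a:ℤ) + 1) * (i + (b + 1) * j) = 0 + (a + 1) * (i + (b + 1) * j) := by ring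
  rw [aG, e1, emod_add_mul _ le_rfl hn, if_pos rfl, ediv_add_mul _ le_rfl hn,
        emod_add_mul _ hi0 hi1, ediv_add_mul _ hi0 hi1]

theorem aG_pos (a b : ℕ) {i : ℤ} (hi0 : 1 ≤ i) (hi1 : i < a + 1) (j : ℤ) :
    aG a b (i + (a + 1) * j) = (i + b) + (a + b + 1) * j := by
  rw [aG, emod_add_mul _ (by omega) hi1, if_neg (by omega), ediv_add_mul _ (by omega) hi1]

/-- The permutation mapping the standard classes mod `a + b + 1` onto the standard classes mod
`a + 1`, with the class of `0` split into `b + 1` classes. -/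
def aPerm (a b : ℕ) : Perm ℤ where
  toFun := aF a b
  invFun := aG a b
  left_inv := by
    intro x
    have hN : (0:ℤ) < a + b + 1 := by positivity
    have hi0 := Int.emod_nonneg x hN.ne'
    have hi1 := Int.emod_lt_of_pos x hN
    have hx := dec x (a + b + 1)
    generalize x % ((a:ℤ) + b + 1) = i at *
    generalize x / ((a:ℤ) + b + 1) = j at *
    by_cases h : i < b + 1
    · rw [hx, aF_lt a b hi0 h, aG_zero a b hi0 h]
    · rw [hx, aF_ge a b (by omega) hi1, aG_pos a b (by omega) (by omega)]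
      ring
  right_inv := by
    intro y
    have hn : (0:ℤ) < a + 1 := by positivity
    have hk : (0:ℤ) < b + 1 := by positivity
    have hi0 := Int.emod_nonneg y hn.ne'
    have hi1 := Int.emod_lt_of_pos y hn
    have hy := dec y (a + 1)
    generalize y % ((a:ℤ) + 1) = i at *
    generalize y / ((a:ℤ) + 1) = j at *
    by_cases h : i = 0
    · have hj0 := Int.emod_nonneg j hk.ne'
      have hj1 := Int.emod_lt_of_pos j hk
      have hj := dec j (b + 1)
      generalize j % ((b:ℤ) + 1) = u at *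
      generalize j / ((b:ℤ) + 1) = v at *
      rw [hy, h, hj, zero_add, aG_zero a b hj0 hj1, aF_lt a b hj0 hj1]
    · rw [hy, aG_pos a b (by omega) hi1, aF_ge a b (by omega) (by omega)]
      ring

theorem aPerm_lt (a b : ℕ) {i : ℤ} (hi0 : 0 ≤ i) (hi1 : i < b + 1) (j : ℤ) :
    aPerm a b (i + (a + b + 1) * j) = (a + 1) * (i + (b + 1) * j) := aF_lt a b hi0 hi1 j

theorem aPerm_ge (a b : ℕ) {i : ℤ} (hi0 : b + 1 ≤ i) (hi1 : i < a + b + 1) (j : ℤ) :
    aPerm a b (i + (a + b + 1) * j) = (i - b) + (a + 1) * j := aF_ge a b hi0 hi1 j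

theorem aPerm_mem (a b : ℕ) : aPerm a b ∈ HH := by
  have hN : (0:ℤ) < a + b + 1 := by positivity
  have hn : (0:ℤ) < a + 1 := by positivity
  have hk : (0:ℤ) < b + 1 := by positivity
  refine ⟨a + b + 1, hN, ?_⟩
  intro i hi0 hi1
  by_cases h : i < b + 1
  · refine ⟨(a + 1) * i, (a + 1) * (b + 1), by positivity, by nlinarith, fun j => ?_⟩
    rw [aPerm_lt a b hi0 h]
    ring
  · exact ⟨i - b, a + 1, by omega, by omega, fun j => aPerm_ge a b (by omega) hi1 j⟩

/-- `CT` as a subgroup of `HH`. -/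
def CTH : Subgroup HH := CT.subgroupOf HH

instance : CTH.Normal := ⟨fun σ hσ h => by
  rw [CTH, Subgroup.mem_subgroupOf] at *
  exact conj_mem_CT h.2 hσ⟩

/-- The quotient, which turns out to be trivial. -/
abbrev Q := HH ⧸ CTH

/-- The class of an element in the quotient. -/
def cl (g : HH) : Q := QuotientGroup.mk g

theorem cl_mul (g h : HH) : cl (g * h) = cl g * cl h := rfl

theorem cl_eq {g h : HH} (hgh : (g : Perm ℤ)⁻¹ * h ∈ CT) : cl g = cl h := by
  rw [cl, cl, QuotientGroup.eq, CTH, Subgroup.mem_subgroupOf]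
  exact hgh

theorem cl_one : cl 1 = 1 := rfl

theorem Rep.cl_eq {n n' : ℤ} {P : Set (ℤ × ℤ)} {g g' : HH} (h : Rep n P g)
    (h' : Rep n' P g') : cl g = cl g' := Pa5f8b0.cl_eq (h.compare h')

/-- The class of `aPerm`. -/
def al (a b : ℕ) : Q := cl ⟨aPerm a b, aPerm_mem a b⟩

/-- The result of splitting one class. -/
def Psplit (P : Set (ℤ × ℤ)) (A B k : ℤ) : Set (ℤ × ℤ) :=
  {c | (c ∈ P ∧ c ≠ (A, B)) ∨ ∃ r, 0 ≤ r ∧ r < k ∧ c = (A + B * r, B * k)}

theorem split {a : ℕ} {P : Set (ℤ × ℤ)} {g : HH} (h : Rep (a + 1) P g) {A B : ℤ}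
    (hc : (A, B) ∈ P) (b : ℕ) :
    ∃ g' : HH, Rep (a + b + 1) (Psplit P A B (b + 1)) g' ∧ cl g' = cl g * al a b := by
  have hN : (0:ℤ) < a + b + 1 := by positivity
  have hn : (0:ℤ) < a + 1 := by positivity
  have hk : (0:ℤ) < b + 1 := by positivity
  -- first move the class to position 0
  obtain ⟨g₁, hg₁, hg₁0, hcl⟩ : ∃ g₁ : HH, Rep (a + 1) P g₁ ∧
      (∀ j : ℤ, (g₁ : Perm ℤ) (0 + (a + 1) * j) = A + B * j) ∧ cl g₁ = cl g := by
    obtain ⟨i₀, hi0, hi1, hij⟩ := h.2.2 _ hc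
    rcases eq_or_lt_of_le hi0 with heq | hlt
    · subst heq
      exact ⟨g, h, hij, rfl⟩
    · obtain ⟨τ, hτ, hτs, hτf⟩ := exists_ct (r₁ := 0) (m₁ := a + 1) (r₂ := i₀) (m₂ := a + 1)
          le_rfl hn hi0 hi1 (by
            intro j k h
            have h5 := congrArg (· % ((a:ℤ) + 1)) h
            simp only [emod_add_mul j le_rfl hn, emod_add_mul k hi0 hi1] at h5
            omega)
      have hfixτ : ∀ i, 0 ≤ i → i < (a:ℤ) + 1 → i ≠ 0 → i ≠ i₀ →
          ∀ j, τ (i + (a + 1) * j) = i + (a + 1) * j := by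
        intro i hi0' hi1' hit hit' j
        apply hτf
        · intro k h
          have h5 := congrArg (· % ((a:ℤ) + 1)) h
          simp only [emod_add_mul j hi0' hi1', emod_add_mul k le_rfl hn] at h5
          exact hit h5
        · intro k h
          have h5 := congrArg (· % ((a:ℤ) + 1)) h
          simp only [emod_add_mul j hi0' hi1', emod_add_mul k hi0 hi1] at h5
          exact hit' h5
      have hτH : τ ∈ HH := ctset_subset_HH hτ
      refine ⟨g * ⟨τ, hτH⟩, ⟨hn, ?_, ?_⟩, ?_, ?_⟩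
      · intro i hi0' hi1'
        by_cases e1 : i = 0
        · subst e1
          obtain ⟨c, hcP, hcj⟩ := h.2.1 i₀ hi0 hi1
          refine ⟨c, hcP, fun j => ?_⟩
          change (g : Perm ℤ) (τ _) = _
          rw [(hτs j).1, hcj]
        · by_cases e2 : i = i₀
          · subst e2
            obtain ⟨c, hcP, hcj⟩ := h.2.1 0 le_rfl hn
            refine ⟨c, hcP, fun j => ?_⟩
            change (g : Perm ℤ) (τ _) = _
            rw [(hτs j).2, hcj]
          · obtain ⟨c, hcP, hcj⟩ := h.2.1 i hi0' hi1'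
            refine ⟨c, hcP, fun j => ?_⟩
            change (g : Perm ℤ) (τ _) = _
            rw [hfixτ i hi0' hi1' e1 e2, hcj]
      · intro c hcP
        obtain ⟨i, hi0', hi1', hcj⟩ := h.2.2 c hcP
        by_cases e1 : i = 0
        · subst e1
          refine ⟨i₀, hi0, hi1, fun j => ?_⟩
          change (g : Perm ℤ) (τ _) = _
          rw [(hτs j).2, hcj]
        · by_cases e2 : i = i₀
          · subst e2
            refine ⟨0, le_rfl, hn, fun j => ?_⟩
            change (g : Perm ℤ) (τ _) = _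
            rw [(hτs j).1, hcj]
          · refine ⟨i, hi0', hi1', fun j => ?_⟩
            change (g : Perm ℤ) (τ _) = _
            rw [hfixτ i hi0' hi1' e1 e2, hcj]
      · intro j
        change (g : Perm ℤ) (τ _) = _
        rw [(hτs j).1, hij]
      · symm
        apply cl_eq
        have : (g : Perm ℤ)⁻¹ * ((g * ⟨τ, hτH⟩ : HH) : Perm ℤ) = τ := by
          rw [Subgroup.coe_mul]
          group
        rw [this]
        exact Subgroup.subset_closure hτ
  refine ⟨g₁ * ⟨aPerm a b, aPerm_mem a b⟩, ⟨hN, ?_, ?_⟩, ?_⟩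
  · intro i hi0 hi1
    by_cases h1 : i < b + 1
    · refine ⟨(A + B * i, B * (b + 1)), Or.inr ⟨i, hi0, h1, rfl⟩, fun j => ?_⟩
      change (g₁ : Perm ℤ) (aPerm a b _) = _
      rw [aPerm_lt a b hi0 h1, ← zero_add (((a:ℤ) + 1) * _), hg₁0]
      ring
    · obtain ⟨c, hcP, hcj⟩ := hg₁.2.1 (i - b) (by omega) (by omega)
      refine ⟨c, Or.inl ⟨hcP, ?_⟩, fun j => ?_⟩
      · intro hcAB
        rw [hcAB] at hcj
        have e1 := hcj 0
        have e2 := hg₁0 0
        have e3 := (g₁ : Perm ℤ).injective (e1.trans e2.symm)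
        simp only [mul_zero, add_zero] at e3
        omega
      · change (g₁ : Perm ℤ) (aPerm a b _) = _
        rw [aPerm_ge a b (by omega) hi1, hcj]
  · rintro c (⟨hcP, hcne⟩ | ⟨r, hr0, hr1, rfl⟩)
    · obtain ⟨i, hi0, hi1, hij⟩ := hg₁.2.2 c hcP
      have hi : i ≠ 0 := by
        intro hi
        subst hi
        apply hcne
        have e1 := hij 0
        have e2 := hg₁0 0
        have e3 := hij 1
        have e4 := hg₁0 1
        rw [e2] at e1
        rw [e4] at e3
        ext <;> simp only [] <;> linarith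
      refine ⟨i + b, by omega, by omega, fun j => ?_⟩
      change (g₁ : Perm ℤ) (aPerm a b _) = _
      rw [aPerm_ge a b (by omega) (by omega), add_sub_cancel_right, hij]
    · refine ⟨r, hr0, by omega, fun j => ?_⟩
      change (g₁ : Perm ℤ) (aPerm a b _) = _
      rw [aPerm_lt a b hr0 hr1, ← zero_add (((a:ℤ) + 1) * _), hg₁0]
      ring
  · rw [cl_mul, hcl]
    rfl

/-- The standard partition. -/
def St (n : ℤ) : Set (ℤ × ℤ) := {c | 0 ≤ c.1 ∧ c.1 < n ∧ c.2 = n}

theorem rep_St {n : ℤ} (hn : 0 < n) : Rep n (St n) ((1 : HH) : Perm ℤ) := by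
  refine ⟨hn, ?_, ?_⟩
  · intro i hi0 hi1
    exact ⟨(i, n), ⟨hi0, hi1, rfl⟩, fun j => rfl⟩
  · rintro ⟨x, m⟩ ⟨h0, h1, h2⟩
    simp only at h0 h1 h2
    subst h2
    exact ⟨x, h0, h1, fun j => rfl⟩

/-- The product arising from splitting all standard classes. -/
def prodal (a b : ℕ) : ℕ → Q
  | 0 => 1
  | t + 1 => prodal a b t * al (a + t * b) b

/-- Intermediate partitions for `R1`. -/
def Pt (a b t : ℕ) : Set (ℤ × ℤ) :=
  {c | (∃ i : ℤ, (t : ℤ) ≤ i ∧ i < a + 1 ∧ c = (i, (a : ℤ) + 1)) ∨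
    (∃ i r : ℤ, 0 ≤ i ∧ i < t ∧ 0 ≤ r ∧ r < b + 1 ∧
      c = (i + (a + 1) * r, ((a : ℤ) + 1) * (b + 1)))}

theorem Pt_succ {a b t : ℕ} (ht : t < a + 1) :
    Psplit (Pt a b t) t (a + 1) (b + 1) = Pt a b (t + 1) := by
  ext c
  constructor
  · rintro (⟨hc | hc, hne⟩ | ⟨r, hr0, hr1, rfl⟩)
    · obtain ⟨i, hi0, hi1, rfl⟩ := hc
      refine Or.inl ⟨i, ?_, hi1, rfl⟩
      have : i ≠ t := fun h => hne (by rw [h])
      push_cast
      omega
    · obtain ⟨i, r, hi0, hi1, hr0, hr1, rfl⟩ := hc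
      exact Or.inr ⟨i, r, hi0, by push_cast; omega, hr0, hr1, rfl⟩
    · exact Or.inr ⟨t, r, by positivity, by push_cast; omega, hr0, hr1, rfl⟩
  · rintro (⟨i, hi0, hi1, rfl⟩ | ⟨i, r, hi0, hi1, hr0, hr1, rfl⟩)
    · push_cast at hi0
      refine Or.inl ⟨Or.inl ⟨i, by omega, hi1, rfl⟩, ?_⟩
      intro h
      have := (Prod.mk.inj h).1
      omega
    · push_cast at hi1
      rcases eq_or_lt_of_le (show i ≤ t by omega) with h | h
      · subst h
        exact Or.inr ⟨r, hr0, hr1, rfl⟩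
      · refine Or.inl ⟨Or.inr ⟨i, r, hi0, h, hr0, hr1, rfl⟩, ?_⟩
        intro h2
        have h3 := (Prod.mk.inj h2).1
        have h4 : (t:ℤ) < a + 1 := by exact_mod_cast ht
        rcases eq_or_lt_of_le hr0 with h5 | h5
        · subst h5
          simp only [mul_zero, add_zero] at h3
          omega
        · nlinarith

theorem Pt_zero (a b : ℕ) : Pt a b 0 = St (a + 1) := by
  ext c
  constructor
  · rintro (⟨i, hi0, hi1, rfl⟩ | ⟨i, r, hi0, hi1, hr0, hr1, rfl⟩)
    · exact ⟨by simpa using hi0, hi1, rfl⟩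
    · exfalso
      simp only [Nat.cast_zero] at hi1
      omega
  · rintro ⟨h0, h1, h2⟩
    exact Or.inl ⟨c.1, by simpa using h0, h1, by ext <;> simp [h2]⟩

theorem Pt_last (a b : ℕ) : Pt a b (a + 1) = St ((a + 1) * (b + 1)) := by
  have ha : (0:ℤ) < a + 1 := by positivity
  ext c
  constructor
  · rintro (⟨i, hi0, hi1, rfl⟩ | ⟨i, r, hi0, hi1, hr0, hr1, rfl⟩)
    · exfalso
      push_cast at hi0
      omega
    · push_cast at hi1
      refine ⟨?_, ?_, rfl⟩
      · simp only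
        positivity
      · simp only
        nlinarith
  · rintro ⟨h0, h1, h2⟩
    refine Or.inr ⟨c.1 % (a + 1), c.1 / (a + 1), Int.emod_nonneg _ ha.ne', ?_,
      Int.ediv_nonneg h0 ha.le, Int.ediv_lt_of_lt_mul ha ?_, ?_⟩
    · push_cast
      exact Int.emod_lt_of_pos _ ha
    · rwa [mul_comm]
    · ext
      · exact dec _ _
      · exact h2

theorem rep_Pt (a b : ℕ) (t : ℕ) (ht : t ≤ a + 1) :
    ∃ g : HH, Rep ((a + t * b : ℕ) + 1) (Pt a b t) g ∧ cl g = prodal a b t := by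
  induction t with
  | zero =>
    refine ⟨1, ?_, rfl⟩
    rw [Pt_zero]
    have := rep_St (n := (a:ℤ) + 1) (by positivity)
    simpa using this
  | succ t ih =>
    obtain ⟨g, hg, hcl⟩ := ih (by omega)
    have hmem : ((t : ℤ), (a : ℤ) + 1) ∈ Pt a b t := Or.inl ⟨t, le_rfl, by
      exact_mod_cast ht, rfl⟩
    obtain ⟨g', hg', hcl'⟩ := split hg hmem b
    refine ⟨g', ?_, ?_⟩
    · rw [Pt_succ (by omega)] at hg'
      have e : (((a + t * b : ℕ) : ℤ) + b + 1) = ((a + (t + 1) * b : ℕ) : ℤ) + 1 := by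
        push_cast
        ring
      rwa [e] at hg'
    · rw [hcl', hcl]
      rfl

theorem R1 (a b : ℕ) : prodal a b (a + 1) = 1 := by
  obtain ⟨g, hg, hcl⟩ := rep_Pt a b (a + 1) le_rfl
  rw [Pt_last] at hg
  have h := rep_St (n := ((a:ℤ) + 1) * (b + 1)) (by positivity)
  rw [← hcl, ← cl_one]
  exact hg.cl_eq h

theorem Psplit_comm (P : Set (ℤ × ℤ)) (A B k A' B' k' : ℤ)
    (h1 : ∀ r, 0 ≤ r → r < k → (A + B * r, B * k) ≠ (A', B'))
    (h2 : ∀ r, 0 ≤ r → r < k' → (A' + B' * r, B' * k') ≠ (A, B)) :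
    Psplit (Psplit P A B k) A' B' k' = Psplit (Psplit P A' B' k') A B k := by
  ext c
  constructor
  · rintro (⟨⟨hc, hne⟩ | ⟨r, hr0, hr1, rfl⟩, hne'⟩ | ⟨r, hr0, hr1, rfl⟩)
    · exact Or.inl ⟨Or.inl ⟨hc, hne'⟩, hne⟩
    · exact Or.inr ⟨r, hr0, hr1, rfl⟩
    · exact Or.inl ⟨Or.inr ⟨r, hr0, hr1, rfl⟩, h2 r hr0 hr1⟩
  · rintro (⟨⟨hc, hne⟩ | ⟨r, hr0, hr1, rfl⟩, hne'⟩ | ⟨r, hr0, hr1, rfl⟩)
    · exact Or.inl ⟨Or.inl ⟨hc, hne'⟩, hne⟩
    · exact Or.inr ⟨r, hr0, hr1, rfl⟩
    · exact Or.inl ⟨Or.inr ⟨r, hr0, hr1, rfl⟩, h1 r hr0 hr1⟩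

theorem R2 {a : ℕ} (ha : 1 ≤ a) (b c : ℕ) :
    al a b * al (a + b) c = al a c * al (a + c) b := by
  have ha' : (1:ℤ) ≤ a := by exact_mod_cast ha
  have h0 := rep_St (n := (a:ℤ) + 1) (by positivity)
  have m0 : ((0:ℤ), (a : ℤ) + 1) ∈ St ((a : ℤ) + 1) :=
    ⟨le_rfl, by change (0:ℤ) < a + 1; omega, rfl⟩
  have m1 : ((1:ℤ), (a : ℤ) + 1) ∈ St ((a : ℤ) + 1) :=
    ⟨by change (0:ℤ) ≤ 1; omega, by change (1:ℤ) < a + 1; omega, rfl⟩
  obtain ⟨g1, hg1, hcl1⟩ := split h0 m0 b
  have m1' : ((1:ℤ), (a : ℤ) + 1) ∈ Psplit (St ((a : ℤ) + 1)) 0 (a + 1) (b + 1) :=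
    Or.inl ⟨m1, by simp⟩
  have e1 : ((a:ℤ) + b + 1) = ((a + b : ℕ) : ℤ) + 1 := by push_cast; ring
  rw [e1] at hg1
  obtain ⟨g2, hg2, hcl2⟩ := split hg1 m1' c
  obtain ⟨g3, hg3, hcl3⟩ := split h0 m1 c
  have m0' : ((0:ℤ), (a : ℤ) + 1) ∈ Psplit (St ((a : ℤ) + 1)) 1 (a + 1) (c + 1) :=
    Or.inl ⟨m0, by simp⟩
  have e3 : ((a:ℤ) + c + 1) = ((a + c : ℕ) : ℤ) + 1 := by push_cast; ring
  rw [e3] at hg3
  obtain ⟨g4, hg4, hcl4⟩ := split hg3 m0' b
  have hcomm := Psplit_comm (St ((a : ℤ) + 1)) 0 (a + 1) (b + 1) 1 (a + 1) (c + 1)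
    (by
      intro r hr0 hr1 h
      have h3 := (Prod.mk.inj h).1
      rcases eq_or_lt_of_le hr0 with h5 | h5
      · subst h5
        omega
      · nlinarith)
    (by
      intro r hr0 hr1 h
      have h3 := (Prod.mk.inj h).1
      have : 0 ≤ ((a:ℤ) + 1) * r := by positivity
      omega)
  rw [hcomm] at hg2
  have h := hg2.cl_eq hg4
  rw [hcl2, hcl1, hcl4, hcl3, cl_one, one_mul, one_mul] at h
  exact h

/-- Partial products of the `al a 1`. -/
def Fq : ℕ → Q
  | 0 => 1
  | 1 => 1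
  | a + 2 => Fq (a + 1) * al (a + 1) 1

theorem Fq_succ {a : ℕ} (ha : 1 ≤ a) : Fq (a + 1) = Fq a * al a 1 := by
  obtain ⟨a, rfl⟩ : ∃ a', a = a' + 1 := ⟨a - 1, by omega⟩
  rfl

/-- The constant value. -/
def be (b : ℕ) : Q := Fq 1 * al 1 b * (Fq (1 + b))⁻¹

theorem be_eq (a b : ℕ) : Fq (a + 1) * al (a + 1) b * (Fq (a + 1 + b))⁻¹ = be b := by
  induction a with
  | zero => rfl
  | succ a ih =>
    rw [← ih]
    have h := R2 (a := a + 1) (by omega) b 1
    have e1 : Fq (a + 1 + 1) = Fq (a + 1) * al (a + 1) 1 := Fq_succ (by omega)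
    have e2 : Fq (a + 1 + 1 + b) = Fq (a + 1 + b) * al (a + 1 + b) 1 := by
      rw [add_right_comm (a + 1) 1 b]
      exact Fq_succ (by omega)
    rw [e1, e2]
    have h' : al (a + 1) 1 * al (a + 1 + 1) b = al (a + 1) b * al (a + 1 + b) 1 := h.symm
    rw [mul_assoc (Fq (a + 1)), h']
    group

theorem al_eq {a : ℕ} (ha : 1 ≤ a) (b : ℕ) : al a b = (Fq a)⁻¹ * be b * Fq (a + b) := by
  obtain ⟨a, rfl⟩ : ∃ a', a = a' + 1 := ⟨a - 1, by omega⟩
  rw [← be_eq a b]
  group

theorem be_one : be 1 = 1 := by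
  rw [be, Fq_succ le_rfl]
  group

theorem prodal_eq {a : ℕ} (ha : 1 ≤ a) (b t : ℕ) :
    prodal a b t = (Fq a)⁻¹ * be b ^ t * Fq (a + t * b) := by
  induction t with
  | zero =>
    rw [prodal, zero_mul, add_zero, pow_zero]
    group
  | succ t ih =>
    rw [prodal, ih, al_eq (by omega)]
    have e : a + t * b + b = a + (t + 1) * b := by ring
    rw [e, pow_succ]
    group

theorem be_pow {a : ℕ} (ha : 1 ≤ a) (b : ℕ) :
    be b ^ (a + 1) = Fq a * (Fq (a + (a + 1) * b))⁻¹ := by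
  have h := R1 a b
  rw [prodal_eq ha] at h
  have h2 : be b ^ (a + 1) = Fq a * ((Fq a)⁻¹ * be b ^ (a + 1) * Fq (a + (a + 1) * b)) *
    (Fq (a + (a + 1) * b))⁻¹ := by group
  rw [h2, h, mul_one]

theorem Fq_double {a : ℕ} (ha : 1 ≤ a) : Fq (a + (a + 1)) = Fq a := by
  have h := be_pow ha 1
  rw [be_one, one_pow, mul_one] at h
  exact (mul_inv_eq_one.1 h.symm).symm

theorem be_pow_one {a : ℕ} (ha : 1 ≤ a) (b : ℕ) : be b ^ (a + 1) = 1 := by
  have h1 := be_pow ha b
  have h2 := be_pow (a := a + (a + 1)) (by omega) b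
  have e : a + (a + 1) + (a + (a + 1) + 1) * b =
    (a + (a + 1) * b) + ((a + (a + 1) * b) + 1) := by ring
  rw [e, Fq_double (a := a + (a + 1) * b) (by omega), Fq_double ha, ← h1] at h2
  have e2 : a + (a + 1) + 1 = (a + 1) + (a + 1) := by ring
  rw [e2, pow_add] at h2
  exact mul_eq_left.1 h2

theorem be_eq_one (b : ℕ) : be b = 1 := by
  have h1 := be_pow_one (a := 1) le_rfl b
  have h2 := be_pow_one (a := 2) (by omega) b
  have h3 : be b ^ (2 + 1) = be b ^ (1 + 1) * be b := pow_succ _ _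
  rw [h2, h1, one_mul] at h3
  exact h3.symm

theorem Fq_eq_one {a : ℕ} (ha : 1 ≤ a) : Fq a = 1 := by
  -- `F(2n) = F(n)` and `F(2 n) = F(2)`
  have h1 := be_pow (a := 1) le_rfl a
  rw [be_eq_one, one_pow] at h1
  have e : 1 + (1 + 1) * a = a + (a + 1) := by ring
  rw [e, Fq_double ha] at h1
  have h2 := mul_inv_eq_one.1 h1.symm
  rw [← h2]
  rfl

theorem al_eq_one {a : ℕ} (ha : 1 ≤ a) (b : ℕ) : al a b = 1 := by
  rw [al_eq ha, be_eq_one, Fq_eq_one ha, Fq_eq_one (by omega)]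
  group

/-- Intermediate partitions for the main theorem. -/
def Pm (A B : ℤ → ℤ) (m K t : ℤ) : Set (ℤ × ℤ) :=
  {c | (∃ i : ℤ, t ≤ i ∧ i < K ∧ c = (A i, B i)) ∨
    (∃ i r : ℤ, 0 ≤ i ∧ i < t ∧ 0 ≤ r ∧ r < m / B i ∧ c = (A i + B i * r, m))}

theorem HH_le_CT : HH ≤ CT := by
  intro h hh
  obtain ⟨K, hK⟩ := hh
  have hK2 := hK.mul_right (t := 2) (by norm_num)
  have hK0 := hK.1
  obtain ⟨a, ha, haK⟩ : ∃ a : ℕ, 1 ≤ a ∧ K * 2 = a + 1 := ⟨(K * 2 - 1).toNat, by omega, by omega⟩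
  rw [haK] at hK2
  have hhH : h ∈ HH := ⟨K, hK⟩
  clear hK hK0 haK
  obtain ⟨hKpos, hAB⟩ := hK2
  choose! A B hA hB hj using hAB
  have hBpos : ∀ r, 0 ≤ r → r < (a:ℤ) + 1 → 0 < B r := by
    intro r hr0 hr1
    have h1 := hA r hr0 hr1
    have h2 := hB r hr0 hr1
    omega
  let m : ℤ := ∏ r ∈ Finset.Ico (0:ℤ) (a + 1), B r
  have hm : 0 < m := Finset.prod_pos (fun r hr => by
    rw [Finset.mem_Ico] at hr
    exact hBpos r hr.1 hr.2)
  have hdvd : ∀ r, 0 ≤ r → r < (a:ℤ) + 1 → B r * (m / B r) = m := by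
    intro r hr0 hr1
    exact Int.mul_ediv_cancel' (Finset.dvd_prod_of_mem B (Finset.mem_Ico.2 ⟨hr0, hr1⟩))
  have hkpos : ∀ r, 0 ≤ r → r < (a:ℤ) + 1 → 0 < m / B r := by
    intro r hr0 hr1
    have h1 := hdvd r hr0 hr1
    have h2 := hBpos r hr0 hr1
    by_contra hle
    push Not at hle
    nlinarith
  have key : ∀ t : ℕ, t ≤ a + 1 → ∃ N : ℕ, 1 ≤ N ∧ ∃ g : HH,
      Rep ((N:ℤ) + 1) (Pm A B m (a + 1) t) g ∧ cl g = cl ⟨h, hhH⟩ := by
    intro t
    induction t with
    | zero =>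
      intro _
      refine ⟨a, ha, ⟨h, hhH⟩, ⟨hKpos, ?_, ?_⟩, rfl⟩
      · intro i hi0 hi1
        exact ⟨(A i, B i), Or.inl ⟨i, by simpa using hi0, hi1, rfl⟩, fun j => hj i hi0 hi1 j⟩
      · rintro c (⟨i, hi0, hi1, rfl⟩ | ⟨i, r, hi0, hi1, -⟩)
        · exact ⟨i, by simpa using hi0, hi1, fun j => hj i (by simpa using hi0) hi1 j⟩
        · exfalso
          simp only [Nat.cast_zero] at hi1
          omega
    | succ t ih =>
      intro ht
      obtain ⟨N, hN, g, hg, hcl⟩ := ih (by omega)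
      have ht0 : (0:ℤ) ≤ t := by positivity
      have ht1 : (t:ℤ) < a + 1 := by exact_mod_cast ht
      have hmem : (A t, B t) ∈ Pm A B m (a + 1) t := Or.inl ⟨t, le_rfl, ht1, rfl⟩
      obtain ⟨b, hb⟩ : ∃ b : ℕ, m / B t = b + 1 :=
        ⟨(m / B t - 1).toNat, by have := hkpos t ht0 ht1; omega⟩
      obtain ⟨g', hg', hcl'⟩ := split hg hmem b
      refine ⟨N + b, by omega, g', ?_, ?_⟩
      · have hP : Psplit (Pm A B m (a + 1) t) (A t) (B t) (b + 1) =
            Pm A B m (a + 1) ((t + 1 : ℕ) : ℤ) := by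
          ext c
          constructor
          · rintro (⟨hc | hc, hne⟩ | ⟨r, hr0, hr1, rfl⟩)
            · obtain ⟨i, hi0, hi1, rfl⟩ := hc
              refine Or.inl ⟨i, ?_, hi1, rfl⟩
              have : i ≠ t := fun h => hne (by rw [h])
              push_cast
              omega
            · obtain ⟨i, r, hi0, hi1, hr0, hr1, rfl⟩ := hc
              exact Or.inr ⟨i, r, hi0, by push_cast; omega, hr0, hr1, rfl⟩
            · refine Or.inr ⟨t, r, ht0, by push_cast; omega, hr0, by rw [hb]; exact hr1, ?_⟩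
              rw [← hb, hdvd t ht0 ht1]
          · rintro (⟨i, hi0, hi1, rfl⟩ | ⟨i, r, hi0, hi1, hr0, hr1, rfl⟩)
            · push_cast at hi0
              refine Or.inl ⟨Or.inl ⟨i, by omega, hi1, rfl⟩, ?_⟩
              intro h2
              have h3 := (Prod.mk.inj h2).1
              have e1 := hj i (by omega) hi1 0
              have e2 := hj t ht0 ht1 0
              simp only [mul_zero, add_zero] at e1 e2
              rw [h3, ← e2] at e1
              have e3 := h.injective e1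
              omega
            · push_cast at hi1
              rcases eq_or_lt_of_le (show i ≤ t by omega) with h4 | h4
              · subst h4
                refine Or.inr ⟨r, hr0, by rw [← hb]; exact hr1, ?_⟩
                rw [← hb, hdvd t ht0 ht1]
              · refine Or.inl ⟨Or.inr ⟨i, r, hi0, h4, hr0, hr1, rfl⟩, ?_⟩
                intro h2
                have h3 := (Prod.mk.inj h2).1
                have e1 := hj i (by omega) (by omega) r
                have e2 := hj t ht0 ht1 0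
                rw [mul_zero, add_zero] at e2
                rw [mul_zero, add_zero] at e2
                rw [h3, ← e2] at e1
                have e3 := h.injective e1
                rcases eq_or_lt_of_le hr0 with h5 | h5
                · subst h5
                  simp only [mul_zero, add_zero] at e3
                  omega
                · nlinarith
        rw [hP] at hg'
        have e : ((N:ℤ) + b + 1) = ((N + b : ℕ) : ℤ) + 1 := by push_cast; ring
        rwa [e] at hg'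
      · rw [hcl', al_eq_one hN, mul_one, hcl]
  obtain ⟨N, hN, g, hg, hcl⟩ := key (a + 1) le_rfl
  have hP : Pm A B m (a + 1) ((a + 1 : ℕ) : ℤ) = St m := by
    ext c
    constructor
    · rintro (⟨i, hi0, hi1, rfl⟩ | ⟨i, r, hi0, hi1, hr0, hr1, rfl⟩)
      · exfalso
        push_cast at hi0
        omega
      · push_cast at hi1
        have h1 := hA i hi0 hi1
        have h2 := hB i hi0 hi1
        have h3 := hdvd i hi0 hi1
        have h4 := hBpos i hi0 hi1
        refine ⟨?_, ?_, rfl⟩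
        · simp only
          positivity
        · simp only
          nlinarith
    · rintro ⟨h0, h1, h2⟩
      obtain ⟨x, m'⟩ := c
      simp only at h0 h1 h2
      subst h2
      set i := (h⁻¹ x) % ((a:ℤ) + 1) with hi
      set v := (h⁻¹ x) / ((a:ℤ) + 1) with hv
      have hi0 : 0 ≤ i := Int.emod_nonneg _ hKpos.ne'
      have hi1 : i < (a:ℤ) + 1 := Int.emod_lt_of_pos _ hKpos
      have hx : x = A i + B i * v := by
        rw [← hj i hi0 hi1, ← dec (h⁻¹ x) ((a:ℤ) + 1), self_inv]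
      have g1 := hA i hi0 hi1
      have g2 := hB i hi0 hi1
      have g3 := hdvd i hi0 hi1
      have g4 := hBpos i hi0 hi1
      refine Or.inr ⟨i, v, hi0, by push_cast; exact hi1, ?_, ?_, ?_⟩
      · by_contra hlt
        push Not at hlt
        nlinarith
      · by_contra hle
        push Not at hle
        nlinarith
      · rw [← hx]
  rw [hP] at hg
  have h1 := hg.cl_eq (rep_St hm)
  rw [hcl, cl_one] at h1
  have h2 : (⟨h, hhH⟩ : HH) ∈ CTH := (QuotientGroup.eq_one_iff _).1 h1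
  rw [CTH, Subgroup.mem_subgroupOf] at h2
  exact h2

theorem CT_eq_HH : CT = HH := le_antisymm CT_le_HH HH_le_CT

end Pool.Agent.Lib.Pa5f8b0
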