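import Mathlib

set_option autoImplicit false

namespace Pool.Agent.Lib.Pa5f8b0

theorem not_dvd_two_pow_mul {m y n : ℕ} (hm : Odd m) (h : ¬ m ∣ y) : ¬ m ∣ 2 ^ n * y := by
  intro h2
  apply h
  refine Nat.Coprime.dvd_of_dvd_mul_left ?_ h2
  exact Nat.Coprime.pow_right n (Nat.coprime_two_right.2 hm)

/-- A function on the positive integers which is periodic off the multiples of `m`, for each `m`,
and which satisfies an affine functional equation for `y ↦ 2 y`, is periodic. -/
theorem lemX (F : ℕ → ℚ)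
    (h1 : ∀ m : ℕ, 0 < m → ∃ K : ℕ, 0 < K ∧ ∀ y y' : ℕ, 0 < y → 0 < y' → ¬ m ∣ y → ¬ m ∣ y' →
      y ≡ y' [MOD K] → F y = F y')
    (N : ℕ) (hN : 0 < N) (α C : ℚ) (hα : 0 < α)
    (h2 : ∀ y : ℕ, 0 < y → N ∣ y → F (2 * y) = α * F y + C) :
    ∃ L : ℕ, 0 < L ∧ ∀ y : ℕ, 0 < y → F (y + L) = F y := by
  -- it suffices to find `M` with `F` constant on multiples of `M`
  suffices h : ∃ M : ℕ, 0 < M ∧ ∃ κ : ℚ, ∀ z : ℕ, 0 < z → M ∣ z → F z = κ by
    obtain ⟨M, hM, κ, hκ⟩ := h
    obtain ⟨K, hK, hKF⟩ := h1 M hM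
    refine ⟨M * K, Nat.mul_pos hM hK, fun y hy => ?_⟩
    by_cases hd : M ∣ y
    · rw [hκ y hy hd, hκ (y + M * K) (by positivity) (dvd_add hd (dvd_mul_right _ _))]
    · refine hKF _ _ (by positivity) hy ?_ hd ?_
      · intro h
        exact hd ((Nat.dvd_add_left (dvd_mul_right M K)).1 h)
      · simp
  -- pigeonhole
  have hpig : ∀ y : ℕ, 0 < y → ∃ n d : ℕ, 0 < d ∧ F (2 ^ n * y) = F (2 ^ (n + d) * y) := by
    intro y hy
    have h3 : ¬ 3 ^ y ∣ y := by
      intro h
      have := Nat.le_of_dvd hy h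
      have := Nat.lt_pow_self (n := y) (show 1 < 3 by norm_num)
      omega
    obtain ⟨K, hK, hKF⟩ := h1 (3 ^ y) (by positivity)
    have hodd : Odd (3 ^ y) := Odd.pow (by decide)
    let w : ℕ → Fin K := fun n => ⟨(2 ^ n * y) % K, Nat.mod_lt _ hK⟩
    obtain ⟨i, j, hij, hw⟩ := Finite.exists_ne_map_eq_of_infinite w
    wlog hlt : i < j generalizing i j
    · exact this j i hij.symm hw.symm (by omega)
    refine ⟨i, j - i, by omega, ?_⟩
    have e : i + (j - i) = j := by omega
    rw [e]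
    refine hKF _ _ (by positivity) (by positivity) (not_dvd_two_pow_mul hodd h3)
      (not_dvd_two_pow_mul hodd h3) ?_
    exact congrArg Fin.val hw
  by_cases hα1 : α = 1
  · subst hα1
    -- iterates
    have hit : ∀ n y : ℕ, 0 < y → N ∣ y → F (2 ^ n * y) = F y + n * C := by
      intro n
      induction n with
      | zero => intro y _ _; simp
      | succ n ih =>
        intro y hy hd
        have e : 2 ^ (n + 1) * y = 2 * (2 ^ n * y) := by ring
        rw [e, h2 _ (by positivity) (dvd_mul_of_dvd_right hd _), ih y hy hd]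
        push_cast
        ring
    have hC : C = 0 := by
      obtain ⟨n, d, hd, h⟩ := hpig N hN
      rw [hit n N hN dvd_rfl, hit (n + d) N hN dvd_rfl] at h
      push_cast at h
      have h' : (d : ℚ) * C = 0 := by linarith
      rcases mul_eq_zero.1 h' with h' | h'
      · exfalso
        have : d = 0 := by exact_mod_cast h'
        omega
      · exact h'
    have hit' : ∀ n y : ℕ, 0 < y → N ∣ y → F (2 ^ n * y) = F y := by
      intro n y hy hd
      rw [hit n y hy hd, hC]
      ring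
    obtain ⟨v, N', hN', hNv⟩ := Nat.exists_eq_two_pow_mul_odd hN.ne'
    obtain ⟨K, hK, hKF⟩ := h1 (2 ^ (v + 1)) (by positivity)
    obtain ⟨k, K', hK', hKk⟩ := Nat.exists_eq_two_pow_mul_odd hK.ne'
    have hK'0 : 0 < K' := hK'.pos
    refine ⟨2 ^ (v + 1 + k) * K' * N, by positivity, F (N * K'), ?_⟩
    intro z hz hdz
    -- an odd number not dividing `z`
    obtain ⟨K₁, hK₁, hKF₁⟩ := h1 (2 * z + 1) (by positivity)
    obtain ⟨u, K₁', hK₁', hKu⟩ := Nat.exists_eq_two_pow_mul_odd hK₁.ne'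
    have hK₁'0 : 0 < K₁' := hK₁'.pos
    have hqodd : Odd (2 * z + 1) := ⟨z, rfl⟩
    have hqz : ¬ (2 * z + 1) ∣ z := by
      intro h
      have := Nat.le_of_dvd hz h
      omega
    -- `Q`
    have hodd : Odd ((2 * z + 1) * K₁') := hqodd.mul hK₁'
    have hQmod : ((2 * z + 1) * K₁') ^ Nat.totient (2 ^ k) ≡ 1 [MOD 2 ^ k] := by
      apply Nat.ModEq.pow_totient
      exact Nat.Coprime.pow_right k (Nat.coprime_two_right.2 hodd)
    have hQdvd : (2 * z + 1) * K₁' ∣ ((2 * z + 1) * K₁') ^ Nat.totient (2 ^ k) := by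
      apply dvd_pow_self
      exact (Nat.totient_pos.2 (by positivity)).ne'
    have hQodd : Odd (((2 * z + 1) * K₁') ^ Nat.totient (2 ^ k)) := hodd.pow
    have hQpos : 0 < ((2 * z + 1) * K₁') ^ Nat.totient (2 ^ k) := by positivity
    generalize ((2 * z + 1) * K₁') ^ Nat.totient (2 ^ k) = Q at *
    have hNz : N ∣ z := (dvd_mul_left N _).trans hdz
    have hNy : N ∣ N * K' * Q + z := by
      apply dvd_add _ hNz
      rw [mul_assoc]
      exact dvd_mul_right _ _
    -- step 1
    have s1 : F z = F (N * K' * Q + z) := by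
      rw [← hit' u z hz hNz, ← hit' u (N * K' * Q + z) (by positivity) hNy]
      refine hKF₁ _ _ (by positivity) (by positivity) (not_dvd_two_pow_mul hqodd hqz)
        (not_dvd_two_pow_mul hqodd ?_) ?_
      · intro h
        have h3 : 2 * z + 1 ∣ N * K' * Q :=
          ((dvd_mul_right (2 * z + 1) K₁').trans hQdvd).trans (dvd_mul_left Q _)
        exact hqz ((Nat.dvd_add_right h3).1 h)
      · rw [mul_add]
        have h3 : K₁ ∣ 2 ^ u * (N * K' * Q) := by
          rw [hKu]
          apply mul_dvd_mul_left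
          exact ((dvd_mul_left K₁' (2 * z + 1)).trans hQdvd).trans (dvd_mul_left Q _)
        have h4 : 0 + 2 ^ u * z ≡ 2 ^ u * (N * K' * Q) + 2 ^ u * z [MOD K₁] :=
          Nat.ModEq.add_right _ ((Nat.modEq_zero_iff_dvd.2 h3).symm)
        simpa using h4
    rw [s1]
    have hz2 : 2 ^ (v + 1) ∣ z := by
      refine Dvd.dvd.trans ?_ hdz
      refine Dvd.dvd.trans ?_ (dvd_mul_right _ N)
      refine Dvd.dvd.trans ?_ (dvd_mul_right _ K')
      exact pow_dvd_pow 2 (by omega)
    have hnd : ∀ w : ℕ, Odd w → ¬ 2 ^ (v + 1) ∣ N * w := by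
      intro w hw h
      rw [hNv, pow_succ, mul_assoc] at h
      have h3 : 2 ∣ N' * w := (mul_dvd_mul_iff_left (by positivity : (2:ℕ) ^ v ≠ 0)).1 h
      have h4 : Odd (N' * w) := hN'.mul hw
      exact (Nat.not_even_iff_odd.2 h4) (even_iff_two_dvd.2 h3)
    refine hKF _ _ (by positivity) (by positivity) ?_ (hnd K' hK') ?_
    · intro h
      have h3 := (Nat.dvd_add_left hz2).1 h
      rw [mul_assoc] at h3
      exact hnd _ (hK'.mul hQodd) h3
    · have hKz : K ∣ z := by
        refine Dvd.dvd.trans ?_ hdz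
        refine Dvd.dvd.trans ?_ (dvd_mul_right _ N)
        rw [hKk]
        apply mul_dvd_mul_right
        exact pow_dvd_pow 2 (by omega)
      have h5 : N * K' * Q ≡ N * K' * 1 [MOD K] := by
        rw [hKk]
        have h6 : K' * Q ≡ K' * 1 [MOD K' * 2 ^ k] := Nat.ModEq.mul_left' K' hQmod
        rw [mul_comm (2 ^ k) K', mul_assoc, mul_assoc]
        exact Nat.ModEq.mul_left N h6
      have h7 : N * K' * Q + z ≡ N * K' * 1 + 0 [MOD K] :=
        Nat.ModEq.add h5 (Nat.modEq_zero_iff_dvd.2 hKz)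
      simpa using h7
  · refine ⟨N, hN, C / (1 - α), fun z hz hd => ?_⟩
    have h1α : 1 - α ≠ 0 := sub_ne_zero.2 (Ne.symm hα1)
    have hit : ∀ n : ℕ, F (2 ^ n * z) - C / (1 - α) = α ^ n * (F z - C / (1 - α)) := by
      intro n
      induction n with
      | zero => simp
      | succ n ih =>
        have e : 2 ^ (n + 1) * z = 2 * (2 ^ n * z) := by ring
        rw [e, h2 _ (by positivity) (dvd_mul_of_dvd_right hd _), pow_succ, mul_comm _ α,
          mul_assoc, ← ih]
        field_simp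
        ring
    obtain ⟨n, d, hd0, h⟩ := hpig z hz
    have e1 := hit n
    have e2 := hit (n + d)
    rw [← h, e1, pow_add] at e2
    have h3 : α ^ n * (1 - α ^ d) * (F z - C / (1 - α)) = 0 := by linear_combination e2
    rcases mul_eq_zero.1 h3 with h4 | h4
    · exfalso
      rcases mul_eq_zero.1 h4 with h5 | h5
      · exact (pow_pos hα n).ne' h5
      · have h6 : α ^ d = 1 := by linarith
        exact hα1 ((pow_eq_one_iff_of_nonneg hα.le hd0.ne').1 h6)
    · linarith

end Pool.Agent.Lib.Pa5f8b0
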