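import Mathlib
import Pool.Agent.Lib.Pa5f8b0.Swap

set_option autoImplicit false

namespace Pool.Agent.Lib.Pa5f8b0

open Equiv

/-- Residue class of `x` mod `M`. -/
def cls (x M : ℤ) : Set ℤ := {y | ∃ j : ℤ, y = x + M * j}

theorem self_mem_cls (x M : ℤ) : x ∈ cls x M := ⟨0, by ring⟩

theorem mem_cls_iff {x y M : ℤ} : y ∈ cls x M ↔ M ∣ y - x := by
  constructor
  · rintro ⟨j, rfl⟩
    exact ⟨j, by ring⟩
  · rintro ⟨j, hj⟩
    exact ⟨j, by linarith⟩

theorem cls_mul_subset (x M t : ℤ) : cls x (M * t) ⊆ cls x M := by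
  rintro y ⟨j, rfl⟩
  exact ⟨t * j, by ring⟩

/-- Periodic sets of integers. -/
def Per (C : Set ℤ) : Prop := ∃ M : ℤ, 0 < M ∧ ∀ x j : ℤ, x + M * j ∈ C ↔ x ∈ C

theorem per_cls (x : ℤ) {M : ℤ} (hM : 0 < M) : Per (cls x M) := by
  refine ⟨M, hM, fun y j => ?_⟩
  constructor
  · rintro ⟨i, hi⟩
    exact ⟨i - j, by linear_combination hi⟩
  · rintro ⟨i, hi⟩
    exact ⟨i + j, by linear_combination hi⟩

theorem Per.union {C D : Set ℤ} (hC : Per C) (hD : Per D) : Per (C ∪ D) := by
  obtain ⟨M, hM, hC⟩ := hC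
  obtain ⟨N, hN, hD⟩ := hD
  refine ⟨M * N, mul_pos hM hN, fun x j => ?_⟩
  have e1 := hC x (N * j)
  have e2 := hD x (M * j)
  have e3 : M * (N * j) = M * N * j := by ring
  have e4 : N * (M * j) = M * N * j := by ring
  rw [e3] at e1
  rw [e4] at e2
  simp only [Set.mem_union, e1, e2]

theorem Per.inter {C D : Set ℤ} (hC : Per C) (hD : Per D) : Per (C ∩ D) := by
  obtain ⟨M, hM, hC⟩ := hC
  obtain ⟨N, hN, hD⟩ := hD
  refine ⟨M * N, mul_pos hM hN, fun x j => ?_⟩
  have e1 := hC x (N * j)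
  have e2 := hD x (M * j)
  have e3 : M * (N * j) = M * N * j := by ring
  have e4 : N * (M * j) = M * N * j := by ring
  rw [e3] at e1
  rw [e4] at e2
  simp only [Set.mem_inter_iff, e1, e2]

theorem per_univ : Per Set.univ := ⟨1, one_pos, fun _ _ => Iff.rfl⟩

theorem per_empty : Per ∅ := ⟨1, one_pos, fun _ _ => Iff.rfl⟩

/-- Closure of the support of `f` in the profinite topology. -/
def Sup (f : Perm ℤ) : Set ℤ := {x | ∀ M : ℤ, 0 < M → ∃ j : ℤ, f (x + M * j) ≠ x + M * j}

theorem supp_sub {f : Perm ℤ} {x : ℤ} (h : f x ≠ x) : x ∈ Sup f := by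
  intro M _
  exact ⟨0, by simpa using h⟩

theorem fix_of_not_sup {f : Perm ℤ} {x : ℤ} (h : x ∉ Sup f) : f x = x := by
  by_contra h2
  exact h (supp_sub h2)

theorem Loc.fix {f : Perm ℤ} {x K N a b : ℤ} (h : Loc f x K N) (hab : a ≠ b)
    (ha : f (x + K * a) = x + K * a) (hb : f (x + K * b) = x + K * b) (j : ℤ) :
    f (x + K * j) = x + K * j := by
  obtain ⟨hK, hN, h⟩ := h
  rw [h] at ha hb
  have h1 : (N - K) * (a - b) = 0 := by linear_combination ha - hb
  have h2 : N = K := by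
    rcases mul_eq_zero.1 h1 with h1 | h1
    · omega
    · omega
  subst h2
  rw [h]
  linarith

theorem not_sup_iff {f : Perm ℤ} {K : ℤ} (hf : IsCW f K) (x : ℤ) :
    x ∉ Sup f ↔ ∀ j : ℤ, f (x + K * j) = x + K * j := by
  constructor
  · intro h
    have h' : ∃ M : ℤ, 0 < M ∧ ∀ j : ℤ, f (x + M * j) = x + M * j := by
      by_contra hcon
      push Not at hcon
      exact h hcon
    obtain ⟨M, hM, hMj⟩ := h'
    obtain ⟨N, hN⟩ := hf.loc x
    refine hN.fix (a := 0) (b := M) (by omega) ?_ ?_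
    · have := hMj 0
      simpa using this
    · have := hMj K
      rwa [mul_comm] at this
  · intro h h2
    obtain ⟨j, hj⟩ := h2 K hf.1
    exact hj (h j)

theorem sup_per' {f : Perm ℤ} {K : ℤ} (hf : IsCW f K) (x j : ℤ) :
    x + K * j ∈ Sup f ↔ x ∈ Sup f := by
  rw [← not_iff_not, not_sup_iff hf, not_sup_iff hf]
  constructor
  · intro h i
    have := h (i - j)
    have e : x + K * j + K * (i - j) = x + K * i := by ring
    rwa [e] at this
  · intro h i
    have := h (j + i)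
    have e : x + K * (j + i) = x + K * j + K * i := by ring
    rwa [e] at this

theorem sup_per {f : Perm ℤ} (hf : f ∈ HH) : Per (Sup f) := by
  obtain ⟨K, hK⟩ := hf
  exact ⟨K, hK.1, sup_per' hK⟩

theorem sup_dense {f : Perm ℤ} {K : ℤ} (hf : IsCW f K) {x : ℤ} (hx : x ∈ Sup f) :
    ∃ a : ℤ, ∀ j, j ≠ a → f (x + K * j) ≠ x + K * j := by
  by_cases h : ∃ a, f (x + K * a) = x + K * a
  · obtain ⟨a, ha⟩ := h
    refine ⟨a, fun j hj hfj => ?_⟩
    obtain ⟨N, hN⟩ := hf.loc x
    exact (not_sup_iff hf x).2 (hN.fix hj hfj ha) hx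
  · push Not at h
    exact ⟨0, fun j _ => h j⟩

/-- `g` moves the class `x (mod M)` off itself. -/
def Sep (g : Perm ℤ) (x M : ℤ) : Prop := ∀ y ∈ cls x M, g y ∉ cls x M

theorem Sep.mul {g : Perm ℤ} {x M : ℤ} (h : Sep g x M) (t : ℤ) : Sep g x (M * t) :=
  fun y hy hg => h y (cls_mul_subset x M t hy) (cls_mul_subset x M t hg)

theorem exists_sep {g : Perm ℤ} (hg : g ∈ HH) {x : ℤ} (hx : g x ≠ x) :
    ∃ M : ℤ, 0 < M ∧ Sep g x M := by
  obtain ⟨K, hK⟩ := hg
  obtain ⟨N, hK0, hN0, hN⟩ := hK.loc x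
  have hL : 0 < |g x - x| + 1 := by positivity
  refine ⟨K * (|g x - x| + 1), mul_pos hK0 hL, ?_⟩
  rintro y ⟨j, rfl⟩ ⟨i, hi⟩
  rw [mul_assoc, hN] at hi
  have h1 : (|g x - x| + 1) ∣ g x - x :=
    ⟨K * i - N * j, by linear_combination hi⟩
  have h2 : g x - x = 0 := Int.eq_zero_of_abs_lt_dvd h1 (by omega)
  exact hx (by omega)

/-- The copy of `h` acting on the class `r (mod M)`. -/
def embF (r M : ℤ) (h : Perm ℤ) (x : ℤ) : ℤ := if x % M = r then r + M * h (x / M) else x

theorem embF_add {r M : ℤ} (hr0 : 0 ≤ r) (hr1 : r < M) (h : Perm ℤ) (j : ℤ) :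
    embF r M h (r + M * j) = r + M * h j := by
  rw [embF, emod_add_mul j hr0 hr1, if_pos rfl, ediv_add_mul j hr0 hr1]

theorem embF_ne {r M x : ℤ} (h : Perm ℤ) (hx : x % M ≠ r) :
    embF r M h x = x := by
  rw [embF, if_neg hx]

/-- The copy of `h` acting on the class `r (mod M)`, as a permutation. -/
def emb (r M : ℤ) (hr0 : 0 ≤ r) (hr1 : r < M) (h : Perm ℤ) : Perm ℤ where
  toFun := embF r M h
  invFun := embF r M h⁻¹
  left_inv := by
    intro x
    by_cases hx : x % M = r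
    · have e := dec x M
      rw [hx] at e
      rw [e, embF_add hr0 hr1, embF_add hr0 hr1, inv_self]
    · rw [embF_ne h hx, embF_ne _ hx]
  right_inv := by
    intro x
    by_cases hx : x % M = r
    · have e := dec x M
      rw [hx] at e
      rw [e, embF_add hr0 hr1, embF_add hr0 hr1, self_inv]
    · rw [embF_ne _ hx, embF_ne _ hx]

theorem emb_add {r M : ℤ} (hr0 : 0 ≤ r) (hr1 : r < M) (h : Perm ℤ) (j : ℤ) :
    emb r M hr0 hr1 h (r + M * j) = r + M * h j := embF_add hr0 hr1 h j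

theorem emb_ne {r M x : ℤ} (hr0 : 0 ≤ r) (hr1 : r < M) (h : Perm ℤ) (hx : x % M ≠ r) :
    emb r M hr0 hr1 h x = x := embF_ne h hx

theorem emb_mem {r M : ℤ} (hr0 : 0 ≤ r) (hr1 : r < M) {h : Perm ℤ} (hh : h ∈ HH) :
    emb r M hr0 hr1 h ∈ HH := by
  obtain ⟨K, hK0, hK⟩ := hh
  have hM : 0 < M := by omega
  refine ⟨M * K, mul_pos hM hK0, ?_⟩
  intro i hi0 hi1
  by_cases hi : i % M = r
  · have e := dec i M
    rw [hi] at e
    have hv0 : 0 ≤ i / M := Int.ediv_nonneg hi0 hM.le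
    have hv1 : i / M < K := Int.ediv_lt_of_lt_mul hM (by rwa [mul_comm])
    obtain ⟨A, B, hA, hAB, hj⟩ := hK _ hv0 hv1
    refine ⟨r + M * A, M * B, by positivity, by nlinarith, fun j => ?_⟩
    have e2 : i + M * K * j = r + M * (i / M + K * j) := by linear_combination e
    rw [e2, emb_add, hj]
    ring
  · refine ⟨i, M * K, hi0, hi1, fun j => ?_⟩
    apply emb_ne
    rwa [mul_assoc, Int.add_mul_emod_self_left]

/-- A permutation of the residues mod `n` acting blockwise: the `n`-cycle. -/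
def cycF (n : ℤ) (x : ℤ) : ℤ := if x % n < n - 1 then x + 1 else x - (n - 1)

theorem cycF_lt {n i : ℤ} (hi0 : 0 ≤ i) (hi1 : i < n - 1) (j : ℤ) :
    cycF n (i + n * j) = i + 1 + n * j := by
  rw [cycF, emod_add_mul j hi0 (by omega), if_pos hi1]
  ring

theorem cycF_last {n : ℤ} (hn : 0 < n) (j : ℤ) :
    cycF n (n - 1 + n * j) = 0 + n * j := by
  rw [cycF, emod_add_mul j (by omega) (by omega), if_neg (by omega)]
  ring

/-- Inverse of `cycF`. -/
def cycG (n : ℤ) (x : ℤ) : ℤ := if x % n = 0 then x + (n - 1) else x - 1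

/-- The blockwise `n`-cycle. -/
def cyc (n : ℤ) (hn : 0 < n) : Perm ℤ where
  toFun := cycF n
  invFun := cycG n
  left_inv := by
    intro x
    have hi0 := Int.emod_nonneg x hn.ne'
    have hi1 := Int.emod_lt_of_pos x hn
    have hx := dec x n
    generalize x % n = i at *
    generalize x / n = j at *
    by_cases h : i < n - 1
    · rw [hx, cycF_lt hi0 h, cycG, emod_add_mul j (by omega) (by omega), if_neg (by omega)]
      ring
    · have : i = n - 1 := by omega
      subst this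
      rw [hx, cycF_last hn, cycG, emod_add_mul j le_rfl hn, if_pos rfl]
      ring
  right_inv := by
    intro x
    have hi0 := Int.emod_nonneg x hn.ne'
    have hi1 := Int.emod_lt_of_pos x hn
    have hx := dec x n
    generalize x % n = i at *
    generalize x / n = j at *
    by_cases h : i = 0
    · subst h
      have e : 0 + n * j + (n - 1) = n - 1 + n * j := by ring
      rw [hx, cycG, emod_add_mul j le_rfl hn, if_pos rfl, e, cycF_last hn]
    · have e : i + n * j - 1 = (i - 1) + n * j := by ring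
      rw [hx, cycG, emod_add_mul j hi0 hi1, if_neg h, e, cycF_lt (by omega) (by omega)]
      ring

theorem cyc_apply (n : ℤ) (hn : 0 < n) (x : ℤ) : cyc n hn x = cycF n x := rfl

theorem cyc_mem (n : ℤ) (hn : 0 < n) : cyc n hn ∈ HH := by
  refine ⟨n, hn, fun i hi0 hi1 => ?_⟩
  by_cases h : i < n - 1
  · exact ⟨i + 1, n, by omega, by omega, fun j => cycF_lt hi0 h j⟩
  · have : i = n - 1 := by omega
    subst this
    exact ⟨0, n, le_rfl, hn, fun j => cycF_last hn j⟩

/-- Every periodic set is `Sup f` for some `f ∈ HH`. -/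
theorem exists_sup {C : Set ℤ} (hC : Per C) : ∃ f : HH, Sup (f : Perm ℤ) = C := by
  classical
  obtain ⟨M, hM, hC⟩ := hC
  let F : ℤ → ℤ := fun x => if x ∈ C then (if x % (2 * M) < M then x + M else x - M) else x
  have hF1 : ∀ i j : ℤ, 0 ≤ i → i < M → i ∈ C → F (i + 2 * M * j) = i + M + 2 * M * j := by
    intro i j hi0 hi1 hi
    have e1 : i + 2 * M * j ∈ C := by
      have := (hC i (2 * j)).2 hi
      have e : i + M * (2 * j) = i + 2 * M * j := by ring
      rwa [e] at this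
    simp only [F]
    rw [if_pos e1, emod_add_mul j hi0 (by omega), if_pos hi1]
    ring
  have hF2 : ∀ i j : ℤ, 0 ≤ i → i < M → i ∈ C → F (i + M + 2 * M * j) = i + 2 * M * j := by
    intro i j hi0 hi1 hi
    have e1 : i + M + 2 * M * j ∈ C := by
      have := (hC i (1 + 2 * j)).2 hi
      have e : i + M * (1 + 2 * j) = i + M + 2 * M * j := by ring
      rwa [e] at this
    simp only [F]
    rw [if_pos e1, emod_add_mul j (by omega) (by omega), if_neg (by omega)]
    ring
  have hFn : ∀ x, x ∉ C → F x = x := by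
    intro x hx
    simp only [F]
    rw [if_neg hx]
  have hcase : ∀ x, x ∈ C → ∃ i j : ℤ, 0 ≤ i ∧ i < M ∧ i ∈ C ∧
      (x = i + 2 * M * j ∨ x = i + M + 2 * M * j) := by
    intro x hx
    have hx2 := dec x (2 * M)
    have h0 := Int.emod_nonneg x (show 2 * M ≠ 0 by omega)
    have h1 := Int.emod_lt_of_pos x (show 0 < 2 * M by omega)
    by_cases h : x % (2 * M) < M
    · refine ⟨x % (2 * M), x / (2 * M), h0, h, ?_, Or.inl hx2⟩
      rw [hx2] at hx
      have e : x % (2 * M) + 2 * M * (x / (2 * M)) =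
        x % (2 * M) + M * (2 * (x / (2 * M))) := by ring
      rw [e, hC] at hx
      exact hx
    · refine ⟨x % (2 * M) - M, x / (2 * M), by omega, by omega, ?_, Or.inr (by linarith)⟩
      rw [hx2] at hx
      have e : x % (2 * M) + 2 * M * (x / (2 * M)) =
        (x % (2 * M) - M) + M * (1 + 2 * (x / (2 * M))) := by ring
      rw [e, hC] at hx
      exact hx
  have hinv : Function.Involutive F := by
    intro x
    by_cases hx : x ∈ C
    · obtain ⟨i, j, hi0, hi1, hi, rfl | rfl⟩ := hcase x hx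
      · rw [hF1 i j hi0 hi1 hi, hF2 i j hi0 hi1 hi]
      · rw [hF2 i j hi0 hi1 hi, hF1 i j hi0 hi1 hi]
    · rw [hFn x hx, hFn x hx]
  let f : Perm ℤ := hinv.toPerm
  have hf : ∀ x, f x = F x := fun _ => rfl
  have hCW : IsCW f (2 * M) := by
    refine ⟨by omega, fun i hi0 hi1 => ?_⟩
    by_cases hi : i ∈ C
    · by_cases h : i < M
      · exact ⟨i + M, 2 * M, by omega, by omega, fun j => by rw [hf, hF1 i j hi0 h hi]⟩
      · have hi' : i - M ∈ C := by
          have := hC (i - M) 1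
          have e : i - M + M * 1 = i := by ring
          rw [e] at this
          exact this.1 hi
        refine ⟨i - M, 2 * M, by omega, by omega, fun j => ?_⟩
        have := hF2 (i - M) j (by omega) (by omega) hi'
        rw [hf, ← this]
        congr 1
        ring
    · refine ⟨i, 2 * M, hi0, hi1, fun j => ?_⟩
      rw [hf, hFn]
      intro h
      have e : i + 2 * M * j = i + M * (2 * j) := by ring
      rw [e, hC] at h
      exact hi h
  refine ⟨⟨f, 2 * M, hCW⟩, ?_⟩
  ext x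
  constructor
  · intro hx
    by_contra hxC
    obtain ⟨j, hj⟩ := hx M hM
    apply hj
    change f (x + M * j) = x + M * j
    rw [hf, hFn]
    rwa [hC]
  · intro hx
    apply supp_sub
    change f x ≠ x
    rw [hf]
    obtain ⟨i, j, hi0, hi1, hi, rfl | rfl⟩ := hcase x hx
    · rw [hF1 i j hi0 hi1 hi]
      omega
    · rw [hF2 i j hi0 hi1 hi]
      omega

/-- Commutator. -/
def cm (a b : HH) : HH := a * b * a⁻¹ * b⁻¹

theorem cm_eq_one {a b : HH} : cm a b = 1 ↔ Commute a b := by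
  rw [cm, mul_inv_eq_one, mul_inv_eq_iff_eq_mul]
  exact Iff.rfl

/-- Algebraic disjointness. -/
def AD (f g : HH) : Prop := ∀ h : HH, cm f h ≠ 1 →
  ∃ f₁ f₂ : HH, Commute f₁ g ∧ Commute f₂ g ∧ cm f₁ (cm f₂ h) ≠ 1 ∧ Commute (cm f₁ (cm f₂ h)) g

theorem commute_of_disj {f g : HH} (h : ∀ x, (f : Perm ℤ) x = x ∨ (g : Perm ℤ) x = x) :
    Commute f g := by
  have h1 : Perm.Disjoint (f : Perm ℤ) (g : Perm ℤ) := h
  have h2 := h1.commute
  exact Subtype.ext h2

/-- Elements supported in a given class. -/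
theorem exists_rist (x : ℤ) {M : ℤ} (hM : 0 < M) : ∃ s t : HH,
    (∀ y, y ∉ cls x M → (s : Perm ℤ) y = y) ∧ (∀ y, y ∉ cls x M → (t : Perm ℤ) y = y) ∧
    cm s t ≠ 1 ∧ s ^ 12 ≠ 1 := by
  have hr0 : 0 ≤ x % M := Int.emod_nonneg _ hM.ne'
  have hr1 : x % M < M := Int.emod_lt_of_pos _ hM
  have hcls : ∀ y, y ∉ cls x M → y % M ≠ x % M := by
    intro y hy h
    apply hy
    rw [mem_cls_iff]
    exact Int.ModEq.dvd (show x ≡ y [ZMOD M] from h.symm)
  let s : HH := ⟨emb (x % M) M hr0 hr1 (cyc 5 (by norm_num)), emb_mem hr0 hr1 (cyc_mem _ _)⟩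
  let t : HH := ⟨emb (x % M) M hr0 hr1 (cyc 2 (by norm_num)), emb_mem hr0 hr1 (cyc_mem _ _)⟩
  have hs : ∀ j, (s : Perm ℤ) (x % M + M * j) = x % M + M * cycF 5 j :=
    fun j => emb_add hr0 hr1 _ j
  have ht : ∀ j, (t : Perm ℤ) (x % M + M * j) = x % M + M * cycF 2 j :=
    fun j => emb_add hr0 hr1 _ j
  refine ⟨s, t, fun y hy => emb_ne hr0 hr1 _ (hcls y hy), fun y hy => emb_ne hr0 hr1 _ (hcls y hy),
    ?_, ?_⟩
  · intro h
    have h1 : s * t = t * s := cm_eq_one.1 h
    have h2 : (s : Perm ℤ) ((t : Perm ℤ) (x % M + M * 0)) =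
        (t : Perm ℤ) ((s : Perm ℤ) (x % M + M * 0)) := by
      have := congrArg (fun u : HH => (u : Perm ℤ) (x % M + M * 0)) h1
      exact this
    rw [ht, hs, hs, ht] at h2
    have h3 : cycF 5 (cycF 2 0) = 2 := by decide
    have h4 : cycF 2 (cycF 5 0) = 0 := by decide
    rw [h3, h4] at h2
    omega
  · intro h
    have h2 : ∀ k : ℕ, ((s ^ k : HH) : Perm ℤ) (x % M + M * 0) = x % M + M * (cycF 5)^[k] 0 := by
      intro k
      induction k with
      | zero => rfl
      | succ k ih =>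
        rw [pow_succ', Function.iterate_succ_apply']
        change (s : Perm ℤ) (((s ^ k : HH) : Perm ℤ) _) = _
        rw [ih, hs]
    have h3 := h2 12
    rw [h] at h3
    have h4 : (cycF 5)^[12] 0 = 2 := by decide
    rw [h4] at h3
    change x % M + M * 0 = _ at h3
    omega

end Pool.Agent.Lib.Pa5f8b0
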