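import Mathlib
import Pool.Agent.Lib.Pa5f8b0.Rubin1

set_option autoImplicit false

namespace Pool.Agent.Lib.Pa5f8b0

open Equiv

theorem coe_mul_apply (a b : HH) (x : ℤ) : ((a * b : HH) : Perm ℤ) x = (a : Perm ℤ) ((b : Perm ℤ) x) :=
  rfl

theorem coe_inv_apply (a : HH) (x : ℤ) : (a : Perm ℤ) (((a⁻¹ : HH) : Perm ℤ) x) = x :=
  self_inv _ _

theorem coe_inv_apply' (a : HH) (x : ℤ) : ((a⁻¹ : HH) : Perm ℤ) ((a : Perm ℤ) x) = x :=
  inv_self _ _

theorem inv_fix {a : HH} {x : ℤ} (h : (a : Perm ℤ) x = x) : ((a⁻¹ : HH) : Perm ℤ) x = x := by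
  conv_lhs => rw [← h]
  exact coe_inv_apply' a x

theorem ne_one_iff {a : HH} (h : a ≠ 1) : ∃ x, (a : Perm ℤ) x ≠ x := by
  by_contra hcon
  push Not at hcon
  apply h
  apply Subtype.ext
  ext x
  exact hcon x

theorem ad_of_disjoint {f g : HH} (hd : ∀ x, x ∈ Sup (f : Perm ℤ) → x ∉ Sup (g : Perm ℤ)) :
    AD f g := by
  intro h hfh
  -- `h` moves a point of `Sup f`
  obtain ⟨x, hxf, hhx⟩ : ∃ x ∈ Sup (f : Perm ℤ), (h : Perm ℤ) x ≠ x := by
    by_contra hcon
    push Not at hcon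
    apply hfh
    rw [cm_eq_one]
    apply commute_of_disj
    intro x
    by_cases hx : x ∈ Sup (f : Perm ℤ)
    · exact Or.inr (hcon x hx)
    · exact Or.inl (fix_of_not_sup hx)
  obtain ⟨M₀, hM₀, hsep⟩ := exists_sep h.2 hhx
  obtain ⟨K, hK⟩ := f.2
  have hM : 0 < M₀ * K := mul_pos hM₀ hK.1
  have hsep' := hsep.mul K
  have hUf : ∀ y ∈ cls x (M₀ * K), y ∈ Sup (f : Perm ℤ) := by
    rintro y ⟨j, rfl⟩
    have e : x + M₀ * K * j = x + K * (M₀ * j) := by ring
    rw [e, sup_per' hK]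
    exact hxf
  obtain ⟨s, t, hs, ht, hst, -⟩ := exists_rist x hM
  generalize M₀ * K = M at *
  have hg : ∀ y ∈ cls x M, (g : Perm ℤ) y = y := fun y hy => fix_of_not_sup (hd y (hUf y hy))
  have hsg : Commute s g := by
    apply commute_of_disj
    intro y
    by_cases hy : y ∈ cls x M
    · exact Or.inr (hg y hy)
    · exact Or.inl (hs y hy)
  have htg : Commute t g := by
    apply commute_of_disj
    intro y
    by_cases hy : y ∈ cls x M
    · exact Or.inr (hg y hy)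
    · exact Or.inl (ht y hy)
  -- `s` commutes with `h t⁻¹ h⁻¹`
  have hq : Commute s (h * t⁻¹ * h⁻¹) := by
    apply commute_of_disj
    intro y
    by_cases hy : y ∈ cls x M
    · right
      rw [coe_mul_apply, coe_mul_apply]
      have : ((h⁻¹ : HH) : Perm ℤ) y ∉ cls x M := by
        intro h2
        exact hsep' _ h2 (by rw [coe_inv_apply]; exact hy)
      rw [inv_fix (ht _ this), coe_inv_apply]
    · exact Or.inl (hs y hy)
  have hk : cm s (cm t h) = cm s t := by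
    have e : cm t h = t * (h * t⁻¹ * h⁻¹) := by
      simp only [cm]
      group
    rw [e]
    generalize h * t⁻¹ * h⁻¹ = q at hq
    have e2 : s * q * s⁻¹ = q := by
      rw [hq.eq]
      group
    calc cm s (t * q) = s * t * (q * s⁻¹ * q⁻¹) * t⁻¹ := by
          simp only [cm]
          group
      _ = s * t * s⁻¹ * t⁻¹ := by
          have : q * s⁻¹ * q⁻¹ = s⁻¹ := by
            have h1 : q * s⁻¹ = s⁻¹ * q := by
              have := hq.inv_left.eq
              exact this.symm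
            rw [h1]
            group
          rw [this]
      _ = cm s t := rfl
  refine ⟨s, t, hsg, htg, ?_, ?_⟩
  · rw [hk]
    exact hst
  · rw [hk, cm]
    exact ((hsg.mul_left htg).mul_left hsg.inv_left).mul_left htg.inv_left

theorem pow_fix {g : HH} {x : ℤ} {i : ℕ} (h : ((g ^ i : HH) : Perm ℤ) x = x) (k : ℕ) :
    ((g ^ (i * k) : HH) : Perm ℤ) x = x := by
  induction k with
  | zero => rfl
  | succ k ih =>
    rw [mul_add, pow_add, coe_mul_apply, mul_one, h, ih]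

theorem ad_disjoint {f g : HH} (hAD : AD f g) (x : ℤ) :
    (f : Perm ℤ) x = x ∨ ((g ^ 12 : HH) : Perm ℤ) x = x := by
  by_contra hcon
  push Not at hcon
  obtain ⟨hfx, hgx⟩ := hcon
  have hgi : ∀ i : ℕ, 1 ≤ i → i ≤ 4 → ((g ^ i : HH) : Perm ℤ) x ≠ x := by
    intro i hi1 hi4 h
    have h12 : ∃ k, 12 = i * k := by
      interval_cases i
      · exact ⟨12, rfl⟩
      · exact ⟨6, rfl⟩
      · exact ⟨4, rfl⟩
      · exact ⟨3, rfl⟩
    obtain ⟨k, hk⟩ := h12
    apply hgx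
    rw [hk]
    exact pow_fix h k
  obtain ⟨M₀, hM₀, hs₀⟩ := exists_sep f.2 hfx
  obtain ⟨M₁, hM₁, hs₁⟩ := exists_sep (g ^ 1 : HH).2 (hgi 1 (by norm_num) (by norm_num))
  obtain ⟨M₂, hM₂, hs₂⟩ := exists_sep (g ^ 2 : HH).2 (hgi 2 (by norm_num) (by norm_num))
  obtain ⟨M₃, hM₃, hs₃⟩ := exists_sep (g ^ 3 : HH).2 (hgi 3 (by norm_num) (by norm_num))
  obtain ⟨M₄, hM₄, hs₄⟩ := exists_sep (g ^ 4 : HH).2 (hgi 4 (by norm_num) (by norm_num))
  obtain ⟨M, hM, hsf, hsg⟩ : ∃ M : ℤ, 0 < M ∧ Sep (f : Perm ℤ) x M ∧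
      ∀ i : ℕ, 1 ≤ i → i ≤ 4 → Sep ((g ^ i : HH) : Perm ℤ) x M := by
    refine ⟨M₀ * M₁ * M₂ * M₃ * M₄, by positivity, ?_, ?_⟩
    · have := hs₀.mul (M₁ * M₂ * M₃ * M₄)
      have e : M₀ * (M₁ * M₂ * M₃ * M₄) = M₀ * M₁ * M₂ * M₃ * M₄ := by ring
      rwa [e] at this
    · intro i hi1 hi4
      interval_cases i
      · have := hs₁.mul (M₀ * M₂ * M₃ * M₄)
        have e : M₁ * (M₀ * M₂ * M₃ * M₄) = M₀ * M₁ * M₂ * M₃ * M₄ := by ring
        rwa [e] at this
      · have := hs₂.mul (M₀ * M₁ * M₃ * M₄)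
        have e : M₂ * (M₀ * M₁ * M₃ * M₄) = M₀ * M₁ * M₂ * M₃ * M₄ := by ring
        rwa [e] at this
      · have := hs₃.mul (M₀ * M₁ * M₂ * M₄)
        have e : M₃ * (M₀ * M₁ * M₂ * M₄) = M₀ * M₁ * M₂ * M₃ * M₄ := by ring
        rwa [e] at this
      · have := hs₄.mul (M₀ * M₁ * M₂ * M₃)
        have e : M₄ * (M₀ * M₁ * M₂ * M₃) = M₀ * M₁ * M₂ * M₃ * M₄ := by ring
        rwa [e] at this
  obtain ⟨h, -, hh, -, -, hh12⟩ := exists_rist x hM
  have hh1 : h ≠ 1 := by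
    intro h1
    apply hh12
    rw [h1, one_pow]
  obtain ⟨x₀, hx₀⟩ := ne_one_iff hh1
  have hx₀U : x₀ ∈ cls x M := by
    by_contra hn
    exact hx₀ (hh x₀ hn)
  have hfh : cm f h ≠ 1 := by
    intro h1
    have h2 := (cm_eq_one.1 h1).eq
    have h3 := congrArg (fun u : HH => (u : Perm ℤ) x₀) h2
    simp only [coe_mul_apply] at h3
    rw [hh _ (hsf x₀ hx₀U)] at h3
    exact hx₀ ((f : Perm ℤ).injective h3)
  obtain ⟨f₁, f₂, hc₁, hc₂, hk1, hkc⟩ := hAD h hfh
  set k := cm f₁ (cm f₂ h) with hkdef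
  -- support of `k`
  let W : Fin 4 → HH := ![1, f₁, f₂, f₁ * f₂]
  have hWc : ∀ i, Commute (W i) g := by
    intro i
    fin_cases i
    · exact Commute.one_left g
    · exact hc₁
    · exact hc₂
    · exact hc₁.mul_left hc₂
  have hsupp : ∀ y, (k : Perm ℤ) y ≠ y → ∃ i, (((W i)⁻¹ : HH) : Perm ℤ) y ∈ cls x M := by
    intro y hy
    by_contra hn
    push Not at hn
    apply hy
    have n0 : y ∉ cls x M := by
      have := hn 0
      simpa [W] using this
    have n1 : ((f₁⁻¹ : HH) : Perm ℤ) y ∉ cls x M := hn 1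
    have n2 : ((f₂⁻¹ : HH) : Perm ℤ) y ∉ cls x M := hn 2
    have n3 : ((f₂⁻¹ : HH) : Perm ℤ) (((f₁⁻¹ : HH) : Perm ℤ) y) ∉ cls x M := by
      have h3 := hn 3
      have e : (W 3)⁻¹ = f₂⁻¹ * f₁⁻¹ := by
        change (f₁ * f₂)⁻¹ = _
        group
      rw [e] at h3
      exact h3
    have e : k = f₁ * (f₂ * (h * (f₂⁻¹ * (h⁻¹ * (f₁⁻¹ * (h * (f₂ * (h⁻¹ * f₂⁻¹)))))))) := by
      rw [hkdef]
      simp only [cm]
      group
    rw [e]
    simp only [coe_mul_apply]
    rw [inv_fix (hh _ n2), coe_inv_apply, hh _ n0, inv_fix (hh _ n1), hh _ n3, coe_inv_apply,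
      coe_inv_apply]
  obtain ⟨y, hy⟩ := ne_one_iff hk1
  have hyi : ∀ i : ℕ, (k : Perm ℤ) (((g ^ i : HH) : Perm ℤ) y) ≠ ((g ^ i : HH) : Perm ℤ) y := by
    intro i h1
    apply hy
    have h2 := (hkc.pow_right i).eq
    have h3 := congrArg (fun u : HH => (u : Perm ℤ) y) h2
    simp only [coe_mul_apply] at h3
    rw [h1] at h3
    exact ((g ^ i : HH) : Perm ℤ).injective h3.symm
  choose w hw using fun i : Fin 5 => hsupp _ (hyi i)
  obtain ⟨i, j, hij, hwij⟩ := Fintype.exists_ne_map_eq_of_card_lt w (by simp)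
  wlog hlt : i < j generalizing i j
  · exact this j i hij.symm hwij.symm (lt_of_le_of_ne (not_lt.1 hlt) hij.symm)
  have hi := hw i
  have hj := hw j
  rw [← hwij] at hj
  have hcomm : ∀ n : ℕ, (((W (w i))⁻¹ : HH) : Perm ℤ) (((g ^ n : HH) : Perm ℤ) y) =
      ((g ^ n : HH) : Perm ℤ) ((((W (w i))⁻¹ : HH) : Perm ℤ) y) := by
    intro n
    have h2 := ((hWc (w i)).inv_left.pow_right n).eq
    exact congrArg (fun u : HH => (u : Perm ℤ) y) h2
  rw [hcomm] at hi hj
  have hd1 : 1 ≤ (j : ℕ) - i := by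
    have : (i : ℕ) < j := hlt
    omega
  have hd4 : (j : ℕ) - i ≤ 4 := by
    have := j.isLt
    omega
  apply hsg ((j : ℕ) - i) hd1 hd4 _ hi
  rw [← coe_mul_apply, ← pow_add]
  have e : (j : ℕ) - i + i = j := by
    have : (i : ℕ) < j := hlt
    omega
  rw [e]
  exact hj

/-- The group-theoretic relation detecting inclusion of supports. -/
def InS (k f : HH) : Prop := ∀ g : HH, AD f g → Commute k (g ^ 12)

theorem inS_iff {k f : HH} : InS k f ↔ Sup (k : Perm ℤ) ⊆ Sup (f : Perm ℤ) := by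
  constructor
  · intro hS x hxk
    by_contra hxf
    obtain ⟨K, hK⟩ := f.2
    obtain ⟨L, hL⟩ := k.2
    obtain ⟨a, ha⟩ := sup_dense hL hxk
    -- choose a moved point in the class `x (mod K L)`
    obtain ⟨j, hj⟩ : ∃ j : ℤ, K * j ≠ a := by
      by_cases h : K * 0 = a
      · refine ⟨1, fun h1 => ?_⟩
        have := hK.1
        omega
      · exact ⟨0, h⟩
    have hky := ha _ hj
    set y := x + L * (K * j) with hy
    have hyf : y ∉ Sup (f : Perm ℤ) := by
      have e : y = x + K * (L * j) := by rw [hy]; ring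
      rw [e, sup_per' hK]
      exact hxf
    obtain ⟨M₀, hM₀, hsep⟩ := exists_sep k.2 hky
    have hM : 0 < M₀ * K := mul_pos hM₀ hK.1
    have hsep' := hsep.mul K
    have hUf : ∀ z ∈ cls y (M₀ * K), z ∉ Sup (f : Perm ℤ) := by
      rintro z ⟨j, rfl⟩
      have e : y + M₀ * K * j = y + K * (M₀ * j) := by ring
      rw [e, sup_per' hK]
      exact hyf
    have hper : ∀ z j : ℤ, z + (M₀ * K) * j ∈ cls y (M₀ * K) → z ∈ cls y (M₀ * K) := by
      rintro z j ⟨i, hi⟩
      exact ⟨i - j, by linear_combination hi⟩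
    generalize M₀ * K = M at *
    obtain ⟨g, -, hg, -, -, hg12⟩ := exists_rist y hM
    have hAD : AD f g := by
      apply ad_of_disjoint
      intro z hz hzg
      have hzU : z ∉ cls y M := fun h => hUf z h hz
      obtain ⟨j, hj⟩ := hzg M hM
      apply hj
      exact hg _ (fun h => hzU (hper _ _ h))
    have hcomm := hS g hAD
    obtain ⟨z, hz⟩ := ne_one_iff hg12
    have hg12' : ∀ u, u ∉ cls y M → ((g ^ 12 : HH) : Perm ℤ) u = u := by
      intro u hu
      have h1 : ((g ^ 1 : HH) : Perm ℤ) u = u := by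
        rw [pow_one]
        exact hg u hu
      have := pow_fix h1 12
      rwa [one_mul] at this
    have hzU : z ∈ cls y M := by
      by_contra h
      exact hz (hg12' z h)
    have h3 := congrArg (fun u : HH => (u : Perm ℤ) z) hcomm.eq
    simp only [coe_mul_apply] at h3
    rw [hg12' _ (hsep' z hzU)] at h3
    exact hz ((k : Perm ℤ).injective h3)
  · intro hsub g hAD
    have h1 := ad_disjoint hAD
    apply commute_of_disj
    intro x
    by_cases hx : x ∈ Sup (k : Perm ℤ)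
    · right
      have hxf := hsub hx
      obtain ⟨K, hK⟩ := f.2
      obtain ⟨L, hL⟩ := (g ^ 12 : HH).2
      obtain ⟨a, ha⟩ := sup_dense hK hxf
      have h2 : ∀ j : ℤ, L * j ≠ a →
          ((g ^ 12 : HH) : Perm ℤ) (x + L * (K * j)) = x + L * (K * j) := by
        intro j hj
        rcases h1 (x + L * (K * j)) with h | h
        · exfalso
          apply ha _ hj
          have e : x + K * (L * j) = x + L * (K * j) := by ring
          rw [e]
          exact h
        · exact h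
      obtain ⟨N, hN⟩ := hL.loc x
      have hL0 := hL.1
      have hK0 := hK.1
      -- two good indices
      obtain ⟨j₁, j₂, hne, hj₁, hj₂⟩ : ∃ j₁ j₂ : ℤ, j₁ ≠ j₂ ∧ L * j₁ ≠ a ∧ L * j₂ ≠ a := by
        refine ⟨|a| + 1, |a| + 2, by omega, ?_, ?_⟩
        · intro h
          have : a ≤ |a| := le_abs_self a
          nlinarith [abs_nonneg a]
        · intro h
          have : a ≤ |a| := le_abs_self a
          nlinarith [abs_nonneg a]
      have h3 := hN.fix (a := K * j₁) (b := K * j₂)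
        (fun h => hne (mul_left_cancel₀ hK0.ne' h)) (h2 j₁ hj₁) (h2 j₂ hj₂) 0
      simpa using h3
    · exact Or.inl (fix_of_not_sup hx)

theorem cm_map (φ : HH ≃* HH) (a b : HH) : φ (cm a b) = cm (φ a) (φ b) := by
  simp only [cm, map_mul, map_inv]

theorem ad_map (φ : HH ≃* HH) {f g : HH} (h : AD f g) : AD (φ f) (φ g) := by
  intro u hu
  have e : u = φ (φ.symm u) := (φ.apply_symm_apply u).symm
  have hu' : cm f (φ.symm u) ≠ 1 := by
    intro h1
    apply hu
    rw [e, ← cm_map, h1, map_one]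
  obtain ⟨f₁, f₂, h1, h2, h3, h4⟩ := h _ hu'
  refine ⟨φ f₁, φ f₂, h1.map φ, h2.map φ, ?_, ?_⟩
  · rw [e, ← cm_map, ← cm_map]
    intro h5
    apply h3
    exact φ.injective (by rw [h5, map_one])
  · rw [e, ← cm_map, ← cm_map]
    exact h4.map φ

theorem inS_map (φ : HH ≃* HH) {k f : HH} (h : InS k f) : InS (φ k) (φ f) := by
  intro u hu
  have e : u = φ (φ.symm u) := (φ.apply_symm_apply u).symm
  have h1 : AD f (φ.symm u) := by
    have := ad_map φ.symm hu
    rwa [φ.symm_apply_apply] at this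
  have h2 := (h _ h1).map φ
  rw [map_pow, φ.apply_symm_apply] at h2
  exact h2

theorem sup_mono (φ : HH ≃* HH) {k f : HH} (h : Sup (k : Perm ℤ) ⊆ Sup (f : Perm ℤ)) :
    Sup ((φ k : HH) : Perm ℤ) ⊆ Sup ((φ f : HH) : Perm ℤ) :=
  inS_iff.1 (inS_map φ (inS_iff.2 h))

end Pool.Agent.Lib.Pa5f8b0
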