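import Mathlib
import Pool.Agent.Lib.Pa5f8b0.Rubin2
import Pool.Agent.Lib.Pa5f8b0.LemX

set_option autoImplicit false

namespace Pool.Agent.Lib.Pa5f8b0

open Equiv

/-- A modulus of `g`. -/
noncomputable def Kof (g : HH) : ℤ := Classical.choose g.2

theorem Kof_spec (g : HH) : IsCW (g : Perm ℤ) (Kof g) := Classical.choose_spec g.2

/-- Slope of `g` at `x`. -/
noncomputable def sl (g : HH) (x : ℤ) : ℚ :=
  (((g : Perm ℤ) (x + Kof g) - (g : Perm ℤ) x : ℤ) : ℚ) / (Kof g : ℚ)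

theorem sl_eq {g : HH} {x M N : ℤ} (h : Loc (g : Perm ℤ) x M N) : sl g x = (N : ℚ) / M := by
  obtain ⟨N', hN'⟩ := (Kof_spec g).loc x
  have h1 := hN'.2.2 1
  rw [mul_one, mul_one] at h1
  have h2 := hN'.unique h
  have hK : (Kof g : ℚ) ≠ 0 := by
    have := hN'.1
    exact_mod_cast this.ne'
  have hM : (M : ℚ) ≠ 0 := by
    have := h.1
    exact_mod_cast this.ne'
  rw [sl, h1, add_sub_cancel_left, div_eq_div_iff hK hM]
  exact_mod_cast h2

theorem exists_loc (g : HH) (x : ℤ) : ∃ M N : ℤ, Loc (g : Perm ℤ) x M N := by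
  obtain ⟨N', hN'⟩ := (Kof_spec g).loc x
  exact ⟨_, _, hN'⟩

theorem sl_pos (g : HH) (x : ℤ) : 0 < sl g x := by
  obtain ⟨M, N, h⟩ := exists_loc g x
  rw [sl_eq h]
  have hM : (0 : ℚ) < M := by
    have := h.1
    exact_mod_cast this
  have hN : (0 : ℚ) < N := by
    have := h.2.1
    exact_mod_cast this
  positivity

theorem sl_mul (g h : HH) (x : ℤ) : sl (g * h) x = sl g ((h : Perm ℤ) x) * sl h x := by
  obtain ⟨M, N, h1⟩ := exists_loc h x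
  obtain ⟨M', N', h2⟩ := exists_loc g ((h : Perm ℤ) x)
  have h3 : Loc ((g * h : HH) : Perm ℤ) x (M * M') (N * N') := h2.mul h1
  rw [sl_eq h1, sl_eq h2, sl_eq h3]
  have hM : (M : ℚ) ≠ 0 := by
    have := h1.1
    exact_mod_cast this.ne'
  have hM' : (M' : ℚ) ≠ 0 := by
    have := h2.1
    exact_mod_cast this.ne'
  push_cast
  field_simp

theorem sl_one (x : ℤ) : sl 1 x = 1 := by
  have : Loc ((1 : HH) : Perm ℤ) x 1 1 := ⟨one_pos, one_pos, fun j => rfl⟩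
  rw [sl_eq this]
  norm_num

theorem sl_inv (g : HH) (x : ℤ) : sl g⁻¹ ((g : Perm ℤ) x) * sl g x = 1 := by
  rw [← sl_mul, inv_mul_cancel, sl_one]

theorem loc_of_sl_one {g : HH} {x : ℤ} (h : sl g x = 1) : ∃ M, Loc (g : Perm ℤ) x M M := by
  obtain ⟨M, N, hl⟩ := exists_loc g x
  rw [sl_eq hl] at h
  have hM : (M : ℚ) ≠ 0 := by
    have := hl.1
    exact_mod_cast this.ne'
  rw [div_eq_one_iff_eq hM] at h
  have : N = M := by exact_mod_cast h
  subst this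
  exact ⟨_, hl⟩

theorem exists_map {r₁ m₁ r₂ m₂ r₃ m₃ : ℤ} (h1 : 0 ≤ r₁) (h1' : r₁ < m₁) (h2 : 0 ≤ r₂)
    (h2' : r₂ < m₂) (h3 : 0 ≤ r₃) (h3' : r₃ < m₃)
    (hd1 : ∀ j k : ℤ, r₁ + m₁ * j ≠ r₃ + m₃ * k)
    (hd2 : ∀ j k : ℤ, r₃ + m₃ * j ≠ r₂ + m₂ * k) :
    ∃ g : HH, ∀ j : ℤ, (g : Perm ℤ) (r₁ + m₁ * j) = r₂ + m₂ * j := by
  obtain ⟨τ₁, hτ₁, hs₁, -⟩ := exists_ct h1 h1' h3 h3' hd1
  obtain ⟨τ₂, hτ₂, hs₂, -⟩ := exists_ct h3 h3' h2 h2' hd2
  refine ⟨⟨τ₂, ctset_subset_HH hτ₂⟩ * ⟨τ₁, ctset_subset_HH hτ₁⟩, fun j => ?_⟩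
  rw [coe_mul_apply]
  change τ₂ (τ₁ _) = _
  rw [(hs₁ j).1, (hs₂ j).1]

theorem exists_u00 : ∃ g : HH, ∀ j : ℤ, (g : Perm ℤ) (0 + 2 * j) = 0 + 4 * j :=
  exists_map (r₃ := 1) (m₃ := 4) (by omega) (by omega) (by omega) (by omega) (by omega) (by omega)
    (by intro j k h; omega) (by intro j k h; omega)

theorem exists_u11 : ∃ g : HH, ∀ j : ℤ, (g : Perm ℤ) (1 + 2 * j) = 3 + 4 * j :=
  exists_map (r₃ := 0) (m₃ := 4) (by omega) (by omega) (by omega) (by omega) (by omega) (by omega)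
    (by intro j k h; omega) (by intro j k h; omega)

theorem exists_shift {x : ℤ} (hx : 0 ≤ x) : ∃ g : HH, (g : Perm ℤ) 0 = x ∧ sl g 0 = 1 := by
  rcases eq_or_lt_of_le hx with rfl | hlt
  · exact ⟨1, rfl, sl_one 0⟩
  · obtain ⟨τ, hτ, hs, -⟩ := exists_ct (r₁ := 0) (m₁ := x + 1) (r₂ := x) (m₂ := x + 1)
      le_rfl (by omega) hx (by omega) (by
        intro j k h
        have h5 := congrArg (· % (x + 1)) h
        simp only [emod_add_mul j le_rfl (show 0 < x + 1 by omega),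
          emod_add_mul k hx (show x < x + 1 by omega)] at h5
        omega)
    have h0 : τ 0 = x := by
      have := (hs 0).1
      simpa using this
    refine ⟨⟨τ, ctset_subset_HH hτ⟩, h0, ?_⟩
    have : Loc τ 0 (x + 1) (x + 1) := ⟨by omega, by omega, fun j => by rw [(hs j).1, h0]⟩
    rw [sl_eq (g := ⟨τ, ctset_subset_HH hτ⟩) this]
    apply div_self
    have : 0 < x + 1 := by omega
    exact_mod_cast this.ne'

theorem exists_shift_neg {x : ℤ} (hx : x < 0) : ∃ g : HH, (g : Perm ℤ) (-1) = x := by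
  by_cases h : x = -1
  · subst h
    exact ⟨1, rfl⟩
  · have h1 : 0 < -x := by omega
    -- classes of `-1` and `x` modulo `-x + 1`
    obtain ⟨τ, hτ, hs, -⟩ := exists_ct (r₁ := -x) (m₁ := -x + 1) (r₂ := 1) (m₂ := -x + 1)
      (by omega) (by omega) (by omega) (by omega) (by
        intro j k h
        have h5 := congrArg (· % (-x + 1)) h
        simp only [emod_add_mul j (show 0 ≤ -x by omega) (show -x < -x + 1 by omega),
          emod_add_mul k (show (0:ℤ) ≤ 1 by omega) (show 1 < -x + 1 by omega)] at h5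
        omega)
    refine ⟨⟨τ, ctset_subset_HH hτ⟩, ?_⟩
    have := (hs (-1)).1
    have e1 : -x + (-x + 1) * (-1) = -1 := by ring
    have e2 : 1 + (-x + 1) * (-1) = x := by ring
    rw [e1, e2] at this
    exact this

/-- The embedded copy in `HH`. -/
def embH (r L : ℤ) (hr0 : 0 ≤ r) (hr1 : r < L) (g : HH) : HH :=
  ⟨emb r L hr0 hr1 g, emb_mem hr0 hr1 g.2⟩

theorem embH_apply {r L : ℤ} (hr0 : 0 ≤ r) (hr1 : r < L) (g : HH) (j : ℤ) :
    (embH r L hr0 hr1 g : Perm ℤ) (r + L * j) = r + L * (g : Perm ℤ) j := emb_add hr0 hr1 _ j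

theorem sl_embH {r L : ℤ} (hr0 : 0 ≤ r) (hr1 : r < L) (g : HH) (y : ℤ) :
    sl (embH r L hr0 hr1 g) (r + L * y) = sl g y := by
  obtain ⟨M, N, h⟩ := exists_loc g y
  have hL : 0 < L := by omega
  have h2 : Loc (embH r L hr0 hr1 g : Perm ℤ) (r + L * y) (L * M) (L * N) := by
    refine ⟨mul_pos hL h.1, mul_pos hL h.2.1, fun j => ?_⟩
    have e : r + L * y + L * M * j = r + L * (y + M * j) := by ring
    rw [e, embH_apply, embH_apply, h.2.2]
    ring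
  rw [sl_eq h2, sl_eq h]
  have hL' : (L : ℚ) ≠ 0 := by exact_mod_cast hL.ne'
  have hM : (M : ℚ) ≠ 0 := by
    have := h.1
    exact_mod_cast this.ne'
  push_cast
  field_simp

/-- Data about the conjugating permutation. -/
structure Nrm (π : Perm ℤ) : Prop where
  conj : ∀ g ∈ HH, π * g * π⁻¹ ∈ HH
  per : ∀ C, Per C → Per (π '' C)
  per' : ∀ C, Per C → Per (π ⁻¹' C)
  nn : ∀ x, 0 ≤ π x ↔ 0 ≤ x

section

variable {π : Perm ℤ}

/-- The conjugate. -/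
def cj (hπ : Nrm π) (g : HH) : HH := ⟨π * g * π⁻¹, hπ.conj g g.2⟩

theorem cj_apply (hπ : Nrm π) (g : HH) (x : ℤ) : (cj hπ g : Perm ℤ) (π x) = π ((g : Perm ℤ) x) := by
  change π ((g : Perm ℤ) (π⁻¹ (π x))) = _
  rw [inv_self]

theorem cj_mul (hπ : Nrm π) (g h : HH) : cj hπ (g * h) = cj hπ g * cj hπ h := by
  apply Subtype.ext
  change π * ((g : Perm ℤ) * h) * π⁻¹ = π * g * π⁻¹ * (π * h * π⁻¹)
  group

/-- The cocycle. -/
noncomputable def cc (hπ : Nrm π) (g : HH) (x : ℤ) : ℚ := sl (cj hπ g) (π x)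

theorem cc_pos (hπ : Nrm π) (g : HH) (x : ℤ) : 0 < cc hπ g x := sl_pos _ _

theorem cc_mul (hπ : Nrm π) (g h : HH) (x : ℤ) :
    cc hπ (g * h) x = cc hπ g ((h : Perm ℤ) x) * cc hπ h x := by
  rw [cc, cj_mul, sl_mul, cj_apply]
  rfl

theorem cc_fix (hπ : Nrm π) {g : HH} {x : ℤ} (hx : (g : Perm ℤ) x = x) (hs : sl g x = 1) :
    cc hπ g x = 1 := by
  obtain ⟨M, hM⟩ := loc_of_sl_one hs
  obtain ⟨P, hP, hPC⟩ := hπ.per _ (per_cls x hM.1)
  have h1 : Loc (cj hπ g : Perm ℤ) (π x) P P := by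
    refine ⟨hP, hP, fun j => ?_⟩
    have h2 : π x + P * j ∈ π '' cls x M := by
      rw [hPC]
      exact ⟨x, self_mem_cls x M, rfl⟩
    obtain ⟨y, ⟨i, rfl⟩, hy⟩ := h2
    rw [← hy, cj_apply, cj_apply, hM.2.2, hx, hy]
  rw [cc, sl_eq h1]
  apply div_self
  exact_mod_cast hP.ne'

theorem cc_eq (hπ : Nrm π) {g h : HH} {x : ℤ} (hx : (g : Perm ℤ) x = (h : Perm ℤ) x)
    (hs : sl g x = sl h x) : cc hπ g x = cc hπ h x := by
  have h1 : ((h⁻¹ * g : HH) : Perm ℤ) x = x := by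
    rw [coe_mul_apply, hx, coe_inv_apply']
  have h2 : sl (h⁻¹ * g) x = 1 := by
    rw [sl_mul, hx, hs, sl_inv]
  have h3 := cc_fix hπ h1 h2
  have h4 := cc_mul hπ h (h⁻¹ * g) x
  rw [h1, h3, mul_one, mul_inv_cancel_left] at h4
  exact h4

theorem pi_mod (hπ : Nrm π) {K : ℤ} (hK : 0 < K) :
    ∃ M : ℤ, 0 < M ∧ ∀ x j : ℤ, K ∣ π (x + M * j) - π x := by
  have h := fun i : ℤ => hπ.per' _ (per_cls i hK)
  choose M hM hMC using h
  refine ⟨∏ i ∈ Finset.Ico 0 K, M i, Finset.prod_pos (fun i _ => hM i), fun x j => ?_⟩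
  have hi : π x % K ∈ Finset.Ico 0 K :=
    Finset.mem_Ico.2 ⟨Int.emod_nonneg _ hK.ne', Int.emod_lt_of_pos _ hK⟩
  obtain ⟨t, ht⟩ := Finset.dvd_prod_of_mem M hi
  have h1 : x ∈ π ⁻¹' cls (π x % K) K := ⟨π x / K, dec _ _⟩
  have h2 : x + M (π x % K) * (t * j) ∈ π ⁻¹' cls (π x % K) K := by
    rw [hMC]
    exact h1
  have e : x + (∏ i ∈ Finset.Ico 0 K, M i) * j = x + M (π x % K) * (t * j) := by
    rw [ht]
    ring
  rw [e]
  obtain ⟨a, ha⟩ := h1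
  obtain ⟨b, hb⟩ := h2
  exact ⟨b - a, by linear_combination hb - ha⟩

end

end Pool.Agent.Lib.Pa5f8b0
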