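import Mathlib
import Pool.Agent.Lib.Pa5f8b0.Rigid1

set_option autoImplicit false

namespace Pool.Agent.Lib.Pa5f8b0

open Equiv

section

variable {π : Perm ℤ}

theorem cc_per (hπ : Nrm π) (g : HH) : ∃ M : ℤ, 0 < M ∧ ∀ x j : ℤ,
    cc hπ g (x + M * j) = cc hπ g x ∧
    (π ((g : Perm ℤ) (x + M * j)) : ℚ) - cc hπ g x * (π (x + M * j) : ℚ) =
      (π ((g : Perm ℤ) x) : ℚ) - cc hπ g x * (π x : ℚ) := by
  have hK := Kof_spec (cj hπ g)
  obtain ⟨M, hM, hMd⟩ := pi_mod hπ hK.1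
  refine ⟨M, hM, fun x j => ?_⟩
  obtain ⟨i, hi⟩ := hMd x j
  obtain ⟨N, hN⟩ := hK.loc (π x)
  have e : π (x + M * j) = π x + Kof (cj hπ g) * i := by linarith
  have h1 : cc hπ g x = (N : ℚ) / (Kof (cj hπ g) : ℚ) := sl_eq hN
  have h2 : cc hπ g (x + M * j) = (N : ℚ) / (Kof (cj hπ g) : ℚ) := by
    rw [cc, e]
    exact sl_eq (hN.shift i)
  refine ⟨by rw [h1, h2], ?_⟩
  have h3 := hN.2.2 i
  rw [← e, cj_apply, cj_apply] at h3
  have hK0 : (Kof (cj hπ g) : ℚ) ≠ 0 := by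
    have := hK.1
    exact_mod_cast this.ne'
  rw [h1, h3, e]
  push_cast
  field_simp
  ring

/-- The local density. -/
noncomputable def bb (hπ : Nrm π) (x : ℤ) : ℚ :=
  if h : 0 ≤ x then cc hπ (Classical.choose (exists_shift h)) 0 else 1

theorem bb_pos (hπ : Nrm π) (x : ℤ) : 0 < bb hπ x := by
  rw [bb]
  split_ifs
  · exact cc_pos _ _ _
  · exact one_pos

/-- An element fixing 0 with slope 2. -/
noncomputable def h2 : HH := Classical.choose exists_u00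

theorem h2_spec' (j : ℤ) : (h2 : Perm ℤ) (0 + 2 * j) = 0 + 4 * j :=
  Classical.choose_spec exists_u00 j

theorem h2_spec (j : ℤ) : (h2 : Perm ℤ) (2 * j) = 4 * j := by
  have := h2_spec' j
  simp only [zero_add] at this
  exact this

theorem h2_zero : (h2 : Perm ℤ) 0 = 0 := by
  have := h2_spec 0
  simpa using this

theorem h2_loc {y : ℤ} (hy : 2 ∣ y) : Loc (h2 : Perm ℤ) y 2 4 := by
  obtain ⟨i, rfl⟩ := hy
  refine ⟨by norm_num, by norm_num, fun j => ?_⟩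
  rw [← mul_add, h2_spec, h2_spec]
  ring

theorem h2_sl {y : ℤ} (hy : 2 ∣ y) : sl h2 y = 2 := by
  rw [sl_eq (h2_loc hy)]
  norm_num

/-- An element mapping odd `y` to `2 y + 1`. -/
noncomputable def h3 : HH := Classical.choose exists_u11

theorem h3_spec (j : ℤ) : (h3 : Perm ℤ) (1 + 2 * j) = 3 + 4 * j := Classical.choose_spec exists_u11 j

theorem h3_loc (i : ℤ) : Loc (h3 : Perm ℤ) (1 + 2 * i) 2 4 := by
  refine ⟨by norm_num, by norm_num, fun j => ?_⟩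
  rw [add_assoc, ← mul_add, h3_spec, h3_spec]
  ring

theorem h3_sl (i : ℤ) : sl h3 (1 + 2 * i) = 2 := by
  rw [sl_eq (h3_loc i)]
  norm_num

/-- The blockwise cycle in `HH`. -/
def cycH (m : ℤ) (hm : 0 < m) : HH := ⟨cyc m hm, cyc_mem m hm⟩

theorem cycH_apply {m : ℤ} (hm : 0 < m) {y : ℤ} (hy : ¬ m ∣ y) :
    (cycH m hm : Perm ℤ) (y - 1) = y ∧ sl (cycH m hm) (y - 1) = 1 := by
  have hi0 := Int.emod_nonneg y hm.ne'
  have hi1 := Int.emod_lt_of_pos y hm
  have hx := dec y m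
  have hne : y % m ≠ 0 := fun h => hy (Int.dvd_of_emod_eq_zero h)
  generalize y % m = i at *
  generalize y / m = v at *
  have key : ∀ j, (cycH m hm : Perm ℤ) ((i - 1) + m * j) = i + m * j := by
    intro j
    change cycF m _ = _
    rw [cycF_lt (by omega) (by omega)]
    ring
  have e : y - 1 = (i - 1) + m * v := by rw [hx]; ring
  have h1 : (cycH m hm : Perm ℤ) (y - 1) = y := by rw [e, key, hx]
  refine ⟨h1, ?_⟩
  have : Loc (cycH m hm : Perm ℤ) (y - 1) m m := by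
    refine ⟨hm, hm, fun j => ?_⟩
    have e2 : y - 1 + m * j = (i - 1) + m * (v + j) := by rw [hx]; ring
    rw [e2, key, h1, hx]
    ring
  rw [sl_eq this]
  apply div_self
  exact_mod_cast hm.ne'

/-- The multiplier attached to slope 2. -/
noncomputable def s2 (hπ : Nrm π) : ℚ := cc hπ h2 0

theorem s2_pos (hπ : Nrm π) : 0 < s2 hπ := cc_pos _ _ _

theorem F1 (hπ : Nrm π) {g : HH} {x : ℤ} (hx : 0 ≤ x) (hs : sl g x = 1) :
    cc hπ g x * bb hπ x = bb hπ ((g : Perm ℤ) x) := by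
  have hgx : 0 ≤ (g : Perm ℤ) x := (HH_nonneg g.2 x).2 hx
  have h1 := Classical.choose_spec (exists_shift hx)
  have h2 := Classical.choose_spec (exists_shift hgx)
  rw [bb, bb, dif_pos hx, dif_pos hgx]
  set u := Classical.choose (exists_shift hx) with hu
  set w := Classical.choose (exists_shift hgx) with hw
  have h3 := cc_mul hπ g u 0
  rw [h1.1] at h3
  rw [← h3]
  apply cc_eq
  · rw [coe_mul_apply, h1.1, h2.1]
  · rw [sl_mul, h1.1, h1.2, h2.2, hs, mul_one]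

theorem F2 (hπ : Nrm π) {g : HH} {x : ℤ} (hx : 0 ≤ x) (hs : sl g x = 2) :
    cc hπ g x * bb hπ x = s2 hπ * bb hπ ((g : Perm ℤ) x) := by
  have hgx : 0 ≤ (g : Perm ℤ) x := (HH_nonneg g.2 x).2 hx
  have h1 := Classical.choose_spec (exists_shift hx)
  have h2' := Classical.choose_spec (exists_shift hgx)
  rw [bb, bb, dif_pos hx, dif_pos hgx]
  set u := Classical.choose (exists_shift hx) with hu
  set w := Classical.choose (exists_shift hgx) with hw
  have h3 := cc_mul hπ g u 0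
  rw [h1.1] at h3
  have h4 := cc_mul hπ w h2 0
  rw [h2_zero] at h4
  rw [← h3, s2, mul_comm (cc hπ h2 0), ← h4]
  apply cc_eq
  · rw [coe_mul_apply, coe_mul_apply, h1.1, h2_zero, h2'.1]
  · rw [sl_mul, sl_mul, h1.1, h1.2, h2_zero, h2'.2, hs, h2_sl (dvd_zero 2)]
    norm_num

theorem int_cast_pred {y : ℕ} (hy : 0 < y) : ((y - 1 : ℕ) : ℤ) = (y : ℤ) - 1 := by
  omega

/-- The cast relation for congruences. -/
theorem exists_of_modEq {y y' : ℕ} {M : ℤ} (hM : 0 < M) (h : y ≡ y' [MOD M.toNat]) :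
    ∃ j : ℤ, (y : ℤ) = y' + M * j := by
  have h1 : (M.toNat : ℤ) ∣ (y : ℤ) - y' := (Nat.modEq_iff_dvd.1 h.symm)
  rw [Int.toNat_of_nonneg hM.le] at h1
  obtain ⟨j, hj⟩ := h1
  exact ⟨j, by linarith⟩

theorem ratio_per (hπ : Nrm π) : ∃ L : ℕ, 0 < L ∧ ∀ y : ℕ, 0 < y →
    bb hπ ((y + L : ℕ) : ℤ) / bb hπ (((y + L : ℕ) : ℤ) - 1) = bb hπ (y : ℤ) / bb hπ ((y : ℤ) - 1) := by
  obtain ⟨M₁, hM₁, hM₁c⟩ := cc_per hπ h2
  obtain ⟨M₂, hM₂, hM₂c⟩ := cc_per hπ h3
  refine lemX (fun y : ℕ => bb hπ (y : ℤ) / bb hπ ((y : ℤ) - 1)) ?_ (2 * M₁ * M₂).toNat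
    (by
      have : 0 < 2 * M₁ * M₂ := by positivity
      omega) (cc hπ h2 0 / cc hπ h3 (-1)) 0 (div_pos (cc_pos _ _ _) (cc_pos _ _ _)) ?_
  · intro m hm
    have hm' : (0 : ℤ) < m := by exact_mod_cast hm
    obtain ⟨M, hM, hMc⟩ := cc_per hπ (cycH m hm')
    refine ⟨M.toNat, by omega, ?_⟩
    have key : ∀ y : ℕ, 0 < y → ¬ m ∣ y →
        bb hπ (y : ℤ) / bb hπ ((y : ℤ) - 1) = cc hπ (cycH m hm') ((y : ℤ) - 1) := by
      intro y hy hd
      have hd' : ¬ (m : ℤ) ∣ (y : ℤ) := by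
        rwa [Int.natCast_dvd_natCast]
      obtain ⟨e1, e2⟩ := cycH_apply hm' hd'
      have hb := F1 hπ (g := cycH m hm') (x := (y : ℤ) - 1) (by omega) e2
      rw [e1] at hb
      rw [← hb, mul_div_cancel_right₀ _ (bb_pos hπ _).ne']
    intro y y' hy hy' hd hd' hmod
    obtain ⟨j, hj⟩ := exists_of_modEq hM hmod
    rw [key y hy hd, key y' hy' hd', ← (hMc ((y' : ℤ) - 1) j).1, hj]
    congr 1
    ring
  · intro y hy hd
    have hd' : 2 * M₁ * M₂ ∣ (y : ℤ) := by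
      have h1 : ((2 * M₁ * M₂).toNat : ℤ) ∣ (y : ℤ) := Int.natCast_dvd_natCast.2 hd
      rwa [Int.toNat_of_nonneg (by positivity)] at h1
    obtain ⟨w, hw⟩ := hd'
    have hy1 : (1 : ℤ) ≤ y := by exact_mod_cast hy
    -- even part
    have a1 : (2 : ℤ) ∣ y := ⟨M₁ * M₂ * w, by rw [hw]; ring⟩
    have a2 : (h2 : Perm ℤ) y = 2 * y := by
      have := h2_spec (M₁ * M₂ * w)
      have e : 2 * (M₁ * M₂ * w) = (y : ℤ) := by rw [hw]; ring
      rw [e] at this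
      rw [this, ← e]
      ring
    have a3 := F2 hπ (g := h2) (x := y) (by omega) (h2_sl a1)
    rw [a2] at a3
    have a4 : cc hπ h2 y = cc hπ h2 0 := by
      have := (hM₁c 0 (2 * M₂ * w)).1
      rw [← this]
      congr 1
      rw [hw]
      ring
    -- odd part
    have b0 : (y : ℤ) - 1 = 1 + 2 * (M₁ * M₂ * w - 1) := by rw [hw]; ring
    have b2 : (h3 : Perm ℤ) ((y : ℤ) - 1) = 2 * y - 1 := by
      rw [b0, h3_spec, hw]
      ring
    have b3 := F2 hπ (g := h3) (x := (y : ℤ) - 1) (by omega) (by rw [b0]; exact h3_sl _)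
    rw [b2] at b3
    have b4 : cc hπ h3 ((y : ℤ) - 1) = cc hπ h3 (-1) := by
      have := (hM₂c (-1) (2 * M₁ * w)).1
      rw [← this]
      congr 1
      rw [hw]
      ring
    rw [a4] at a3
    rw [b4] at b3
    have p1 := (bb_pos hπ ((y : ℤ) - 1)).ne'
    have p2 := (bb_pos hπ (2 * (y : ℤ) - 1)).ne'
    have p3 := (cc_pos hπ h3 (-1)).ne'
    have p4 := (s2_pos hπ).ne'
    push_cast
    rw [add_zero, div_mul_div_comm, div_eq_div_iff p2 (mul_ne_zero p3 p1), b3, a3]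
    ring

theorem bb_per (hπ : Nrm π) : ∃ L : ℤ, 0 < L ∧ ∀ x : ℤ, 0 ≤ x → bb hπ (x + L) = bb hπ x := by
  obtain ⟨L, hL, hrat⟩ := ratio_per hπ
  -- constant ratio
  have h1 : ∀ x : ℕ, bb hπ ((x + L : ℕ) : ℤ) * bb hπ 0 = bb hπ (L : ℤ) * bb hπ (x : ℤ) := by
    intro x
    induction x with
    | zero => simp
    | succ x ih =>
      have h := hrat (x + 1) (by omega)
      have e1 : (((x + 1 + L : ℕ) : ℤ) - 1) = ((x + L : ℕ) : ℤ) := by push_cast; ring
      have e2 : (((x + 1 : ℕ) : ℤ) - 1) = (x : ℤ) := by push_cast; ring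
      rw [e1, e2, div_eq_div_iff (bb_pos _ _).ne' (bb_pos _ _).ne'] at h
      have p := (bb_pos hπ ((x : ℕ) : ℤ)).ne'
      have : (bb hπ ((x + 1 + L : ℕ) : ℤ) * bb hπ 0 - bb hπ (L : ℤ) * bb hπ ((x + 1 : ℕ) : ℤ)) *
          bb hπ (x : ℤ) = 0 := by
        linear_combination bb hπ 0 * h + bb hπ ((x + 1 : ℕ) : ℤ) * ih
      rcases mul_eq_zero.1 this with h' | h'
      · linarith
      · exact absurd h' p
  set ρ : ℚ := bb hπ (L : ℤ) / bb hπ 0 with hρ
  have p0 := bb_pos hπ 0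
  have hρpos : 0 < ρ := div_pos (bb_pos _ _) p0
  have h2' : ∀ x : ℕ, bb hπ ((x + L : ℕ) : ℤ) = ρ * bb hπ (x : ℤ) := by
    intro x
    have := h1 x
    rw [hρ, div_mul_eq_mul_div, eq_div_iff p0.ne']
    exact this
  have h3' : ∀ t : ℕ, bb hπ ((L * t : ℕ) : ℤ) = ρ ^ t * bb hπ 0 := by
    intro t
    induction t with
    | zero => simp
    | succ t ih =>
      have e : L * (t + 1) = L * t + L := by ring
      rw [e, h2', ih]
      ring
  have hρ1 : ρ = 1 := by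
    obtain ⟨M₁, hM₁, hM₁c⟩ := cc_per hπ h2
    -- `x = L * (2 * M₁)`
    set T : ℕ := (2 * M₁).toNat with hT
    have hTM : (T : ℤ) = 2 * M₁ := Int.toNat_of_nonneg (by omega)
    have a1 : (2 : ℤ) ∣ ((L * T : ℕ) : ℤ) := by
      push_cast
      rw [hTM]
      exact ⟨L * M₁, by ring⟩
    have a2 : (h2 : Perm ℤ) ((L * T : ℕ) : ℤ) = ((L * (2 * T) : ℕ) : ℤ) := by
      obtain ⟨w, hw⟩ := a1
      have e : ((L * (2 * T) : ℕ) : ℤ) = 4 * w := by
        push_cast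
        push_cast at hw
        linear_combination 2 * hw
      rw [e, hw, h2_spec]
    have a3 := F2 hπ (g := h2) (x := ((L * T : ℕ) : ℤ)) (by positivity) (h2_sl a1)
    rw [a2, h3', h3'] at a3
    have a4 : cc hπ h2 ((L * T : ℕ) : ℤ) = s2 hπ := by
      have := (hM₁c 0 (2 * L)).1
      rw [s2, ← this]
      congr 1
      push_cast
      rw [hTM]
      ring
    rw [a4] at a3
    have a5 : ρ ^ T * (s2 hπ * bb hπ 0) * 1 = ρ ^ T * (s2 hπ * bb hπ 0) * ρ ^ T := by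
      have e : ρ ^ (2 * T) = ρ ^ T * ρ ^ T := by rw [two_mul, pow_add]
      rw [e] at a3
      linear_combination a3
    have p : ρ ^ T * (s2 hπ * bb hπ 0) ≠ 0 := by
      have := s2_pos hπ
      positivity
    have a6 : 1 = ρ ^ T := mul_left_cancel₀ p a5
    have hT0 : T ≠ 0 := by omega
    exact (pow_eq_one_iff_of_nonneg hρpos.le hT0).1 a6.symm
  refine ⟨L, by exact_mod_cast hL, fun x hx => ?_⟩
  have h := h2' x.toNat
  rw [hρ1, one_mul] at h
  have e1 : ((x.toNat + L : ℕ) : ℤ) = x + L := by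
    push_cast
    rw [Int.toNat_of_nonneg hx]
  rw [e1, Int.toNat_of_nonneg hx] at h
  exact h

end

end Pool.Agent.Lib.Pa5f8b0
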