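import Mathlib
import Pool.Agent.Lib.Pa5f8b0.Rigid2

set_option autoImplicit false

namespace Pool.Agent.Lib.Pa5f8b0

open Equiv

section

variable {π : Perm ℤ}

theorem delta_per (hπ : Nrm π) {L : ℤ} (hbL : ∀ x : ℤ, 0 ≤ x → bb hπ (x + L) = bb hπ x)
    {r : ℤ} (hr0 : 0 ≤ r) (hr1 : r < L) :
    ∃ K : ℤ, 0 < K ∧ ∃ D : ℤ, ∀ y : ℤ, 0 ≤ y → π (r + L * (y + K)) = π (r + L * y) + D := by
  have hL : 0 < L := by omega
  have hb : ∀ y : ℕ, bb hπ (r + L * y) = bb hπ r := by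
    intro y
    induction y with
    | zero => simp
    | succ y ih =>
      have e : r + L * ((y + 1 : ℕ) : ℤ) = r + L * y + L := by push_cast; ring
      rw [e, hbL _ (by positivity), ih]
  have hb' : ∀ y : ℤ, 0 ≤ y → bb hπ (r + L * y) = bb hπ r := by
    intro y hy
    have := hb y.toNat
    rwa [Int.toNat_of_nonneg hy] at this
  obtain ⟨M₁, hM₁, hM₁c⟩ := cc_per hπ (embH r L hr0 hr1 h2)
  obtain ⟨M₂, hM₂, hM₂c⟩ := cc_per hπ (embH r L hr0 hr1 h3)
  have hmain := lemX (fun y : ℕ => (π (r + L * (y : ℤ)) : ℚ) - (π (r + L * ((y : ℤ) - 1)) : ℚ)) ?_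
    (2 * M₁ * M₂).toNat
    (by
      have : 0 < 2 * M₁ * M₂ := by positivity
      omega) (s2 hπ)
    ((π ((embH r L hr0 hr1 h2 : Perm ℤ) r) : ℚ) - s2 hπ * (π r : ℚ) -
      ((π ((embH r L hr0 hr1 h3 : Perm ℤ) (r + L * (-1))) : ℚ) - s2 hπ * (π (r + L * (-1)) : ℚ)))
    (s2_pos hπ) ?_
  · obtain ⟨K, hK, hKp⟩ := hmain
    refine ⟨K, by exact_mod_cast hK, π (r + L * K) - π r, ?_⟩
    have key : ∀ y : ℕ, π (r + L * ((y : ℤ) + K)) = π (r + L * y) + (π (r + L * K) - π r) := by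
      intro y
      induction y with
      | zero =>
        simp only [Nat.cast_zero, zero_add, mul_zero, add_zero]
        ring
      | succ y ih =>
        have h := hKp (y + 1) (by omega)
        have e1 : (((y + 1 + K : ℕ) : ℤ) - 1) = (y : ℤ) + K := by push_cast; ring
        have e2 : (((y + 1 : ℕ) : ℤ) - 1) = (y : ℤ) := by push_cast; ring
        have e3 : ((y + 1 + K : ℕ) : ℤ) = ((y + 1 : ℕ) : ℤ) + K := by push_cast; ring
        rw [e1, e2, e3] at h
        have h' : π (r + L * (((y + 1 : ℕ) : ℤ) + K)) - π (r + L * ((y : ℤ) + K)) =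
          π (r + L * ((y + 1 : ℕ) : ℤ)) - π (r + L * (y : ℤ)) := by exact_mod_cast h
        linarith
    intro y hy
    have := key y.toNat
    rwa [Int.toNat_of_nonneg hy] at this
  · intro m hm
    have hm' : (0 : ℤ) < m := by exact_mod_cast hm
    obtain ⟨M, hM, hMc⟩ := cc_per hπ (embH r L hr0 hr1 (cycH m hm'))
    refine ⟨M.toNat, by omega, ?_⟩
    have key : ∀ y : ℕ, 0 < y → ¬ m ∣ y →
        cc hπ (embH r L hr0 hr1 (cycH m hm')) (r + L * ((y : ℤ) - 1)) = 1 ∧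
        (embH r L hr0 hr1 (cycH m hm') : Perm ℤ) (r + L * ((y : ℤ) - 1)) = r + L * y := by
      intro y hy hd
      have hd' : ¬ (m : ℤ) ∣ (y : ℤ) := by
        rwa [Int.natCast_dvd_natCast]
      obtain ⟨e1, e2⟩ := cycH_apply hm' hd'
      have e3 : (embH r L hr0 hr1 (cycH m hm') : Perm ℤ) (r + L * ((y : ℤ) - 1)) = r + L * y := by
        rw [embH_apply, e1]
      refine ⟨?_, e3⟩
      have hy1 : (0 : ℤ) ≤ (y : ℤ) - 1 := by omega
      have hb1 := F1 hπ (g := embH r L hr0 hr1 (cycH m hm')) (x := r + L * ((y : ℤ) - 1))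
        (by positivity) (by rw [sl_embH]; exact e2)
      rw [e3, hb' _ hy1, hb' _ (by positivity)] at hb1
      exact mul_eq_right₀ (bb_pos hπ r).ne' |>.1 hb1
    intro y y' hy hy' hd hd' hmod
    obtain ⟨j, hj⟩ := exists_of_modEq hM hmod
    obtain ⟨k1, k2⟩ := key y hy hd
    obtain ⟨k1', k2'⟩ := key y' hy' hd'
    have h := (hMc (r + L * ((y' : ℤ) - 1)) (L * j)).2
    have e : r + L * ((y' : ℤ) - 1) + M * (L * j) = r + L * ((y : ℤ) - 1) := by rw [hj]; ring
    rw [e, k1', k2, k2', one_mul, one_mul] at h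
    exact h
  · intro y hy hd
    have hd' : 2 * M₁ * M₂ ∣ (y : ℤ) := by
      have h1 : ((2 * M₁ * M₂).toNat : ℤ) ∣ (y : ℤ) := Int.natCast_dvd_natCast.2 hd
      rwa [Int.toNat_of_nonneg (by positivity)] at h1
    obtain ⟨w, hw⟩ := hd'
    have hy1 : (1 : ℤ) ≤ y := by exact_mod_cast hy
    -- even part
    have a1 : (2 : ℤ) ∣ y := ⟨M₁ * M₂ * w, by rw [hw]; ring⟩
    have a2 : (embH r L hr0 hr1 h2 : Perm ℤ) (r + L * (y : ℤ)) = r + L * (2 * y) := by
      have := h2_spec (M₁ * M₂ * w)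
      have e : 2 * (M₁ * M₂ * w) = (y : ℤ) := by rw [hw]; ring
      rw [e] at this
      rw [embH_apply, this, ← e]
      ring
    have a3 := F2 hπ (g := embH r L hr0 hr1 h2) (x := r + L * (y : ℤ)) (by positivity)
      (by rw [sl_embH]; exact h2_sl a1)
    rw [a2, hb' _ (by positivity), hb' _ (by positivity)] at a3
    have a5 := mul_right_cancel₀ (bb_pos hπ r).ne' a3
    have a6 := (hM₁c r (L * (2 * M₂ * w)))
    have e1 : r + M₁ * (L * (2 * M₂ * w)) = r + L * (y : ℤ) := by rw [hw]; ring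
    rw [e1, a2] at a6
    rw [← a6.1, a5] at a6
    have a7 := a6.2
    -- odd part
    have b0 : (y : ℤ) - 1 = 1 + 2 * (M₁ * M₂ * w - 1) := by rw [hw]; ring
    have b2 : (embH r L hr0 hr1 h3 : Perm ℤ) (r + L * ((y : ℤ) - 1)) = r + L * (2 * y - 1) := by
      rw [embH_apply, b0, h3_spec, hw]
      ring
    have hy2 : (0 : ℤ) ≤ (y : ℤ) - 1 := by omega
    have hy3 : (0 : ℤ) ≤ 2 * (y : ℤ) - 1 := by omega
    have b3 := F2 hπ (g := embH r L hr0 hr1 h3) (x := r + L * ((y : ℤ) - 1)) (by positivity)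
      (by rw [sl_embH, b0]; exact h3_sl _)
    rw [b2, hb' _ hy2, hb' _ hy3] at b3
    have b5 := mul_right_cancel₀ (bb_pos hπ r).ne' b3
    have b6 := (hM₂c (r + L * (-1)) (L * (2 * M₁ * w)))
    have e2 : r + L * (-1) + M₂ * (L * (2 * M₁ * w)) = r + L * ((y : ℤ) - 1) := by rw [hw]; ring
    rw [e2, b2] at b6
    rw [← b6.1, b5] at b6
    have b7 := b6.2
    push_cast
    linear_combination a7 - b7

/-- Affine on residue classes, on the nonnegative side. -/
theorem lin_pos (hπ : Nrm π) : ∃ K : ℤ, 0 < K ∧ ∀ x : ℤ, 0 ≤ x → ∃ D : ℤ, ∀ j : ℤ, 0 ≤ j →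
    π (x + K * j) = π x + D * j := by
  obtain ⟨L, hL, hbL⟩ := bb_per hπ
  have h : ∀ r : ℤ, ∃ K : ℤ, 0 < K ∧ ∃ D : ℤ, (0 ≤ r ∧ r < L → ∀ y : ℤ, 0 ≤ y →
      π (r + L * (y + K)) = π (r + L * y) + D) := by
    intro r
    by_cases hr : 0 ≤ r ∧ r < L
    · obtain ⟨K, hK, D, hD⟩ := delta_per hπ hbL hr.1 hr.2
      exact ⟨K, hK, D, fun _ => hD⟩
    · exact ⟨1, one_pos, 0, fun h => absurd h hr⟩
  choose K hK D hD using h
  refine ⟨L * ∏ r ∈ Finset.Ico 0 L, K r, mul_pos hL (Finset.prod_pos (fun r _ => hK r)), ?_⟩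
  intro x hx
  set r := x % L with hr
  have hr0 : 0 ≤ r := Int.emod_nonneg _ hL.ne'
  have hr1 : r < L := Int.emod_lt_of_pos _ hL
  obtain ⟨t, ht⟩ := Finset.dvd_prod_of_mem K (Finset.mem_Ico.2 ⟨hr0, hr1⟩)
  have ht0 : 0 < t := by
    have h1 : 0 < ∏ r ∈ Finset.Ico 0 L, K r := Finset.prod_pos (fun r _ => hK r)
    rw [ht] at h1
    exact (pos_iff_pos_of_mul_pos h1).1 (hK r)
  have hy0 : 0 ≤ x / L := Int.ediv_nonneg hx hL.le
  have hxd := dec x L
  rw [← hr] at hxd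
  have key : ∀ i : ℕ, π (r + L * (x / L + K r * i)) = π (r + L * (x / L)) + D r * i := by
    intro i
    induction i with
    | zero => simp
    | succ i ih =>
      have h1 := hD r ⟨hr0, hr1⟩ (x / L + K r * i) (by have := hK r; positivity)
      have e : x / L + K r * ((i + 1 : ℕ) : ℤ) = x / L + K r * i + K r := by push_cast; ring
      rw [e, h1, ih]
      push_cast
      ring
  refine ⟨D r * t, fun j hj => ?_⟩
  have h1 := key (t * j).toNat
  rw [Int.toNat_of_nonneg (by positivity)] at h1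
  rw [← hxd] at h1
  have e : D r * t * j = D r * (t * j) := by ring
  rw [e, ← h1]
  congr 1
  rw [ht]
  linear_combination hxd

end

/-- The reflection. -/
def nu : Perm ℤ where
  toFun x := -x - 1
  invFun x := -x - 1
  left_inv x := by ring
  right_inv x := by ring

theorem nu_apply (x : ℤ) : nu x = -x - 1 := rfl

theorem nu_inv : nu⁻¹ = nu := rfl

theorem nu_nu (x : ℤ) : nu (nu x) = x := by
  rw [nu_apply, nu_apply]
  ring

theorem nu_conj_mem {g : Perm ℤ} (hg : g ∈ HH) : nu * g * nu ∈ HH := by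
  obtain ⟨K, hK0, hK⟩ := hg
  refine ⟨K, hK0, fun r hr0 hr1 => ?_⟩
  obtain ⟨A, B, hA, hAB, hj⟩ := hK (K - 1 - r) (by omega) (by omega)
  refine ⟨B - 1 - A, B, by omega, by omega, fun j => ?_⟩
  rw [Perm.mul_apply, Perm.mul_apply, nu_apply (r + K * j)]
  have e : -(r + K * j) - 1 = (K - 1 - r) + K * (-j - 1) := by ring
  rw [e, hj, nu_apply]
  ring

theorem per_nu {C : Set ℤ} (hC : Per C) : Per (nu ⁻¹' C) := by
  obtain ⟨M, hM, hC⟩ := hC
  refine ⟨M, hM, fun x j => ?_⟩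
  rw [Set.mem_preimage, Set.mem_preimage, nu_apply, nu_apply]
  have e : -(x + M * j) - 1 = (-x - 1) + M * (-j) := by ring
  rw [e, hC]

theorem nu_image (C : Set ℤ) : nu '' C = nu ⁻¹' C := by
  ext x
  constructor
  · rintro ⟨y, hy, rfl⟩
    rw [Set.mem_preimage, nu_nu]
    exact hy
  · intro hx
    exact ⟨nu x, hx, nu_nu x⟩

/-- `Nrm` without the sign condition. -/
structure Nrm0 (π : Perm ℤ) : Prop where
  conj : ∀ g ∈ HH, π * g * π⁻¹ ∈ HH
  per : ∀ C, Per C → Per (π '' C)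
  per' : ∀ C, Per C → Per (π ⁻¹' C)

theorem Nrm0.mul_nu {π : Perm ℤ} (h : Nrm0 π) : Nrm0 (π * nu) := by
  refine ⟨?_, ?_, ?_⟩
  · intro g hg
    have : π * nu * g * (π * nu)⁻¹ = π * (nu * g * nu) * π⁻¹ := by
      rw [mul_inv_rev, nu_inv]
      group
    rw [this]
    exact h.conj _ (nu_conj_mem hg)
  · intro C hC
    have : (π * nu : Perm ℤ) '' C = π '' (nu '' C) := by
      rw [← Set.image_comp]
      rfl
    rw [this, nu_image]
    exact h.per _ (per_nu hC)
  · intro C hC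
    have : (π * nu : Perm ℤ) ⁻¹' C = nu ⁻¹' (π ⁻¹' C) := rfl
    rw [this]
    exact per_nu (h.per' _ hC)

theorem Nrm0.nu_mul {π : Perm ℤ} (h : Nrm0 π) : Nrm0 (nu * π) := by
  refine ⟨?_, ?_, ?_⟩
  · intro g hg
    have : nu * π * g * (nu * π)⁻¹ = nu * (π * g * π⁻¹) * nu := by
      rw [mul_inv_rev, nu_inv]
      group
    rw [this]
    exact nu_conj_mem (h.conj _ hg)
  · intro C hC
    have : (nu * π : Perm ℤ) '' C = nu '' (π '' C) := by
      rw [← Set.image_comp]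
      rfl
    rw [this, nu_image]
    exact per_nu (h.per _ hC)
  · intro C hC
    have : (nu * π : Perm ℤ) ⁻¹' C = π ⁻¹' (nu ⁻¹' C) := rfl
    rw [this]
    exact h.per' _ (per_nu hC)

theorem Nrm.toNrm0 {π : Perm ℤ} (h : Nrm π) : Nrm0 π := ⟨h.conj, h.per, h.per'⟩

theorem Nrm.nu_conj {π : Perm ℤ} (h : Nrm π) : Nrm (nu * (π * nu)) := by
  have h1 := h.toNrm0.mul_nu.nu_mul
  refine ⟨h1.conj, h1.per, h1.per', fun x => ?_⟩
  rw [Perm.mul_apply, Perm.mul_apply, nu_apply, nu_apply]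
  have := h.nn (-x - 1)
  constructor
  · intro h2
    by_contra h3
    have := this.2 (by omega)
    omega
  · intro h2
    by_contra h3
    have := this.1 (by omega)
    omega

theorem lin_neg {π : Perm ℤ} (hπ : Nrm π) : ∃ K : ℤ, 0 < K ∧ ∀ x : ℤ, x < 0 → ∃ D : ℤ,
    ∀ j : ℤ, 0 ≤ j → π (x - K * j) = π x - D * j := by
  obtain ⟨K, hK, h⟩ := lin_pos hπ.nu_conj
  refine ⟨K, hK, fun x hx => ?_⟩
  obtain ⟨D, hD⟩ := h (-x - 1) (by omega)
  refine ⟨D, fun j hj => ?_⟩
  have h1 := hD j hj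
  simp only [Perm.mul_apply, nu_apply] at h1
  have e1 : -(-x - 1 + K * j) - 1 = x - K * j := by ring
  have e2 : -(-x - 1) - 1 = x := by ring
  rw [e1, e2] at h1
  linarith

/-- The rigidity theorem. -/
theorem rigid {π : Perm ℤ} (hπ : Nrm π) : π ∈ HH := by
  obtain ⟨K₁, hK₁, h₁⟩ := lin_pos hπ
  obtain ⟨K₂, hK₂, h₂⟩ := lin_neg hπ
  have hK : 0 < K₁ * K₂ := mul_pos hK₁ hK₂
  have h₁' : ∀ x : ℤ, 0 ≤ x → ∃ D : ℤ, ∀ j : ℤ, 0 ≤ j → π (x + K₁ * K₂ * j) = π x + D * j := by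
    intro x hx
    obtain ⟨D, hD⟩ := h₁ x hx
    refine ⟨D * K₂, fun j hj => ?_⟩
    have := hD (K₂ * j) (by positivity)
    rw [← mul_assoc] at this
    rw [this]
    ring
  have h₂' : ∀ x : ℤ, x < 0 → ∃ D : ℤ, ∀ j : ℤ, 0 ≤ j → π (x - K₁ * K₂ * j) = π x - D * j := by
    intro x hx
    obtain ⟨D, hD⟩ := h₂ x hx
    refine ⟨D * K₁, fun j hj => ?_⟩
    have := hD (K₁ * j) (by positivity)
    have e : x - K₂ * (K₁ * j) = x - K₁ * K₂ * j := by ring
    rw [e] at this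
    rw [this]
    ring
  clear h₁ h₂
  generalize K₁ * K₂ = K at hK h₁' h₂'
  refine ⟨K, hK, fun r hr0 hr1 => ?_⟩
  obtain ⟨D, hD⟩ := h₁' r hr0
  obtain ⟨D', hD'⟩ := h₂' (r - K) (by omega)
  have hA0 : 0 ≤ π r := (hπ.nn r).2 hr0
  have hA'0 : π (r - K) < 0 := by
    by_contra h
    have := (hπ.nn (r - K)).1 (not_lt.1 h)
    omega
  set A := π r with hA
  set A' := π (r - K) with hA'
  -- positivity of slopes
  have hDpos : 0 < D := by
    rcases lt_trichotomy D 0 with h | h | h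
    · exfalso
      have h1 := hD (A + 1) (by omega)
      have h2 := (hπ.nn (r + K * (A + 1))).2 (by positivity)
      rw [h1] at h2
      nlinarith
    · exfalso
      have h1 := hD 1 (by omega)
      rw [h, zero_mul, add_zero, hA] at h1
      have := π.injective h1
      omega
    · exact h
  have hD'pos : 0 < D' := by
    rcases lt_trichotomy D' 0 with h | h | h
    · exfalso
      have h1 := hD' (-A') (by omega)
      have h2 : π (r - K - K * (-A')) < 0 := by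
        by_contra h3
        have := (hπ.nn _).1 (not_lt.1 h3)
        nlinarith
      rw [h1] at h2
      nlinarith
    · exfalso
      have h1 := hD' 1 (by omega)
      rw [h, zero_mul, sub_zero, hA'] at h1
      have := π.injective h1
      omega
    · exact h
  -- the image class
  obtain ⟨m, hm, hmE⟩ := hπ.per _ (per_cls r hK)
  have hE : ∀ y : ℤ, y ∈ π '' cls r K ↔ (∃ j : ℤ, 0 ≤ j ∧ y = A + D * j) ∨
      (∃ j : ℤ, 0 ≤ j ∧ y = A' - D' * j) := by
    intro y
    constructor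
    · rintro ⟨x, ⟨j, rfl⟩, rfl⟩
      by_cases hj : 0 ≤ j
      · exact Or.inl ⟨j, hj, hD j hj⟩
      · refine Or.inr ⟨-j - 1, by omega, ?_⟩
        rw [← hD' _ (by omega)]
        congr 1
        ring
    · rintro (⟨j, hj, rfl⟩ | ⟨j, hj, rfl⟩)
      · exact ⟨r + K * j, ⟨j, rfl⟩, hD j hj⟩
      · refine ⟨r - K - K * j, ⟨-j - 1, by ring⟩, hD' j hj⟩
  have hEpos : ∀ y : ℤ, 0 ≤ y → (y ∈ π '' cls r K ↔ ∃ j : ℤ, 0 ≤ j ∧ y = A + D * j) := by
    intro y hy
    rw [hE]
    constructor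
    · rintro (h | ⟨j, hj, rfl⟩)
      · exact h
      · exfalso
        nlinarith
    · exact Or.inl
  have hEneg : ∀ y : ℤ, y < 0 → (y ∈ π '' cls r K ↔ ∃ j : ℤ, 0 ≤ j ∧ y = A' - D' * j) := by
    intro y hy
    rw [hE]
    constructor
    · rintro (⟨j, hj, rfl⟩ | h)
      · exfalso
        nlinarith
      · exact h
    · exact Or.inr
  have hAD : A < D := by
    by_contra hle
    push Not at hle
    have h1 : A - D + m * D ∈ π '' cls r K := by
      rw [hEpos _ (by nlinarith)]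
      exact ⟨m - 1, by omega, by ring⟩
    rw [hmE, hEpos _ (by omega)] at h1
    obtain ⟨j, hj, h2⟩ := h1
    nlinarith
  -- all `A + D j` lie in the image class
  have hall : ∀ j : ℤ, A + D * j ∈ π '' cls r K := by
    intro j
    have h1 : A + D * j + m * (D * |j|) ∈ π '' cls r K := by
      have h3 : 0 ≤ j + m * |j| := by
        have := abs_nonneg j
        have := neg_abs_le j
        nlinarith
      rw [hEpos _ (by nlinarith)]
      exact ⟨j + m * |j|, h3, by ring⟩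
    rwa [hmE] at h1
  have hconv : ∀ y ∈ π '' cls r K, ∃ j : ℤ, y = A + D * j := by
    intro y hy
    have h1 : y + m * (D * |y|) ∈ π '' cls r K := by rwa [hmE]
    have h3 : 0 ≤ y + m * (D * |y|) := by
      have := abs_nonneg y
      have := neg_abs_le y
      have : |y| ≤ m * (D * |y|) := by
        have : 1 ≤ m * D := by nlinarith
        nlinarith
      omega
    rw [hEpos _ h3] at h1
    obtain ⟨j, hj, h2⟩ := h1
    exact ⟨j - m * |y|, by linear_combination h2⟩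
  -- compare with the negative side
  have hneg1 : ∀ i : ℤ, 1 ≤ i → ∃ j : ℤ, 0 ≤ j ∧ A - D * i = A' - D' * j := by
    intro i hi
    have h1 := hall (-i)
    have e : A + D * (-i) = A - D * i := by ring
    rw [e] at h1
    exact (hEneg _ (by nlinarith)).1 h1
  have hneg2 : ∀ j : ℤ, 0 ≤ j → ∃ i : ℤ, 1 ≤ i ∧ A' - D' * j = A - D * i := by
    intro j hj
    have hlt : A' - D' * j < 0 := by nlinarith
    obtain ⟨i, hi⟩ := hconv _ ((hEneg _ hlt).2 ⟨j, hj, rfl⟩)
    refine ⟨-i, ?_, by linarith⟩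
    by_contra h
    push Not at h
    have : 0 ≤ i := by omega
    nlinarith
  obtain ⟨j₁, hj₁, e₁⟩ := hneg1 1 le_rfl
  obtain ⟨i₁, hi₁, f₁⟩ := hneg2 0 le_rfl
  have hA'eq : A' = A - D := by
    have u1 : A - D ≤ A' := by nlinarith
    have u2 : A' ≤ A - D := by nlinarith
    linarith
  obtain ⟨j₂, hj₂, e₂⟩ := hneg1 2 (by omega)
  obtain ⟨i₂, hi₂, f₂⟩ := hneg2 1 (by omega)
  have hDD : D' = D := by
    have u1 : D = D' * j₂ := by linear_combination -e₂ - hA'eq
    have u2 : D' = D * (i₂ - 1) := by linear_combination -f₂ + hA'eq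
    have u3 : 1 ≤ j₂ := by
      by_contra h
      push Not at h
      nlinarith
    have u4 : 1 ≤ i₂ - 1 := by
      by_contra h
      push Not at h
      nlinarith
    nlinarith
  refine ⟨A, D, hA0, hAD, fun j => ?_⟩
  by_cases hj : 0 ≤ j
  · exact hD j hj
  · have := hD' (-j - 1) (by omega)
    have e : r - K - K * (-j - 1) = r + K * j := by ring
    rw [e, hA'eq, hDD] at this
    rw [this]
    ring

end Pool.Agent.Lib.Pa5f8b0
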