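import Mathlib
import Pool.Agent.Lib.Pa5f8b0.Rubin2

set_option autoImplicit false

namespace Pool.Agent.Lib.Pa5f8b0

open Equiv

/-- The map on periodic sets induced by `φ`. -/
def bet (φ : HH ≃* HH) (C : Set ℤ) : Set ℤ :=
  {y | ∃ f : HH, Sup (f : Perm ℤ) ⊆ C ∧ y ∈ Sup ((φ f : HH) : Perm ℤ)}

theorem bet_mono (φ : HH ≃* HH) {C D : Set ℤ} (h : C ⊆ D) : bet φ C ⊆ bet φ D := by
  rintro y ⟨f, hf, hy⟩
  exact ⟨f, hf.trans h, hy⟩

theorem bet_sup (φ : HH ≃* HH) (f : HH) :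
    bet φ (Sup (f : Perm ℤ)) = Sup ((φ f : HH) : Perm ℤ) := by
  ext y
  constructor
  · rintro ⟨k, hk, hy⟩
    exact sup_mono φ hk hy
  · intro hy
    exact ⟨f, subset_rfl, hy⟩

theorem bet_per (φ : HH ≃* HH) {C : Set ℤ} (hC : Per C) : Per (bet φ C) := by
  obtain ⟨f, rfl⟩ := exists_sup hC
  rw [bet_sup]
  exact sup_per (φ f).2

theorem bet_symm (φ : HH ≃* HH) {C : Set ℤ} (hC : Per C) : bet φ.symm (bet φ C) = C := by
  obtain ⟨f, rfl⟩ := exists_sup hC
  rw [bet_sup, bet_sup, φ.symm_apply_apply]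

theorem bet_symm' (φ : HH ≃* HH) {C : Set ℤ} (hC : Per C) : bet φ (bet φ.symm C) = C := by
  obtain ⟨f, rfl⟩ := exists_sup hC
  rw [bet_sup, bet_sup, φ.apply_symm_apply]

theorem bet_union (φ : HH ≃* HH) {C D : Set ℤ} (hC : Per C) (hD : Per D) :
    bet φ (C ∪ D) ⊆ bet φ C ∪ bet φ D := by
  have hE : Per (bet φ C ∪ bet φ D) := (bet_per φ hC).union (bet_per φ hD)
  have h1 : C ∪ D ⊆ bet φ.symm (bet φ C ∪ bet φ D) := by
    apply Set.union_subset
    · conv_lhs => rw [← bet_symm φ hC]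
      exact bet_mono _ Set.subset_union_left
    · conv_lhs => rw [← bet_symm φ hD]
      exact bet_mono _ Set.subset_union_right
  have h2 := bet_mono φ h1
  rwa [bet_symm' φ hE] at h2

theorem bet_inter (φ : HH ≃* HH) {C D : Set ℤ} (hC : Per C) (hD : Per D) :
    bet φ C ∩ bet φ D ⊆ bet φ (C ∩ D) := by
  have hE : Per (bet φ C ∩ bet φ D) := (bet_per φ hC).inter (bet_per φ hD)
  have h1 : bet φ.symm (bet φ C ∩ bet φ D) ⊆ C ∩ D := by
    apply Set.subset_inter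
    · conv_rhs => rw [← bet_symm φ hC]
      exact bet_mono _ Set.inter_subset_left
    · conv_rhs => rw [← bet_symm φ hD]
      exact bet_mono _ Set.inter_subset_right
  have h2 := bet_mono φ h1
  rwa [bet_symm' φ hE] at h2

theorem bet_empty (φ : HH ≃* HH) : bet φ ∅ = ∅ := by
  have h1 : Sup ((1 : HH) : Perm ℤ) = ∅ := by
    ext x
    simp only [Set.mem_empty_iff_false, iff_false]
    intro h
    obtain ⟨j, hj⟩ := h 1 one_pos
    exact hj rfl
  rw [← h1, bet_sup, map_one]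

theorem bet_univ (φ : HH ≃* HH) : bet φ Set.univ = Set.univ := by
  apply Set.eq_univ_of_univ_subset
  conv_lhs => rw [← bet_symm' φ per_univ]
  exact bet_mono _ (Set.subset_univ _)

theorem sup_conj_aux {g f : HH} {y : ℤ} (hy : y ∈ Sup (f : Perm ℤ)) :
    (g : Perm ℤ) y ∈ Sup ((g * f * g⁻¹ : HH) : Perm ℤ) := by
  intro M hM
  obtain ⟨K, hK⟩ := g.2
  obtain ⟨N, hK0, hN0, hN⟩ := hK.loc y
  obtain ⟨i, hi⟩ := hy (K * M) (mul_pos hK0 hM)
  refine ⟨N * i, ?_⟩
  have e : (g : Perm ℤ) y + M * (N * i) = (g : Perm ℤ) (y + K * M * i) := by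
    have := hN (M * i)
    have e2 : y + K * (M * i) = y + K * M * i := by ring
    rw [e2] at this
    rw [this]
    ring
  rw [e, coe_mul_apply, coe_mul_apply, coe_inv_apply']
  intro h
  exact hi ((g : Perm ℤ).injective h)

theorem mem_sup_conj {g f : HH} {y : ℤ} :
    (g : Perm ℤ) y ∈ Sup ((g * f * g⁻¹ : HH) : Perm ℤ) ↔ y ∈ Sup (f : Perm ℤ) := by
  constructor
  · intro h
    have h2 := sup_conj_aux (g := g⁻¹) h
    have e : g⁻¹ * (g * f * g⁻¹) * g⁻¹⁻¹ = f := by group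
    rwa [e, coe_inv_apply'] at h2
  · exact sup_conj_aux

theorem bet_apply (φ : HH ≃* HH) (g : HH) {C : Set ℤ} {y : ℤ} (hy : y ∈ bet φ C) :
    ((φ g : HH) : Perm ℤ) y ∈ bet φ ((g : Perm ℤ) '' C) := by
  obtain ⟨f, hf, hy⟩ := hy
  refine ⟨g * f * g⁻¹, ?_, ?_⟩
  · intro x hx
    have h1 : (g : Perm ℤ) (((g⁻¹ : HH) : Perm ℤ) x) ∈ Sup ((g * f * g⁻¹ : HH) : Perm ℤ) := by
      rwa [coe_inv_apply]
    rw [mem_sup_conj] at h1
    exact ⟨_, hf h1, coe_inv_apply g x⟩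
  · rw [map_mul, map_mul, map_inv, mem_sup_conj]
    exact hy

theorem bet_apply_iff (φ : HH ≃* HH) (g : HH) {C : Set ℤ} {y : ℤ} :
    ((φ g : HH) : Perm ℤ) y ∈ bet φ ((g : Perm ℤ) '' C) ↔ y ∈ bet φ C := by
  constructor
  · intro h
    have h2 := bet_apply φ g⁻¹ h
    rw [map_inv, coe_inv_apply', ← Set.image_comp] at h2
    have e : (((g⁻¹ : HH) : Perm ℤ) ∘ (g : Perm ℤ)) = id := by
      ext x
      exact coe_inv_apply' g x
    rwa [e, Set.image_id] at h2
  · exact bet_apply φ g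

/-- An element fixing `n` with slope 2. -/
theorem exists_fix2 (n : ℤ) : ∃ g : HH, (g : Perm ℤ) n = n ∧ n ∈ Sup (g : Perm ℤ) := by
  -- `M = |n| + 2`
  obtain ⟨M, hM2, hnM⟩ : ∃ M : ℤ, 2 ≤ M ∧ |n| < M := ⟨|n| + 2, by have := abs_nonneg n; omega, by omega⟩
  have hM : 0 < M := by omega
  obtain ⟨hn1, hn2⟩ := abs_lt.1 hnM
  obtain ⟨r, v, hr0, hr1, hr2, hrv⟩ : ∃ r v : ℤ, 0 ≤ r ∧ r < M ∧ n = r + M * v ∧
      ∃ r' : ℤ, 0 ≤ r' ∧ r' < 2 * M ∧ n = r' + 2 * M * v := by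
    by_cases h : 0 ≤ n
    · exact ⟨n, 0, h, hn2, by ring, n, h, by omega, by ring⟩
    · exact ⟨n + M, -1, by omega, by omega, by ring, n + 2 * M, by omega, by omega, by ring⟩
  obtain ⟨r', hr0', hr1', hr2'⟩ := hrv
  -- another class
  obtain ⟨s, hs0, hs1, hsr⟩ : ∃ s : ℤ, 0 ≤ s ∧ s < M ∧ s ≠ r := by
    by_cases h : r = 0
    · exact ⟨1, by omega, by omega, by omega⟩
    · exact ⟨0, le_rfl, hM, fun h' => h h'.symm⟩
  have hd1 : ∀ j k : ℤ, r + M * j ≠ s + M * k := by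
    intro j k h
    have h5 := congrArg (· % M) h
    simp only [emod_add_mul j hr0 hr1, emod_add_mul k hs0 hs1] at h5
    exact hsr h5.symm
  have hd2 : ∀ j k : ℤ, s + M * j ≠ r' + 2 * M * k := by
    intro j k h
    apply hd1 (2 * k - v) j
    linear_combination hr2' - hr2 - h
  obtain ⟨τ₁, hτ₁, hs₁, -⟩ := exists_ct hr0 hr1 hs0 hs1 hd1
  obtain ⟨τ₂, hτ₂, hs₂, -⟩ := exists_ct hs0 hs1 hr0' hr1' hd2
  refine ⟨⟨τ₂, ctset_subset_HH hτ₂⟩ * ⟨τ₁, ctset_subset_HH hτ₁⟩, ?_, ?_⟩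
  · change τ₂ (τ₁ n) = n
    rw [hr2, (hs₁ v).1, (hs₂ v).1, ← hr2', hr2]
  · intro N hN
    refine ⟨M, ?_⟩
    change τ₂ (τ₁ (n + N * M)) ≠ _
    have e1 : n + N * M = r + M * (v + N) := by rw [hr2]; ring
    have e2 : r' + 2 * M * (v + N) = n + 2 * M * N := by rw [hr2']; ring
    rw [e1, (hs₁ _).1, (hs₂ _).1, e2, ← e1]
    have : 0 < M * N := mul_pos hM hN
    intro h
    nlinarith

theorem exists_cls (φ : HH ≃* HH) (n : ℤ) {M : ℤ} (hM : 0 < M) : ∃ x, n ∈ bet φ (cls x M) := by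
  have hT : ∀ t : ℕ, Per {y : ℤ | y % M < t} := by
    intro t
    refine ⟨M, hM, fun x j => ?_⟩
    change (x + M * j) % M < t ↔ x % M < t
    rw [Int.add_mul_emod_self_left]
  have key : ∀ t : ℕ, n ∈ bet φ {y : ℤ | y % M < t} → ∃ x, n ∈ bet φ (cls x M) := by
    intro t
    induction t with
    | zero =>
      intro h
      have e : {y : ℤ | y % M < (0 : ℕ)} = ∅ := by
        ext y
        change y % M < (0 : ℕ) ↔ False
        have := Int.emod_nonneg y hM.ne'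
        simp only [Nat.cast_zero, iff_false, not_lt]
        exact this
      rw [e, bet_empty] at h
      exact absurd h (Set.notMem_empty n)
    | succ t ih =>
      intro h
      have hsub : {y : ℤ | y % M < (t + 1 : ℕ)} ⊆ {y : ℤ | y % M < t} ∪ cls t M := by
        intro y hy
        change y % M < (t + 1 : ℕ) at hy
        push_cast at hy
        by_cases h1 : y % M < t
        · exact Or.inl h1
        · right
          have h2 : y % M = t := by omega
          refine ⟨y / M, ?_⟩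
          rw [← h2]
          exact dec y M
      rcases bet_union φ (hT t) (per_cls t hM) (bet_mono φ hsub h) with h | h
      · exact ih h
      · exact ⟨t, h⟩
  apply key M.toNat
  have e : {y : ℤ | y % M < (M.toNat : ℕ)} = Set.univ := by
    ext y
    change y % M < (M.toNat : ℕ) ↔ True
    have := Int.emod_lt_of_pos y hM
    simp only [iff_true]
    omega
  rw [e, bet_univ]
  exact Set.mem_univ n

theorem bet_nonempty_inter (φ : HH ≃* HH) {C D : Set ℤ} (hC : Per C) (hD : Per D) {n : ℤ}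
    (h1 : n ∈ bet φ C) (h2 : n ∈ bet φ D) : ∃ z, z ∈ C ∧ z ∈ D := by
  have h3 := bet_inter φ hC hD ⟨h1, h2⟩
  by_contra hcon
  have e : C ∩ D = ∅ := by
    ext z
    simp only [Set.mem_empty_iff_false, iff_false]
    rintro ⟨h4, h5⟩
    exact hcon ⟨z, h4, h5⟩
  rw [e, bet_empty] at h3
  exact h3

theorem per_image {g : HH} {C : Set ℤ} (hC : Per C) : Per ((g : Perm ℤ) '' C) := by
  obtain ⟨f, rfl⟩ := exists_sup hC
  have : (g : Perm ℤ) '' Sup (f : Perm ℤ) = Sup ((g * f * g⁻¹ : HH) : Perm ℤ) := by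
    ext x
    constructor
    · rintro ⟨y, hy, rfl⟩
      exact mem_sup_conj.2 hy
    · intro hx
      refine ⟨((g⁻¹ : HH) : Perm ℤ) x, ?_, coe_inv_apply g x⟩
      rw [← mem_sup_conj (g := g), coe_inv_apply]
      exact hx
  rw [this]
  exact sup_per (g * f * g⁻¹ : HH).2

theorem exists_pt (φ : HH ≃* HH) (n : ℤ) : ∃ n' : ℤ, ∀ L : ℤ, 0 < L →
    n ∈ bet φ.symm (cls n' L) := by
  obtain ⟨g, hgn, hgs⟩ := exists_fix2 n
  obtain ⟨K, hK⟩ := (φ g).2
  have hK0 := hK.1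
  obtain ⟨x₀, hx₀⟩ := exists_cls φ.symm n hK0
  obtain ⟨B, hB⟩ := hK.loc x₀
  set γ : HH := φ g with hγ
  have hγs : φ.symm γ = g := φ.symm_apply_apply g
  set A := (γ : Perm ℤ) x₀ with hA
  -- key divisibility
  have key : ∀ N : ℤ, 0 < N → ∃ v : ℤ, n ∈ bet φ.symm (cls (x₀ + K * v) (K * N)) ∧
      N ∣ (A - x₀) + (B - K) * v := by
    intro N hN
    obtain ⟨x, hx⟩ := exists_cls φ.symm n (mul_pos hK0 hN)
    obtain ⟨z, ⟨a, ha⟩, ⟨b, hb⟩⟩ := bet_nonempty_inter φ.symm (per_cls x₀ hK0)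
      (per_cls x (mul_pos hK0 hN)) hx₀ hx
    have hxv : x = x₀ + K * (a - N * b) := by linear_combination ha - hb
    refine ⟨a - N * b, by rw [← hxv]; exact hx, ?_⟩
    have h1 := bet_apply φ.symm γ hx
    rw [hγs, hgn] at h1
    obtain ⟨w, ⟨c, hc⟩, ⟨u, ⟨d, hd⟩, hu⟩⟩ := bet_nonempty_inter φ.symm
      (per_cls x (mul_pos hK0 hN)) (per_image (per_cls x (mul_pos hK0 hN))) hx h1
    have e1 : u = x₀ + K * (a - N * b + N * d) := by rw [hd, hxv]; ring
    rw [e1, hB.2.2] at hu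
    refine ⟨K * c - B * d, ?_⟩
    rw [hc, hxv] at hu
    linear_combination hu
  by_cases hBK : B = K
  · exfalso
    have hA0 : A = x₀ := by
      obtain ⟨v, -, hv⟩ := key (|A - x₀| + 1) (by positivity)
      rw [hBK, sub_self, zero_mul, add_zero] at hv
      have := Int.eq_zero_of_abs_lt_dvd hv (by omega)
      omega
    have hdis : ∀ z ∈ cls x₀ K, z ∉ Sup (γ : Perm ℤ) := by
      rintro z ⟨j, rfl⟩
      rw [sup_per' hK, not_sup_iff hK]
      intro i
      rw [hB.2.2, ← hA, hA0, hBK]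
    have h2 : n ∈ bet φ.symm (Sup (γ : Perm ℤ)) := by
      rw [bet_sup, hγs]
      exact hgs
    obtain ⟨z, hz1, hz2⟩ := bet_nonempty_inter φ.symm (per_cls x₀ hK0) (sup_per γ.2) hx₀ h2
    exact hdis z hz1 hz2
  · have hD : B - K ≠ 0 := sub_ne_zero.2 hBK
    obtain ⟨e, he⟩ : B - K ∣ A - x₀ := by
      obtain ⟨v, -, hv⟩ := key |B - K| (abs_pos.2 hD)
      rw [abs_dvd] at hv
      exact (dvd_add_left (dvd_mul_right _ _)).1 hv
    refine ⟨x₀ + K * (-e), fun L hL => ?_⟩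
    obtain ⟨v, hv1, hv2⟩ := key (|B - K| * L) (mul_pos (abs_pos.2 hD) hL)
    have h3 : (B - K) * L ∣ (B - K) * (e + v) := by
      have h4 : (B - K) * L ∣ |B - K| * L := mul_dvd_mul_right ((dvd_abs _ _).2 dvd_rfl) L
      have h5 := h4.trans hv2
      rw [he] at h5
      rw [mul_add]
      exact h5
    obtain ⟨w, hw⟩ := (mul_dvd_mul_iff_left hD).1 h3
    refine bet_mono φ.symm ?_ hv1
    rintro y ⟨j, rfl⟩
    refine ⟨K * w + K * |B - K| * j, ?_⟩
    linear_combination K * hw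

/-- The induced map on points. -/
noncomputable def pt (φ : HH ≃* HH) (n : ℤ) : ℤ := Classical.choose (exists_pt φ n)

theorem pt_spec (φ : HH ≃* HH) (n : ℤ) {L : ℤ} (hL : 0 < L) :
    n ∈ bet φ.symm (cls (pt φ n) L) := Classical.choose_spec (exists_pt φ n) L hL

theorem pt_mem (φ : HH ≃* HH) (n : ℤ) {C : Set ℤ} (hC : Per C) :
    pt φ n ∈ bet φ C ↔ n ∈ C := by
  obtain ⟨L, hL, hLC⟩ := bet_per φ hC
  constructor
  · intro h
    have h1 : cls (pt φ n) L ⊆ bet φ C := by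
      rintro y ⟨j, rfl⟩
      rwa [hLC]
    have h2 := bet_mono φ.symm h1 (pt_spec φ n hL)
    rwa [bet_symm φ hC] at h2
  · intro h
    by_contra hn
    have h1 : n ∈ bet φ.symm (bet φ C) := by rwa [bet_symm φ hC]
    obtain ⟨z, ⟨j, rfl⟩, hz2⟩ := bet_nonempty_inter φ.symm (per_cls (pt φ n) hL)
      (bet_per φ hC) (pt_spec φ n hL) h1
    rw [hLC] at hz2
    exact hn hz2

theorem eq_of_per {x y : ℤ} (h : ∀ C, Per C → (x ∈ C ↔ y ∈ C)) : x = y := by
  have h1 := (h (cls x (|x - y| + 1)) (per_cls x (by positivity))).1 (self_mem_cls _ _)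
  rw [mem_cls_iff] at h1
  have h2 : |y - x| < |x - y| + 1 := by
    rw [abs_sub_comm]
    omega
  have := Int.eq_zero_of_abs_lt_dvd h1 h2
  omega

theorem pt_symm (φ : HH ≃* HH) (n : ℤ) : pt φ.symm (pt φ n) = n := by
  apply eq_of_per
  intro C hC
  rw [← pt_mem φ n hC, ← pt_mem φ.symm (pt φ n) (bet_per φ hC), bet_symm φ hC]

/-- The point map as a permutation. -/
noncomputable def ptPerm (φ : HH ≃* HH) : Perm ℤ where
  toFun := pt φ
  invFun := pt φ.symm
  left_inv := pt_symm φ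
  right_inv := by
    intro n
    have := pt_symm φ.symm n
    simpa using this

/-- Every automorphism of `HH` is induced by a homeomorphism (for the profinite topology) of the
integers. -/
theorem exists_perm (φ : HH ≃* HH) : ∃ π : Perm ℤ,
    (∀ g : HH, ((φ g : HH) : Perm ℤ) = π * (g : Perm ℤ) * π⁻¹) ∧
    (∀ C, Per C → Per (π '' C)) ∧ (∀ C, Per C → Per (π ⁻¹' C)) := by
  refine ⟨ptPerm φ, ?_, ?_, ?_⟩
  · intro g
    ext y
    obtain ⟨n, rfl⟩ := (ptPerm φ).surjective y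
    rw [Perm.mul_apply, Perm.mul_apply, inv_self]
    change ((φ g : HH) : Perm ℤ) (pt φ n) = pt φ ((g : Perm ℤ) n)
    apply eq_of_per
    intro C hC
    have hD := bet_per φ.symm hC
    have e1 : C = bet φ (bet φ.symm C) := (bet_symm' φ hC).symm
    have hE : Per (((g⁻¹ : HH) : Perm ℤ) '' bet φ.symm C) := per_image hD
    have e2 : bet φ.symm C = (g : Perm ℤ) '' (((g⁻¹ : HH) : Perm ℤ) '' bet φ.symm C) := by
      rw [← Set.image_comp]
      have e : ((g : Perm ℤ) ∘ ((g⁻¹ : HH) : Perm ℤ)) = id := by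
        ext x
        exact coe_inv_apply g x
      rw [e, Set.image_id]
    rw [e1, pt_mem φ _ hD, e2, bet_apply_iff, pt_mem φ _ hE, ← e2]
    constructor
    · rintro ⟨u, hu, hun⟩
      rw [← hun, coe_inv_apply]
      exact hu
    · intro h
      exact ⟨_, h, coe_inv_apply' g n⟩
  · intro C hC
    have e : ptPerm φ '' C = bet φ C := by
      ext y
      obtain ⟨n, rfl⟩ := (ptPerm φ).surjective y
      rw [Equiv.injective _ |>.mem_set_image]
      exact (pt_mem φ n hC).symm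
    rw [e]
    exact bet_per φ hC
  · intro C hC
    have e : ptPerm φ ⁻¹' C = bet φ.symm C := by
      ext n
      have h1 := pt_mem φ n (bet_per φ.symm hC)
      rw [bet_symm' φ hC] at h1
      exact h1
    rw [e]
    exact bet_per φ.symm hC

end Pool.Agent.Lib.Pa5f8b0
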