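import Mathlib
import Pool.Agent.Lib.Pa5f8b0.FullGroup
import Pool.Agent.Lib.Pa5f8b0.Rubin3
import Pool.Agent.Lib.Pa5f8b0.Rigid3

set_option autoImplicit false

namespace Pool.Agent.Lib.Pa5f8b0

open Equiv

theorem same_sign {x y : ℤ} (h : 0 ≤ x ↔ 0 ≤ y) : ∃ g : HH, (g : Perm ℤ) x = y := by
  by_cases hx : 0 ≤ x
  · obtain ⟨a, ha, -⟩ := exists_shift hx
    obtain ⟨b, hb, -⟩ := exists_shift (h.1 hx)
    refine ⟨b * a⁻¹, ?_⟩
    rw [coe_mul_apply, ← ha, coe_inv_apply', hb]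
  · have hy : ¬ 0 ≤ y := fun h' => hx (h.2 h')
    obtain ⟨a, ha⟩ := exists_shift_neg (not_le.1 hx)
    obtain ⟨b, hb⟩ := exists_shift_neg (not_le.1 hy)
    refine ⟨b * a⁻¹, ?_⟩
    rw [coe_mul_apply, ← ha, coe_inv_apply', hb]

theorem Nrm0.sign {π : Perm ℤ} (hπ : Nrm0 π) :
    (∀ x, 0 ≤ π x ↔ 0 ≤ x) ∨ (∀ x, 0 ≤ π x ↔ ¬ 0 ≤ x) := by
  have key : ∀ x y : ℤ, (0 ≤ x ↔ 0 ≤ y) → (0 ≤ π x ↔ 0 ≤ π y) := by
    intro x y h
    obtain ⟨g, hg⟩ := same_sign h
    have h1 := HH_nonneg (hπ.conj g g.2) (π x)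
    rw [Perm.mul_apply, Perm.mul_apply, inv_self, hg] at h1
    exact h1.symm
  by_cases h0 : 0 ≤ π 0
  · by_cases h1 : 0 ≤ π (-1)
    · exfalso
      obtain ⟨x, hx⟩ := π.surjective (-1)
      by_cases hx0 : 0 ≤ x
      · have := (key x 0 (by simp [hx0])).2 h0
        omega
      · have := (key x (-1) (by constructor <;> intro h <;> omega)).2 h1
        omega
    · left
      intro x
      by_cases hx0 : 0 ≤ x
      · have := key x 0 (by simp [hx0])
        tauto
      · have := key x (-1) (by constructor <;> intro h <;> omega)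
        tauto
  · by_cases h1 : 0 ≤ π (-1)
    · right
      intro x
      by_cases hx0 : 0 ≤ x
      · have := key x 0 (by simp [hx0])
        tauto
      · have := key x (-1) (by constructor <;> intro h <;> omega)
        tauto
    · exfalso
      obtain ⟨x, hx⟩ := π.surjective 0
      by_cases hx0 : 0 ≤ x
      · have := (key x 0 (by simp [hx0])).1 (by omega)
        exact h0 this
      · have := (key x (-1) (by constructor <;> intro h <;> omega)).1 (by omega)
        exact h1 this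

theorem main_auto (φ : HH ≃* HH) : ∃ h ∈ HH,
    (∀ g : HH, ((φ g : HH) : Perm ℤ) = h * (g : Perm ℤ) * h⁻¹) ∨
    (∀ g : HH, ((φ g : HH) : Perm ℤ) = h * nu * (g : Perm ℤ) * nu⁻¹ * h⁻¹) := by
  obtain ⟨π, hφ, hp, hp'⟩ := exists_perm φ
  have h0 : Nrm0 π := ⟨fun g hg => by
    have := hφ ⟨g, hg⟩
    rw [← this]
    exact (φ ⟨g, hg⟩).2, hp, hp'⟩
  rcases h0.sign with hs | hs
  · exact ⟨π, rigid ⟨h0.conj, h0.per, h0.per', hs⟩, Or.inl hφ⟩
  · have h1 := h0.mul_nu
    have h2 : π * nu ∈ HH := by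
      refine rigid ⟨h1.conj, h1.per, h1.per', fun x => ?_⟩
      rw [Perm.mul_apply, hs, nu_apply]
      omega
    refine ⟨π * nu, h2, Or.inr fun g => ?_⟩
    rw [hφ]
    have e : π * nu * nu = π := by
      ext x
      rw [Perm.mul_apply, Perm.mul_apply, nu_nu]
    have e2 : nu⁻¹ * (π * nu)⁻¹ = π⁻¹ := by
      rw [← mul_inv_rev, e]
    rw [e, mul_assoc (π * (g : Perm ℤ)), e2]

theorem main_not : ¬ ∃ h ∈ HH, ∀ g ∈ HH, nu * g * nu⁻¹ = h * g * h⁻¹ := by
  rintro ⟨h, hh, hg⟩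
  -- `z = h⁻¹ nu` centralises `HH` and moves `0`
  set z : Perm ℤ := h⁻¹ * nu with hz
  have hcomm : ∀ g ∈ HH, z * g = g * z := by
    intro g hgm
    have h1 := hg g hgm
    calc z * g = h⁻¹ * (nu * g * nu⁻¹) * nu := by rw [hz]; group
      _ = h⁻¹ * (h * g * h⁻¹) * nu := by rw [h1]
      _ = g * z := by rw [hz]; group
  have hz0 : z 0 < 0 := by
    by_contra hcon
    push Not at hcon
    have h1 := (HH_nonneg (inv_mem hh) (nu 0)).1 hcon
    rw [nu_apply] at h1
    omega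
  set y := z 0 with hy
  -- a class transposition moving `y` and fixing `0`
  have hM : 0 < -y + 2 := by omega
  obtain ⟨τ, hτ, hs, hf⟩ := exists_ct (r₁ := 2) (m₁ := -y + 2) (r₂ := 1) (m₂ := -y + 2)
    (by omega) (by omega) (by omega) (by omega) (by
      intro j k h
      have h5 := congrArg (· % (-y + 2)) h
      simp only [emod_add_mul j (show (0:ℤ) ≤ 2 by omega) (show 2 < -y + 2 by omega),
        emod_add_mul k (show (0:ℤ) ≤ 1 by omega) (show 1 < -y + 2 by omega)] at h5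
      omega)
  have h0 : τ 0 = 0 := by
    apply hf
    · intro j hj
      have h5 := congrArg (· % (-y + 2)) hj
      simp only [emod_add_mul j (show (0:ℤ) ≤ 2 by omega) (show 2 < -y + 2 by omega)] at h5
      simp at h5
    · intro j hj
      have h5 := congrArg (· % (-y + 2)) hj
      simp only [emod_add_mul j (show (0:ℤ) ≤ 1 by omega) (show 1 < -y + 2 by omega)] at h5
      simp at h5
  have h1 : τ y ≠ y := by
    have e := (hs (-1)).1
    have e1 : 2 + (-y + 2) * (-1) = y := by ring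
    rw [e1] at e
    rw [e]
    intro h
    linarith
  have h2 := hcomm τ (ctset_subset_HH hτ)
  have h3 := congrArg (fun u : Perm ℤ => u 0) h2
  simp only [Perm.mul_apply] at h3
  rw [h0, ← hy] at h3
  exact h1 h3.symm

end Pool.Agent.Lib.Pa5f8b0
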